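import Pool.Agent.SPE.Game

/-!
# Generic rewards (MP_061e18_lc)

`GEN r`: for every player, different nonempty sets of edges have different mean rewards. Every family of rewards can be perturbed to a generic one.
-/

namespace SPE

variable {V P : Type}

/-- mean of a reward function over a finite set of edges -/
noncomputable def edgeMean (f : V → V → ℝ) (F : Finset (V × V)) : ℝ :=
  (∑ e ∈ F, f e.1 e.2) / (F.card : ℝ)

/-- generic rewards -/
def GEN (r : P → V → V → ℝ) : Prop :=
  ∀ i (F F' : Finset (V × V)), F.Nonempty → F'.Nonempty →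
    edgeMean (r i) F = edgeMean (r i) F' → F = F'

open Polynomial in
/-- the difference of two means of the perturbed rewards is a nonzero polynomial in the parameter -/
theorem finite_bad [Finite V] (f : V → V → ℝ) (k : V × V → ℕ) (hk : Function.Injective k)
    (F F' : Finset (V × V)) (hF : F.Nonempty) (hF' : F'.Nonempty) (hne : F ≠ F') :
    {t : ℝ | edgeMean (fun y z => f y z + t ^ (k (y, z) + 1)) F =
      edgeMean (fun y z => f y z + t ^ (k (y, z) + 1)) F'}.Finite := by
  classical
  obtain ⟨_⟩ := nonempty_fintype V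
  have hc : (0 : ℝ) < F.card := by exact_mod_cast hF.card_pos
  have hc' : (0 : ℝ) < F'.card := by exact_mod_cast hF'.card_pos
  let p : ℝ[X] := C (edgeMean f F - edgeMean f F') +
    (C (1 / (F.card : ℝ)) * ∑ e ∈ F, X ^ (k e + 1) -
      C (1 / (F'.card : ℝ)) * ∑ e ∈ F', X ^ (k e + 1))
  have hcoef : ∀ e, p.coeff (k e + 1) = (if e ∈ F then 1 / (F.card : ℝ) else 0) -
      (if e ∈ F' then 1 / (F'.card : ℝ) else 0) := by
    intro e
    have h1 : ∀ H : Finset (V × V), (∑ e' ∈ H, (X : ℝ[X]) ^ (k e' + 1)).coeff (k e + 1) =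
        if e ∈ H then 1 else 0 := by
      intro H
      rw [finsetSum_coeff]
      simp only [coeff_X_pow]
      have h2 : ∀ e' : V × V, (k e + 1 = k e' + 1) ↔ e = e' := by
        intro e'
        constructor
        · intro h; exact hk (by omega)
        · rintro rfl; rfl
      simp only [h2]
      rw [Finset.sum_ite_eq]
    simp only [p, coeff_add, coeff_sub, coeff_C_mul, h1, coeff_C, Nat.add_eq_zero_iff,
      one_ne_zero, and_false, if_false, zero_add, mul_ite, mul_one, mul_zero]
  have hp : p ≠ 0 := by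
    intro h0
    apply hne
    ext e
    have h1 := hcoef e
    rw [h0, coeff_zero] at h1
    by_cases h2 : e ∈ F <;> by_cases h3 : e ∈ F'
    · exact ⟨fun _ => h3, fun _ => h2⟩
    · rw [if_pos h2, if_neg h3] at h1
      have : (0 : ℝ) < 1 / F.card := one_div_pos.2 hc
      linarith
    · rw [if_neg h2, if_pos h3] at h1
      have : (0 : ℝ) < 1 / F'.card := one_div_pos.2 hc'
      linarith
    · exact ⟨fun h => absurd h h2, fun h => absurd h h3⟩
  refine (Polynomial.finite_setOfPred_isRoot hp).subset ?_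
  intro t ht
  have h1 : ∀ H : Finset (V × V), edgeMean (fun y z => f y z + t ^ (k (y, z) + 1)) H =
      edgeMean f H + 1 / (H.card : ℝ) * ∑ e ∈ H, t ^ (k e + 1) := by
    intro H
    unfold edgeMean
    rw [Finset.sum_add_distrib]
    simp only [Prod.mk.eta]
    ring
  have ht' : edgeMean (fun y z => f y z + t ^ (k (y, z) + 1)) F =
      edgeMean (fun y z => f y z + t ^ (k (y, z) + 1)) F' := ht
  rw [h1, h1] at ht'
  show p.eval t = 0
  simp only [p, eval_add, eval_sub, eval_mul, eval_C, eval_finsetSum, eval_pow, eval_X]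
  linarith

/-- **generic perturbation** -/
theorem exists_generic [Finite V] [Finite P] (r : P → V → V → ℝ) {ε : ℝ} (hε : 0 < ε) :
    ∃ r' : P → V → V → ℝ, (∀ i y z, |r i y z - r' i y z| ≤ ε) ∧ GEN r' := by
  classical
  obtain ⟨n, ⟨e⟩⟩ := Finite.exists_equiv_fin (V × V)
  let k : V × V → ℕ := fun x => (e x : ℕ)
  have hk : Function.Injective k := fun x y h => e.injective (Fin.ext h)
  have hfin : (⋃ q : P × Finset (V × V) × Finset (V × V),
      {t : ℝ | q.2.1.Nonempty ∧ q.2.2.Nonempty ∧ q.2.1 ≠ q.2.2 ∧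
        edgeMean (fun y z => r q.1 y z + t ^ (k (y, z) + 1)) q.2.1 =
        edgeMean (fun y z => r q.1 y z + t ^ (k (y, z) + 1)) q.2.2}).Finite := by
    refine Set.finite_iUnion fun q => ?_
    by_cases h : q.2.1.Nonempty ∧ q.2.2.Nonempty ∧ q.2.1 ≠ q.2.2
    · exact (finite_bad (r q.1) k hk q.2.1 q.2.2 h.1 h.2.1 h.2.2).subset
        (fun t ht => ht.2.2.2)
    · refine Set.Finite.subset Set.finite_empty fun t ht => ?_
      exact absurd ⟨ht.1, ht.2.1, ht.2.2.1⟩ h
  obtain ⟨t, ht, ht2⟩ := (Set.Ioo_infinite (show (0 : ℝ) < min 1 ε by positivity)).exists_notMem_finite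
    hfin
  have ht0 : 0 < t := ht.1
  have ht1 : t < 1 := ht.2.trans_le (min_le_left _ _)
  have htε : t < ε := ht.2.trans_le (min_le_right _ _)
  refine ⟨fun i y z => r i y z + t ^ (k (y, z) + 1), fun i y z => ?_, ?_⟩
  · have h1 : r i y z - (r i y z + t ^ (k (y, z) + 1)) = -(t ^ (k (y, z) + 1)) := by ring
    rw [h1, abs_neg, abs_of_pos (pow_pos ht0 _)]
    have h2 : t ^ (k (y, z) + 1) ≤ t := by
      calc t ^ (k (y, z) + 1) ≤ t ^ 1 := pow_le_pow_of_le_one ht0.le ht1.le (by omega)
        _ = t := pow_one t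
    linarith
  · intro i F F' hF hF' heq
    by_contra hne
    exact ht2 (Set.mem_iUnion.2 ⟨(i, F, F'), hF, hF', hne, heq⟩)

end SPE
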