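import Pool.Agent.SPE.Sys
import Pool.Agent.SPE.Gen

/-!
# The outcome system of a graph with generic rewards: simple cycles (MP_061e18_lc)

A simple cycle is represented by the finite set of its edges.
-/

namespace SPE

open Pool.Agent.SPE Finset

variable {V P : Type}

/-- `F` is the set of edges of the closed walk `c` of length `m`, which has no repetition -/
structure IsCyc (A : V → V → Prop) (F : Finset (V × V)) (m : ℕ) (c : ℕ → V) : Prop where
  pos : 0 < m
  per : ∀ k, c (k + m) = c k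
  inj : Set.InjOn c (Set.Iio m)
  adj : ∀ k, A (c k) (c (k + 1))
  mem : ∀ e, e ∈ F ↔ ∃ k < m, e = (c k, c (k + 1))

section
variable {A : V → V → Prop} {F : Finset (V × V)} {m : ℕ} {c : ℕ → V}

theorem IsCyc.per_mul (h : IsCyc A F m c) (k n : ℕ) : c (k + m * n) = c k := by
  induction n with
  | zero => simp
  | succ n ih => rw [Nat.mul_succ, ← Nat.add_assoc, h.per, ih]

theorem IsCyc.mod (h : IsCyc A F m c) (k : ℕ) : c (k % m) = c k := by
  conv_rhs => rw [← Nat.mod_add_div k m]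
  rw [h.per_mul]

theorem IsCyc.mod_succ (h : IsCyc A F m c) (k : ℕ) : c (k % m + 1) = c (k + 1) := by
  have h1 : k + 1 = k % m + 1 + m * (k / m) := by
    have := Nat.mod_add_div k m
    omega
  rw [h1, h.per_mul]

theorem IsCyc.mem_all (h : IsCyc A F m c) (k : ℕ) : (c k, c (k + 1)) ∈ F :=
  (h.mem _).2 ⟨k % m, Nat.mod_lt _ h.pos, by rw [h.mod, h.mod_succ]⟩

theorem IsCyc.uniq (h : IsCyc A F m c) {y z z' : V} (h1 : (y, z) ∈ F) (h2 : (y, z') ∈ F) :
    z = z' := by
  obtain ⟨k, hk, hk'⟩ := (h.mem _).1 h1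
  obtain ⟨l, hl, hl'⟩ := (h.mem _).1 h2
  have h3 : c k = c l := by
    rw [← (Prod.mk.inj hk').1, ← (Prod.mk.inj hl').1]
  have h4 : k = l := h.inj hk hl h3
  rw [(Prod.mk.inj hk').2, (Prod.mk.inj hl').2, h4]

theorem IsCyc.on_iff (h : IsCyc A F m c) {y : V} : (∃ z, (y, z) ∈ F) ↔ ∃ k < m, y = c k := by
  constructor
  · rintro ⟨z, hz⟩
    obtain ⟨k, hk, hk'⟩ := (h.mem _).1 hz
    exact ⟨k, hk, (Prod.mk.inj hk').1⟩
  · rintro ⟨k, _, rfl⟩
    exact ⟨_, h.mem_all k⟩

theorem IsCyc.sum_eq (h : IsCyc A F m c) (f : V → V → ℝ) :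
    ∑ e ∈ F, f e.1 e.2 = ∑ k ∈ range m, f (c k) (c (k + 1)) := by
  classical
  have h1 : F = (range m).image (fun k => (c k, c (k + 1))) := by
    ext e
    rw [h.mem, Finset.mem_image]
    constructor
    · rintro ⟨k, hk, rfl⟩
      exact ⟨k, Finset.mem_range.2 hk, rfl⟩
    · rintro ⟨k, hk, rfl⟩
      exact ⟨k, Finset.mem_range.1 hk, rfl⟩
  have h2 : Set.InjOn (fun k => (c k, c (k + 1))) (range m : Set ℕ) := by
    intro k hk l hl hkl
    exact h.inj (Finset.mem_range.1 hk) (Finset.mem_range.1 hl) (Prod.mk.inj hkl).1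
  rw [h1, Finset.sum_image h2]

theorem IsCyc.card (h : IsCyc A F m c) : F.card = m := by
  have h1 := h.sum_eq (fun _ _ => 1)
  simp only [Finset.sum_const, Finset.card_range, nsmul_eq_mul, mul_one] at h1
  exact_mod_cast h1

theorem IsCyc.nonempty (h : IsCyc A F m c) : F.Nonempty := ⟨_, h.mem_all 0⟩

theorem IsCyc.sum_sub (h : IsCyc A F m c) (f : V → V → ℝ) :
    ∑ k ∈ range m, (f (c k) (c (k + 1)) - edgeMean f F) = 0 := by
  have hm : (m : ℝ) ≠ 0 := by exact_mod_cast h.pos.ne'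
  rw [Finset.sum_sub_distrib, Finset.sum_const, Finset.card_range, nsmul_eq_mul]
  unfold edgeMean
  rw [h.card, ← h.sum_eq f]
  field_simp
  ring

end

/-- in a finite set every vertex of which has a successor there is a simple cycle -/
theorem exists_isCyc [Finite V] {B : V → V → Prop} {Y : Set V} (hY : Y.Nonempty)
    (h : ∀ y ∈ Y, ∃ z ∈ Y, B y z) :
    ∃ F m c, IsCyc (fun y z => B y z ∧ y ∈ Y) F m c := by
  classical
  obtain ⟨y0, hy0⟩ := hY
  have hf : ∃ f : V → V, ∀ y ∈ Y, f y ∈ Y ∧ B y (f y) := by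
    refine ⟨fun y => if hy : y ∈ Y then (h y hy).choose else y, fun y hy => ?_⟩
    simp only [dif_pos hy]
    exact (h y hy).choose_spec
  obtain ⟨f, hf⟩ := hf
  have hit : ∀ y ∈ Y, ∀ k, f^[k] y ∈ Y := by
    intro y hy k
    induction k with
    | zero => exact hy
    | succ k ih => rw [Function.iterate_succ_apply']; exact (hf _ ih).1
  obtain ⟨i, j, hij, hne⟩ : ∃ i j, f^[i] y0 = f^[j] y0 ∧ i < j := by
    obtain ⟨i, j, hij, h1⟩ := Finite.exists_ne_map_eq_of_infinite (fun k : ℕ => f^[k] y0)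
    rcases lt_or_gt_of_ne hij with h2 | h2
    · exact ⟨i, j, h1, h2⟩
    · exact ⟨j, i, h1.symm, h2⟩
  obtain ⟨x, hx⟩ : ∃ x, x = f^[i] y0 := ⟨_, rfl⟩
  have hxY : x ∈ Y := hx ▸ hit y0 hy0 i
  have hper : x ∈ Function.periodicPts f := by
    refine ⟨j - i, by omega, ?_⟩
    show f^[j - i] x = x
    rw [hx, ← Function.iterate_add_apply, show j - i + i = j by omega, hij]
  have hpos : 0 < Function.minimalPeriod f x := Function.minimalPeriod_pos_of_mem_periodicPts hper
  have hmin : f^[Function.minimalPeriod f x] x = x := Function.isPeriodicPt_minimalPeriod f x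
  refine ⟨(range (Function.minimalPeriod f x)).image (fun k => (f^[k] x, f^[k + 1] x)),
    Function.minimalPeriod f x, fun k => f^[k] x, hpos, ?_, ?_, ?_, ?_⟩
  · intro k
    show f^[k + Function.minimalPeriod f x] x = f^[k] x
    rw [Function.iterate_add_apply, hmin]
  · exact Function.iterate_injOn_Iio_minimalPeriod
  · intro k
    show B (f^[k] x) (f^[k + 1] x) ∧ f^[k] x ∈ Y
    rw [Function.iterate_succ_apply']
    exact ⟨(hf _ (hit x hxY k)).2, hit x hxY k⟩
  · intro e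
    rw [Finset.mem_image]
    constructor
    · rintro ⟨k, hk, rfl⟩
      exact ⟨k, Finset.mem_range.1 hk, rfl⟩
    · rintro ⟨k, hk, rfl⟩
      exact ⟨k, Finset.mem_range.2 hk, rfl⟩

open Classical in
/-- the next vertex on a cycle -/
noncomputable def nextOn (F : Finset (V × V)) (y : V) : V :=
  if h : ∃ z, (y, z) ∈ F then h.choose else y

theorem nextOn_mem {F : Finset (V × V)} {y : V} (h : ∃ z, (y, z) ∈ F) :
    (y, nextOn F y) ∈ F := by
  unfold nextOn
  rw [dif_pos h]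
  exact h.choose_spec

theorem IsCyc.nextOn_eq {A : V → V → Prop} {F : Finset (V × V)} {m : ℕ} {c : ℕ → V}
    (h : IsCyc A F m c) (k : ℕ) : nextOn F (c k) = c (k + 1) :=
  h.uniq (nextOn_mem ⟨_, h.mem_all k⟩) (h.mem_all k)

/-- potential of the cycle -/
theorem IsCyc.exists_pot {A : V → V → Prop} {F : Finset (V × V)} {m : ℕ} {c : ℕ → V}
    (h : IsCyc A F m c) (f : V → V → ℝ) :
    ∃ ψ : V → ℝ, ∀ y, (∃ z, (y, z) ∈ F) → f y (nextOn F y) - edgeMean f F + ψ (nextOn F y) = ψ y := by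
  classical
  let S : ℕ → ℝ := fun k => ∑ j ∈ range k, (f (c j) (c (j + 1)) - edgeMean f F)
  let idx : V → ℕ := fun y => if h : ∃ k < m, y = c k then h.choose else 0
  have hidx : ∀ k < m, idx (c k) = k := by
    intro k hk
    have hex : ∃ l < m, c k = c l := ⟨k, hk, rfl⟩
    have h1 : idx (c k) = hex.choose := dif_pos hex
    rw [h1]
    exact (h.inj hk hex.choose_spec.1 hex.choose_spec.2).symm
  have hS : ∀ k, S (k + 1) = S k + (f (c k) (c (k + 1)) - edgeMean f F) := fun k =>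
    Finset.sum_range_succ _ _
  have hSm : S m = 0 := h.sum_sub f
  have hS0 : S 0 = 0 := Finset.sum_range_zero _
  refine ⟨fun y => - S (idx y), fun y hy => ?_⟩
  obtain ⟨k, hk, rfl⟩ := h.on_iff.1 hy
  rw [h.nextOn_eq]
  show f (c k) (c (k + 1)) - edgeMean f F + - S (idx (c (k + 1))) = - S (idx (c k))
  rw [hidx k hk]
  rcases Nat.lt_or_eq_of_le (show k + 1 ≤ m from hk) with h1 | h1
  · rw [hidx (k + 1) h1, hS]
    ring
  · have h2 : c (k + 1) = c 0 := by
      have := h.per 0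
      rw [Nat.zero_add] at this
      rw [h1, this]
    have h3 := hS k
    rw [h1, hSm] at h3
    rw [h2, hidx 0 h.pos, hS0, ← h2]
    rw [← h1] at h3
    linarith

/-- **the outcome system of generic rewards** -/
noncomputable def outSys [Finite V] (G : Arena V P) (r : P → V → V → ℝ) (hr : GEN r) :
    OutSys G r where
  Om := {F : Finset (V × V) // ∃ m c, IsCyc G.adj F m c}
  finO := by
    classical
    obtain ⟨_⟩ := nonempty_fintype V
    infer_instance
  u i C := edgeMean (r i) C.1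
  inj i C C' h := by
    obtain ⟨m, c, hc⟩ := C.2
    obtain ⟨m', c', hc'⟩ := C'.2
    exact Subtype.ext (hr i _ _ hc.nonempty hc'.nonempty h)
  cyc C := {y | ∃ z, (y, z) ∈ C.1}
  nx C := nextOn C.1
  cyc_ne C := by
    obtain ⟨m, c, hc⟩ := C.2
    exact ⟨c 0, _, hc.mem_all 0⟩
  nx_adj C y hy := by
    obtain ⟨m, c, hc⟩ := C.2
    obtain ⟨k, hk, rfl⟩ := hc.on_iff.1 hy
    rw [hc.nextOn_eq]
    exact hc.adj k
  nx_mem C y hy := by
    obtain ⟨m, c, hc⟩ := C.2
    obtain ⟨k, hk, rfl⟩ := hc.on_iff.1 hy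
    rw [hc.nextOn_eq]
    exact ⟨_, hc.mem_all (k + 1)⟩
  exists_sub Y B hY hB h := by
    obtain ⟨F, m, c, hc⟩ := exists_isCyc hY h
    have hc' : IsCyc G.adj F m c :=
      ⟨hc.pos, hc.per, hc.inj, fun k => hB _ _ (hc.adj k).1, hc.mem⟩
    refine ⟨⟨F, m, c, hc'⟩, ?_, ?_⟩
    · intro y hy
      obtain ⟨k, hk, rfl⟩ := hc.on_iff.1 hy
      exact (hc.adj k).2
    · intro y hy
      obtain ⟨k, hk, rfl⟩ := hc.on_iff.1 hy
      show B (c k) (nextOn F (c k))
      rw [hc.nextOn_eq]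
      exact (hc.adj k).1
  pot i C := by
    obtain ⟨m, c, hc⟩ := C.2
    obtain ⟨ψ, hψ⟩ := hc.exists_pot (r i)
    exact ⟨ψ, fun y hy => hψ y hy⟩
  lt_of_pos i C c0 B hB h := by
    obtain ⟨m, c, hc⟩ := C.2
    have h1 := hB m c hc.pos (fun k _ => by
      have := h (c k) ⟨_, hc.mem_all k⟩
      rwa [hc.nextOn_eq] at this) (by
      have := hc.per 0
      rwa [Nat.zero_add] at this)
    have h2 := hc.sum_sub (r i)
    rw [Finset.sum_sub_distrib, Finset.sum_const, Finset.card_range, nsmul_eq_mul] at h1 h2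
    have hm : (0 : ℝ) < m := by exact_mod_cast hc.pos
    have h3 : (m : ℝ) * c0 < m * edgeMean (r i) C.1 := by linarith
    exact lt_of_mul_lt_mul_left h3 hm.le

end SPE
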