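import Pool.Agent.SPE.Region

/-!
# Averages along the positional plans (MP_061e18_lc)
-/

namespace SPE

open Pool.Agent.SPE Filter

variable {V P : Type} {G : Arena V P} {r : P → V → V → ℝ} {O : OutSys G r}
  {a : V → WithBot ℝ} {C : O.Om}

theorem plan_iter_via {nxt : V → V} {d : V → ℕ}
    (h : ∀ y, Via O a C y → G.adj y (nxt y) ∧ Via O a C (nxt y) ∧
      ((y ∈ O.cyc C ∧ nxt y = O.nx C y) ∨ (y ∉ O.cyc C ∧ d (nxt y) < d y)))
    {y : V} (hy : Via O a C y) (k : ℕ) : Via O a C (nxt^[k] y) := by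
  induction k with
  | zero => exact hy
  | succ k ih =>
    rw [Function.iterate_succ_apply']
    exact (h _ ih).2.1

/-- partial sums along a plan are bounded -/
theorem plan_bdd [Finite V] {nxt : V → V} {d : V → ℕ}
    (h : ∀ y, Via O a C y → G.adj y (nxt y) ∧ Via O a C (nxt y) ∧
      ((y ∈ O.cyc C ∧ nxt y = O.nx C y) ∨ (y ∉ O.cyc C ∧ d (nxt y) < d y))) (i : P) :
    ∃ K : ℝ, ∀ y, Via O a C y → ∀ n : ℕ,
      |∑ k ∈ Finset.range n, (r i (nxt^[k] y) (nxt^[k + 1] y) - O.u i C)| ≤ K := by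
  obtain ⟨ψ, hψ⟩ := plan_pot h i
  obtain ⟨χ, hχ⟩ := plan_pot' h i
  have hb : ∀ f : V → ℝ, ∃ K : ℝ, ∀ y z, f y - f z ≤ K := by
    intro f
    obtain ⟨K, hK⟩ := (Set.finite_range fun q : V × V => f q.1 - f q.2).bddAbove
    exact ⟨K, fun y z => hK ⟨(y, z), rfl⟩⟩
  obtain ⟨K1, hK1⟩ := hb ψ
  obtain ⟨K2, hK2⟩ := hb χ
  refine ⟨max K1 K2, fun y hy n => ?_⟩
  have hu : ∀ n : ℕ, ∑ k ∈ Finset.range n, (r i (nxt^[k] y) (nxt^[k + 1] y) - O.u i C)
      + ψ (nxt^[n] y) ≤ ψ y := by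
    intro n
    induction n with
    | zero => simp
    | succ n ih =>
      rw [Finset.sum_range_succ]
      have h1 := hψ _ (plan_iter_via h hy n)
      rw [← Function.iterate_succ_apply' nxt n y] at h1
      linarith
  have hl : ∀ n : ℕ, χ (nxt^[n] y) - ∑ k ∈ Finset.range n,
      (r i (nxt^[k] y) (nxt^[k + 1] y) - O.u i C) ≤ χ y := by
    intro n
    induction n with
    | zero => simp
    | succ n ih =>
      rw [Finset.sum_range_succ]
      have h1 := hχ _ (plan_iter_via h hy n)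
      rw [← Function.iterate_succ_apply' nxt n y] at h1
      linarith
  rw [abs_le]
  have h1 := hu n
  have h2 := hl n
  have h3 := hK1 y (nxt^[n] y)
  have h4 := hK2 (nxt^[n] y) y
  have h4' := hK2 y (nxt^[n] y)
  have h5 := le_max_left K1 K2
  have h6 := le_max_right K1 K2
  constructor <;> linarith

/-- the averages along a plan tend to the payoff of the outcome -/
theorem plan_lim [Finite V] {nxt : V → V} {d : V → ℕ}
    (h : ∀ y, Via O a C y → G.adj y (nxt y) ∧ Via O a C (nxt y) ∧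
      ((y ∈ O.cyc C ∧ nxt y = O.nx C y) ∨ (y ∉ O.cyc C ∧ d (nxt y) < d y))) (i : P)
    {y : V} (hy : Via O a C y) : Tendsto (fun n : ℕ =>
      (∑ k ∈ Finset.range n, r i (nxt^[k] y) (nxt^[k + 1] y)) / (n : ℝ)) atTop
      (nhds (O.u i C)) := by
  obtain ⟨K, hK⟩ := plan_bdd h i
  have h1 : Tendsto (fun n : ℕ => (∑ k ∈ Finset.range n,
      (r i (nxt^[k] y) (nxt^[k + 1] y) - O.u i C)) / (n : ℝ)) atTop (nhds 0) := by
    have h2 : Tendsto (fun n : ℕ => K / (n : ℝ)) atTop (nhds 0) :=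
      tendsto_const_div_atTop_nhds_zero_nat K
    refine squeeze_zero_norm (fun n => ?_) h2
    rw [norm_div, Real.norm_eq_abs, Real.norm_natCast]
    exact div_le_div_of_nonneg_right (hK y hy n) (Nat.cast_nonneg n)
  have h3 := h1.add_const (O.u i C)
  rw [zero_add] at h3
  refine h3.congr' ?_
  filter_upwards [eventually_gt_atTop 0] with n hn
  have hn' : (n : ℝ) ≠ 0 := by exact_mod_cast hn.ne'
  rw [Finset.sum_sub_distrib]
  simp only [Finset.sum_const, Finset.card_range, nsmul_eq_mul]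
  field_simp
  ring

end SPE
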