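import Pool.Agent.SPE.ThmP
import Pool.Agent.SPE.Plan
import Pool.Agent.SPE.OutC

/-!
# The fixpoint and the blueprint (MP_061e18_lc)

Reachable bounds of maximal rank: no event has an effect any more. All vertices are viable (`viable_all`), which gives the blueprint.
-/

namespace SPE

open Pool.Agent.SPE

variable {V P : Type} {G : Arena V P} {r : P → V → V → ℝ}

/-- rank of the bounds -/
noncomputable def rk [Fintype V] (O : OutSys G r) (a : V → WithBot ℝ) : ℕ :=
  ∑ x : V, Set.ncard {C : O.Om | (O.u (G.owner x) C : WithBot ℝ) ≤ a x}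

theorem rk_le [Fintype V] (O : OutSys G r) (a : V → WithBot ℝ) :
    rk O a ≤ Fintype.card V * Nat.card O.Om := by
  have := O.finO
  unfold rk
  calc ∑ x : V, Set.ncard {C : O.Om | (O.u (G.owner x) C : WithBot ℝ) ≤ a x}
      ≤ ∑ _x : V, Nat.card O.Om := Finset.sum_le_sum fun x _ => by
        rw [← Set.ncard_univ]
        exact Set.ncard_le_ncard (Set.subset_univ _) (Set.toFinite _)
    _ = Fintype.card V * Nat.card O.Om := by
        rw [Finset.sum_const, smul_eq_mul, Finset.card_univ]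

/-- reachable bounds at which no event has an effect -/
theorem exists_fix [Finite V] (O : OutSys G r) : ∃ (a : V → WithBot ℝ) (Ev : V → V → Prop),
    Reach O a Ev ∧ ∀ i C, ∀ x ∈ XX O a i C, (O.u i C : WithBot ℝ) ≤ a x := by
  classical
  have := Fintype.ofFinite V
  have := O.finO
  by_contra hc
  push Not at hc
  have hstep : ∀ a Ev, Reach O a Ev → ∃ a' Ev', Reach O a' Ev' ∧ rk O a < rk O a' := by
    intro a Ev h
    obtain ⟨i, C0, x0, hx0, hlt0⟩ := hc a Ev h
    obtain ⟨C, ⟨x, hx, hlt⟩, hmin⟩ := Set.exists_min_image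
      {C : O.Om | ∃ x ∈ XX O a i C, a x < (O.u i C : WithBot ℝ)} (O.u i) (Set.toFinite _)
      ⟨C0, x0, hx0, hlt0⟩
    have hleg : Legal O a i C := by
      intro F hF y hy
      by_contra h1
      exact absurd (hmin F ⟨y, hy, not_le.1 h1⟩) (not_le.2 hF)
    refine ⟨_, _, Reach.step a Ev i C h hleg, ?_⟩
    unfold rk
    refine Finset.sum_lt_sum (fun y _ => ?_) ⟨x, Finset.mem_univ x, ?_⟩
    · exact Set.ncard_le_ncard (fun F hF => le_trans hF (le_upd y)) (Set.toFinite _)
    · refine Set.ncard_lt_ncard ⟨fun F hF => le_trans hF (le_upd x), fun hsub => ?_⟩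
        (Set.toFinite _)
      have h1 : C ∈ {F : O.Om | (O.u (G.owner x) F : WithBot ℝ) ≤ upd O a i C x} := by
        show (O.u (G.owner x) C : WithBot ℝ) ≤ upd O a i C x
        rw [upd_of_mem hx, hx.1]
        exact le_max_right _ _
      have h2 : (O.u (G.owner x) C : WithBot ℝ) ≤ a x := hsub h1
      rw [hx.1] at h2
      exact absurd hlt (not_lt.2 h2)
  have hn : ∀ n : ℕ, ∃ a Ev, Reach O a Ev ∧ n ≤ rk O a := by
    intro n
    induction n with
    | zero => exact ⟨_, _, Reach.base, Nat.zero_le _⟩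
    | succ n ih =>
      obtain ⟨a, Ev, h1, h2⟩ := ih
      obtain ⟨a', Ev', h3, h4⟩ := hstep a Ev h1
      exact ⟨a', Ev', h3, by omega⟩
  obtain ⟨a, Ev, -, h⟩ := hn (Fintype.card V * Nat.card O.Om + 1)
  have := rk_le O a
  omega

/-- move in a region -/
theorem exists_mv [Finite V] {O : OutSys G r} {a : V → WithBot ℝ} {i : P} {C : O.Om}
    {φ : V → ℝ} (hφ : Region O a i C (Win O a i C) φ) (y : V) :
    ∃ z, y ∈ Win O a i C → ¬ (G.owner y ≠ i ∧ Leak O a i C y) →
      G.adj y z ∧ z ∈ Win O a i C ∧ r i y z - O.u i C + φ z ≤ φ y := by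
  by_cases hy : y ∈ Win O a i C
  swap
  · exact ⟨y, fun h => absurd h hy⟩
  rcases (hφ y hy).2 with ⟨h1, h2 | ⟨z, h2, h3 | ⟨h3, h4⟩⟩⟩ | ⟨h1, ⟨z, h2, h3 | ⟨h3, h4⟩⟩, -⟩
  · exact ⟨y, fun _ h => absurd ⟨h1, h2⟩ h⟩
  · exact absurd h3 (Set.notMem_empty _)
  · exact ⟨z, fun _ _ => ⟨h2, h3, h4⟩⟩
  · exact absurd h3 (Set.notMem_empty _)
  · exact ⟨z, fun _ _ => ⟨h2, h3, h4⟩⟩

/-- data of a leak -/
theorem exists_lk {O : OutSys G r} {a : V → WithBot ℝ} {i : P} {C : O.Om} (y : V) :
    ∃ q : V × V × O.Om, G.owner y ≠ i ∧ Leak O a i C y →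
      G.owner y ≠ i ∧ G.adj y q.1 ∧ G.adj y q.2.1 ∧ q.1 ≠ q.2.1 ∧
      Via O a q.2.2 q.1 ∧ Via O a C q.2.1 ∧ O.u i q.2.2 < O.u i C ∧
      O.u (G.owner y) q.2.2 ≤ O.u (G.owner y) C := by
  by_cases h : G.owner y ≠ i ∧ Leak O a i C y
  · obtain ⟨z', z1, F, h1, h2, h3, h4, h5, h6, h7⟩ := id h.2
    exact ⟨(z', z1, F), fun _ => ⟨h.1, h1, h2, h3, h4, h5, h6, h7.le⟩⟩
  · exact ⟨(y, y, C), fun h' => absurd h' h⟩

/-- the blueprint of an outcome system -/
theorem exists_blueprint_of_outSys [Finite V] (O : OutSys G r) : Nonempty (Blueprint G r) := by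
  classical
  have := O.finO
  obtain ⟨a, Ev, hR, hfix⟩ := exists_fix O
  have hvia := viable_all hR
  have hbase : ∀ y, ∃ C, Via O a C y ∧ ∀ F, Via O a F y →
      O.u (G.owner y) C ≤ O.u (G.owner y) F := by
    intro y
    obtain ⟨C, h1, h2⟩ := Set.exists_min_image {C : O.Om | Via O a C y} (O.u (G.owner y))
      (Set.toFinite _) (hvia y)
    exact ⟨C, h1, h2⟩
  choose base hb1 hb2 using hbase
  choose nxt d hplan using fun C => exists_plan O a C
  choose pot hpot using fun i C => win_region (O := O) a i C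
  choose mv hmv using fun i C => exists_mv (hpot i C)
  choose lk hlk using fun (i : P) (C : O.Om) => exists_lk (O := O) (a := a) (i := i) (C := C)
  exact ⟨{
    O := O.Om
    finO := O.finO
    u := O.u
    via := fun C => {y | Via O a C y}
    nxt := nxt
    nxt_adj := fun C y hy => (hplan C y hy).1
    nxt_via := fun C y hy => (hplan C y hy).2.1
    nxt_lim := fun i C y hy => plan_lim (hplan C) i hy
    base := base
    base_via := hb1
    base_le := hb2
    win := fun i C => Win O a i C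
    pot := pot
    leak := fun i C => {y | G.owner y ≠ i ∧ Leak O a i C y}
    mv := mv
    lz := fun i C y => (lk i C y).1
    lc := fun i C y => (lk i C y).2.1
    lG := fun i C y => (lk i C y).2.2
    win_via := fun i C y hy => win_via' hy
    leak_spec := fun i C y _ hy => hlk i C y hy
    mv_spec := fun i C y hy hl => hmv i C y hy hl
    own_spec := fun i C y z hy ho hz => by
      rcases (hpot i C y hy).2 with ⟨h1, -⟩ | ⟨-, -, h2⟩
      · exact absurd ho h1
      · rcases h2 z hz with h3 | h3 | h3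
        · exact Or.inl h3
        · exact absurd h3 (Set.notMem_empty _)
        · exact Or.inr h3
    ok := fun y z hz => by
      have hX : y ∉ XX O a (G.owner y) (base y) := fun h =>
        absurd ((hfix _ _ y h).trans_lt (hb1 y).lt) (lt_irrefl _)
      exact low_or_win_of_notMem rfl hX hz }⟩

/-- **the combinatorial half**: generic rewards have a blueprint -/
theorem exists_blueprint [Finite V] (G : Arena V P) (r : P → V → V → ℝ) (hr : GEN r) :
    Nonempty (Blueprint G r) :=
  exists_blueprint_of_outSys (outSys G r hr)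

end SPE
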