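import Pool.Agent.SPE.Machine

/-!
# Averages along plays (MP_061e18_lc)
-/

open Filter Topology

namespace SPE

/-- average reward of the first `n` edges -/
noncomputable def avg {V : Type} (r : V → V → ℝ) (rho : ℕ → V) (n : ℕ) : ℝ :=
  (∑ k ∈ Finset.range n, r (rho k) (rho (k + 1))) / (n : ℝ)

theorem meanPayoff_eq {V : Type} (r : V → V → ℝ) (rho : ℕ → V) :
    meanPayoff r rho = liminf (avg r rho) atTop := rfl

section
variable {V : Type} {r : V → V → ℝ} {M : ℝ}

theorem abs_sum_le (hM : ∀ y z, |r y z| ≤ M) (rho : ℕ → V) (n : ℕ) :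
    |∑ k ∈ Finset.range n, r (rho k) (rho (k + 1))| ≤ n * M := by
  refine (Finset.abs_sum_le_sum_abs _ _).trans ?_
  refine (Finset.sum_le_sum (fun k _ => hM (rho k) (rho (k + 1)))).trans ?_
  simp

theorem abs_avg_le2 (h0 : 0 ≤ M) (hM : ∀ y z, |r y z| ≤ M) (rho : ℕ → V) (n : ℕ) :
    |avg r rho n| ≤ M := by
  unfold avg
  rcases Nat.eq_zero_or_pos n with hn | hn
  · subst hn; simpa using h0
  · have hn' : (0 : ℝ) < n := Nat.cast_pos.2 hn
    rw [abs_div, abs_of_pos hn', div_le_iff₀ hn', mul_comm]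
    exact abs_sum_le hM rho n

theorem meanPayoff_le_of_freq (h0 : 0 ≤ M) (hM : ∀ y z, |r y z| ≤ M) (rho : ℕ → V) (φ : ℝ)
    (h : ∀ η > 0, ∃ᶠ n in atTop, avg r rho n ≤ φ + η) : meanPayoff r rho ≤ φ := by
  refine le_of_forall_pos_le_add (fun η hη => ?_)
  rw [meanPayoff_eq]
  refine liminf_le_of_frequently_le (h η hη) ?_
  exact ⟨-M, by
    rw [eventually_map]
    exact Eventually.of_forall (fun n => (abs_le.1 (abs_avg_le2 h0 hM rho n)).1)⟩

end

variable {V P : Type} {G : Arena V P} {r : P → V → V → ℝ} (B : Blueprint G r)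

theorem tendsto_avg_of_follow (C : B.O) (rho : ℕ → V) (N : ℕ)
    (h : ∀ n, N ≤ n → rho (n + 1) = B.nxt C (rho n)) (hv : rho N ∈ B.via C) (i : P) :
    Tendsto (avg (r i) rho) atTop (𝓝 (B.u i C)) := by
  have hit : ∀ k, rho (N + k) = (B.nxt C)^[k] (rho N) := by
    intro k
    induction k with
    | zero => rfl
    | succ k ih =>
      rw [← add_assoc, h (N + k) (Nat.le_add_right _ _), ih, Function.iterate_succ_apply']
  rw [← tendsto_add_atTop_iff_nat N]
  have h1 := B.nxt_lim i C (rho N) hv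
  have h2 : Tendsto (fun m : ℕ => (m : ℝ) / (m + (N : ℝ))) atTop (𝓝 1) :=
    tendsto_natCast_div_add_atTop (N : ℝ)
  have h3 : Tendsto (fun m : ℕ => (∑ k ∈ Finset.range N, r i (rho k) (rho (k + 1))) /
      ((m : ℝ) + (N : ℝ))) atTop (𝓝 0) := by
    apply Tendsto.div_atTop tendsto_const_nhds
    exact tendsto_atTop_add_const_right _ _ tendsto_natCast_atTop_atTop
  have h4 := (h1.mul h2).add h3
  rw [mul_one, add_zero] at h4
  refine h4.congr' ?_
  filter_upwards [eventually_gt_atTop 0] with m hm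
  have hm' : (m : ℝ) ≠ 0 := Nat.cast_ne_zero.2 hm.ne'
  unfold avg
  have hsum : ∑ k ∈ Finset.range (m + N), r i (rho k) (rho (k + 1)) =
      ∑ k ∈ Finset.range N, r i (rho k) (rho (k + 1)) +
      ∑ k ∈ Finset.range m, r i ((B.nxt C)^[k] (rho N)) ((B.nxt C)^[k + 1] (rho N)) := by
    rw [add_comm m N, Finset.sum_range_add]
    congr 1
    refine Finset.sum_congr rfl (fun k _ => ?_)
    rw [← hit k, ← hit (k + 1), add_assoc]
  rw [hsum]
  have h5 : ((m : ℝ) + N) ≠ 0 := by positivity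
  push_cast
  field_simp
  ring

theorem meanPayoff_of_follow (C : B.O) (rho : ℕ → V) (N : ℕ)
    (h : ∀ n, N ≤ n → rho (n + 1) = B.nxt C (rho n)) (hv : rho N ∈ B.via C) (i : P) :
    meanPayoff (r i) rho = B.u i C :=
  (tendsto_avg_of_follow B C rho N h hv i).liminf_eq

end SPE
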