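import Pool.Agent.SPE.Machine

/-!
# Classification of the transitions when only player `j` may deviate (MP_061e18_lc)
-/

open scoped Classical

namespace SPE

namespace Blueprint

variable {V P : Type} {G : Arena V P} {r : P → V → V → ℝ} (B : Blueprint G r)

/-- the six kinds of transitions; `n` is the new time -/
def Kind (j : P) (n : ℕ) (md : Mode P B.O) (y z : V) (md' : Mode P B.O) : Prop :=
  (∃ C, md = .follow C ∧ z = B.nxt C y ∧ md' = .follow C) ∨
  (G.owner y = j ∧ ∃ F, md' = .follow F ∧ B.u j F < B.u j md.com) ∨
  (G.owner y = j ∧ md' = .wander j (B.base y) (n ^ 2 + 1) ∧ B.u j (B.base y) ≤ B.u j md.com ∧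
    ∀ C d, md ≠ .wander j C d) ∨
  (∃ i C d, md = .wander i C d ∧ y ∈ B.leak i C ∧ z = B.lz i C y ∧ md' = .follow (B.lG i C y)) ∨
  (∃ i C d, md = .wander i C d ∧ y ∈ B.leak i C ∧ z = B.lc i C y ∧ md' = .follow C) ∨
  (∃ i C d, md = .wander i C d ∧ y ∉ B.leak i C ∧ md' = B.cont i C d n ∧ z ∈ B.win i C ∧
    r i y z - B.u i C + B.pot i C z ≤ B.pot i C y)

theorem kind_punish {n : ℕ} {md : Mode P B.O} {y z : V} (hv : y ∈ B.via md.com)
    (hw : ∀ C d, md ≠ .wander (G.owner y) C d) :
    B.Kind (G.owner y) n md y z (B.punish n y z) := by
  have hb := B.base_le y md.com hv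
  unfold punish
  split_ifs with h1
  · right; left
    exact ⟨rfl, _, rfl, lt_of_lt_of_le h1.choose_spec.2 hb⟩
  · right; right; left
    exact ⟨rfl, rfl, hb, hw⟩

theorem step_kind {j : P} {n : ℕ} {md : Mode P B.O} {y z : V} (hg : B.good n md y)
    (ha : G.adj y z) (ho : G.owner y ≠ j → B.supp md y z) :
    B.Kind j (n + 1) md y z (B.stepM (n + 1) md y z) := by
  cases md with
  | follow C =>
    show B.Kind j (n + 1) (.follow C) y z
      (if z = B.nxt C y then .follow C else B.punish (n + 1) y z)
    split_ifs with h1
    · exact Or.inl ⟨C, rfl, h1, rfl⟩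
    · have hj : G.owner y = j := by
        by_contra h
        exact h1 (ho h)
      subst hj
      exact B.kind_punish hg (fun C d h => by cases h)
  | wander i C d =>
    by_cases hl : y ∈ B.leak i C
    · by_cases hz : z = B.lz i C y
      · right; right; right; left
        refine ⟨i, C, d, rfl, hl, hz, ?_⟩
        simp only [stepM]
        rw [if_pos hl, if_pos hz]
      · by_cases hc : z = B.lc i C y
        · right; right; right; right; left
          refine ⟨i, C, d, rfl, hl, hc, ?_⟩
          simp only [stepM]
          rw [if_pos hl, if_neg hz, if_pos hc]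
        · have hj : G.owner y = j := by
            by_contra h
            rcases ho h with ⟨_, h2 | h2⟩ | ⟨h2, _⟩
            · exact hz h2
            · exact hc h2
            · exact h2 hl
          have hi := (B.leak_spec i C y hg.1 hl).1
          have he : B.stepM (n + 1) (.wander i C d) y z = B.punish (n + 1) y z := by
            simp only [stepM]
            rw [if_pos hl, if_neg hz, if_neg hc]
          rw [he]
          subst hj
          refine B.kind_punish (B.win_via i C y hg.1) (fun C' d' h => ?_)
          cases h
          exact hi rfl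
    · by_cases hz : z = B.mv i C y
      · right; right; right; right; right
        have hm := B.mv_spec i C y hg.1 hl
        refine ⟨i, C, d, rfl, hl, ?_, ?_, ?_⟩
        · simp only [stepM]
          rw [if_neg hl, if_pos hz]
        · rw [hz]; exact hm.2.1
        · rw [hz]; exact hm.2.2
      · have hj : G.owner y = j := by
          by_contra h
          rcases ho h with ⟨h2, _⟩ | ⟨_, h2⟩
          · exact hl h2
          · exact hz h2
        by_cases hi : G.owner y = i
        · by_cases hlow : B.low i (B.u i C) z
          · right; left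
            refine ⟨hj, hlow.choose, ?_, ?_⟩
            · simp only [stepM]
              rw [if_neg hl, if_neg hz, if_pos hi, dif_pos hlow]
            · have h2 := hlow.choose_spec.2
              have h3 : i = j := hi.symm.trans hj
              subst h3
              exact h2
          · right; right; right; right; right
            have hm := (B.own_spec i C y z hg.1 hi ha).resolve_left hlow
            refine ⟨i, C, d, rfl, hl, ?_, hm.1, hm.2⟩
            simp only [stepM]
            rw [if_neg hl, if_neg hz, if_pos hi, dif_neg hlow]
        · have he : B.stepM (n + 1) (.wander i C d) y z = B.punish (n + 1) y z := by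
            simp only [stepM]
            rw [if_neg hl, if_neg hz, if_neg hi]
          rw [he]
          subst hj
          refine B.kind_punish (B.win_via i C y hg.1) (fun C' d' h => ?_)
          cases h
          exact hi rfl

/-- the transitions when nobody deviates -/
def Kind0 (n : ℕ) (md : Mode P B.O) (y z : V) (md' : Mode P B.O) : Prop :=
  (∃ C, md = .follow C ∧ z = B.nxt C y ∧ md' = .follow C) ∨
  (∃ i C d, md = .wander i C d ∧ y ∈ B.leak i C ∧ z = B.lz i C y ∧ md' = .follow (B.lG i C y)) ∨
  (∃ i C d, md = .wander i C d ∧ y ∈ B.leak i C ∧ z = B.lc i C y ∧ md' = .follow C) ∨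
  (∃ i C d, md = .wander i C d ∧ y ∉ B.leak i C ∧ z = B.mv i C y ∧ md' = B.cont i C d n)

theorem step_kind0 {n : ℕ} {md : Mode P B.O} {y z : V} (hg : B.good n md y)
    (ho : B.supp md y z) : B.Kind0 (n + 1) md y z (B.stepM (n + 1) md y z) := by
  cases md with
  | follow C =>
    have h1 : z = B.nxt C y := ho
    refine Or.inl ⟨C, rfl, h1, ?_⟩
    show (if z = B.nxt C y then Mode.follow C else B.punish (n + 1) y z) = _
    rw [if_pos h1]
  | wander i C d =>
    rcases ho with ⟨hl, hz⟩ | ⟨hl, hz⟩
    · by_cases hz1 : z = B.lz i C y
      · right; left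
        refine ⟨i, C, d, rfl, hl, hz1, ?_⟩
        simp only [stepM]
        rw [if_pos hl, if_pos hz1]
      · have hc := hz.resolve_left hz1
        right; right; left
        refine ⟨i, C, d, rfl, hl, hc, ?_⟩
        simp only [stepM]
        rw [if_pos hl, if_neg hz1, if_pos hc]
    · right; right; right
      refine ⟨i, C, d, rfl, hl, hz, ?_⟩
      simp only [stepM]
      rw [if_neg hl, if_pos hz]

end Blueprint

end SPE
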