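import Pool.Agent.SPE.Strat

/-!
# A blueprint gives randomized eps-SPEs: choice of the parameters (MP_061e18_lc)
-/

open MeasureTheory ProbabilityTheory Filter Topology

namespace SPE

theorem exists_bound_of_finite {ι : Type*} [Finite ι] (f : ι → ℝ) : ∃ M, ∀ x, |f x| ≤ M := by
  obtain ⟨M, hM⟩ := (Set.finite_range (fun x => |f x|)).bddAbove
  exact ⟨M, fun x => hM ⟨x, rfl⟩⟩

theorem exists_gap_of_finite {ι : Type*} [Finite ι] (f : ι → ℝ) :
    ∃ e : ℝ, 0 < e ∧ ∀ x, 0 < f x → e ≤ f x := by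
  by_cases h : ∃ x, 0 < f x
  · obtain ⟨x, hx⟩ := h
    obtain ⟨y, hy, hmin⟩ := Set.exists_min_image {x | 0 < f x} f (Set.toFinite _) ⟨x, hx⟩
    exact ⟨f y, hy, fun z hz => hmin z hz⟩
  · push Not at h
    exact ⟨1, one_pos, fun x hx => absurd hx (not_lt.2 (h x))⟩

theorem exists_epsSPE_of_blueprint {V P : Type} [Fintype V] [Finite P] [DecidableEq P]
    [MeasurableSpace V] [MeasurableSingletonClass V] {G : Arena V P} {r : P → V → V → ℝ}
    (B : Blueprint G r) (v0 : V) {ε : ℝ} (hε : 0 < ε) : ∃ s, G.IsEpsSPE r v0 ε s := by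
  have := B.finO
  obtain ⟨M1, hM1⟩ := exists_bound_of_finite (fun p : P × V × V => r p.1 p.2.1 p.2.2)
  obtain ⟨M2, hM2⟩ := exists_bound_of_finite (fun p : P × B.O => B.u p.1 p.2)
  obtain ⟨K, hK⟩ := exists_bound_of_finite (fun p : P × B.O × V => B.pot p.1 p.2.1 p.2.2)
  obtain ⟨e1, he1, hgap⟩ := exists_gap_of_finite
    (fun p : P × B.O × B.O => B.u p.1 p.2.2 - B.u p.1 p.2.1)
  obtain ⟨M, hM⟩ : ∃ M, M = max 1 (max M1 M2) := ⟨_, rfl⟩
  have hMpos : 1 ≤ M := hM ▸ le_max_left _ _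
  have hr : ∀ i y z, |r i y z| ≤ M := fun i y z =>
    (hM1 (i, y, z)).trans (hM ▸ (le_max_left _ _).trans (le_max_right _ _))
  have hu : ∀ i C, |B.u i C| ≤ M := fun i C =>
    (hM2 (i, C)).trans (hM ▸ (le_max_right _ _).trans (le_max_right _ _))
  obtain ⟨e, he⟩ : ∃ e, e = min e1 (ε / 2) := ⟨_, rfl⟩
  have he0 : 0 < e := he ▸ lt_min he1 (by positivity)
  have he2 : e ≤ ε / 2 := he ▸ min_le_right _ _
  obtain ⟨d, hd⟩ : ∃ d : ℝ, d = min (1 / 2) (ε / (8 * M)) := ⟨_, rfl⟩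
  have hd0 : 0 < d := hd ▸ lt_min (by norm_num) (by positivity)
  have hd1 : d < 1 := hd ▸ lt_of_le_of_lt (min_le_left _ _) (by norm_num)
  have hd2 : 4 * M * d ≤ ε / 2 := by
    have h1 : d ≤ ε / (8 * M) := hd ▸ min_le_right _ _
    have h2 : 4 * M * d ≤ 4 * M * (ε / (8 * M)) := mul_le_mul_of_nonneg_left h1 (by linarith)
    refine h2.trans (le_of_eq ?_)
    field_simp
    norm_num
  obtain ⟨δ, hδ⟩ : ∃ δ : NNReal, (δ : ℝ) = d := ⟨⟨d, hd0.le⟩, rfl⟩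
  have hδ0 : 0 < δ := by
    rw [← NNReal.coe_pos, hδ]
    exact hd0
  have hδ1 : δ < 1 := by
    rw [← NNReal.coe_lt_coe, hδ]
    exact hd1
  refine ⟨B.prof δ hδ1.le v0, fun i => B.isStrategy_prof δ hδ1.le v0 i, ?_⟩
  intro n x hx j t ht
  have h1 := Blueprint.upper (B := B) (j := j) (K := K) (e := e) (by linarith : 0 ≤ M) (hr j)
    (hu j) (fun C y => hK (j, C, y)) hδ0 hδ1 he0
    (fun C C' h => by
      have h2 := hgap (j, C, C') (sub_pos.2 h)
      have h3 : e ≤ e1 := he ▸ min_le_left _ _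
      show B.u j C + e ≤ B.u j C'
      have h4 : e1 ≤ B.u j C' - B.u j C := h2
      linarith) ht hx
  have h2 := Blueprint.lower (B := B) (j := j) (by linarith : 0 ≤ M) (hr j) (hu j) hδ0 hδ1 hx
  rw [hδ] at h1 h2
  linarith

end SPE
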