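import Mathlib

/-!
# Mean-payoff games: arenas, histories, randomized strategies, payoffs, eps-SPE  (MP_061e18_lc)

Definitions for the final statement (helper74).  No proofs needed here.
-/

open MeasureTheory ProbabilityTheory Filter

namespace SPE

/-- A finite directed graph without dead ends, every vertex owned by a player. -/
structure Arena (V P : Type) where
  /-- edge relation -/
  adj : V → V → Prop
  /-- every vertex has an outgoing edge -/
  total : ∀ v, ∃ w, adj v w
  /-- the player controlling a vertex -/
  owner : V → P

/-- Sequences of `n + 1` vertices (positions `0, ..., n`). -/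
abbrev Hist (V : Type) (n : ℕ) : Type := ∀ _ : Finset.Iic n, V

/-- The last vertex. -/
def lastOf {V : Type} {n : ℕ} (x : Hist V n) : V := x ⟨n, Finset.mem_Iic.2 le_rfl⟩

/-- A behaviour: a probability distribution on `V` after every finite sequence of vertices. -/
abbrev Beh (V : Type) : Type := ∀ n : ℕ, Hist V n → PMF V

namespace Arena

variable {V P : Type} (G : Arena V P)

/-- `x` is a history: a finite path of the graph starting at `v0`. -/
def IsHist (v0 : V) {n : ℕ} (x : Hist V n) : Prop :=
  x ⟨0, Finset.mem_Iic.2 (Nat.zero_le n)⟩ = v0 ∧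
    ∀ (k : ℕ) (hk : k < n),
      G.adj (x ⟨k, Finset.mem_Iic.2 hk.le⟩) (x ⟨k + 1, Finset.mem_Iic.2 hk⟩)

/-- `s` is a randomized strategy of player `i`: after every history ending in a vertex of `i`
the distribution is supported by the outgoing edges of that vertex. -/
def IsStrategy (v0 : V) (i : P) (s : Beh V) : Prop :=
  ∀ (n : ℕ) (x : Hist V n), G.IsHist v0 x → G.owner (lastOf x) = i →
    ∀ w, s n x w ≠ 0 → G.adj (lastOf x) w

variable [Fintype V] [MeasurableSpace V] [MeasurableSingletonClass V]

/-- The transition kernel of a profile: the owner of the last vertex chooses the next one. -/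
noncomputable def step (s : P → Beh V) (n : ℕ) : Kernel (Hist V n) V :=
  Kernel.ofFunOfCountable fun x => (s (G.owner (lastOf x)) n x).toMeasure

instance (s : P → Beh V) (n : ℕ) : IsMarkovKernel (G.step s n) :=
  ⟨fun x => by
    change IsProbabilityMeasure ((s (G.owner (lastOf x)) n x).toMeasure)
    infer_instance⟩

/-- The law of the play when the profile `s` is used from the history `x` on. -/
noncomputable def law (s : P → Beh V) {n : ℕ} (x : Hist V n) : Measure (ℕ → V) :=
  Kernel.traj (X := fun _ => V) (G.step s) n x

end Arena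

/-- The mean payoff `liminf (1/n) sum_(k<n) r(rho_k rho_(k+1))` of a play. -/
noncomputable def meanPayoff {V : Type} (r : V → V → ℝ) (rho : ℕ → V) : ℝ :=
  liminf (fun n : ℕ => (∑ k ∈ Finset.range n, r (rho k) (rho (k + 1))) / (n : ℝ)) atTop

/-- `s` is a randomized eps-subgame-perfect equilibrium of the game started at `v0`. -/
def Arena.IsEpsSPE {V P : Type} [Fintype V] [MeasurableSpace V] [MeasurableSingletonClass V]
    [DecidableEq P] (G : Arena V P) (r : P → V → V → ℝ) (v0 : V) (ε : ℝ)
    (s : P → Beh V) : Prop :=
  (∀ i, G.IsStrategy v0 i (s i)) ∧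
  ∀ (n : ℕ) (x : Hist V n), G.IsHist v0 x → ∀ (i : P) (t : Beh V), G.IsStrategy v0 i t →
    ∫ rho, meanPayoff (r i) rho ∂(G.law (Function.update s i t) x)
      ≤ ∫ rho, meanPayoff (r i) rho ∂(G.law s x) + ε

end SPE
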