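import Pool.Agent.SPE.Game

/-!
# Operations on histories (MP_061e18_lc)
-/

namespace SPE

variable {V : Type} {n : ℕ}

/-- the history without its last vertex -/
def initOf (x : Hist V (n + 1)) : Hist V n :=
  fun k => x ⟨k.1, Finset.mem_Iic.2 ((Finset.mem_Iic.1 k.2).trans (Nat.le_succ n))⟩

/-- the history with one more vertex -/
def snoc (x : Hist V n) (z : V) : Hist V (n + 1) :=
  fun k => if h : k.1 ≤ n then x ⟨k.1, Finset.mem_Iic.2 h⟩ else z

/-- the first `n + 1` vertices of a play -/
def cut (n : ℕ) (rho : ℕ → V) : Hist V n := fun k => rho k.1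

/-- a play extending a history -/
def ext (x : Hist V n) : ℕ → V := fun k => x ⟨min k n, Finset.mem_Iic.2 (min_le_right k n)⟩

theorem cut_ext (x : Hist V n) : cut n (ext x) = x := by
  funext k
  have hk := Finset.mem_Iic.1 k.2
  show x ⟨min k.1 n, _⟩ = x k
  congr 1
  exact Subtype.ext (min_eq_left hk)

theorem initOf_cut (rho : ℕ → V) : initOf (cut (n + 1) rho) = cut n rho := rfl

theorem lastOf_cut (rho : ℕ → V) : lastOf (cut n rho) = rho n := rfl

theorem lastOf_snoc (x : Hist V n) (z : V) : lastOf (snoc x z) = z := by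
  unfold lastOf snoc
  exact dif_neg (by simp)

theorem initOf_snoc (x : Hist V n) (z : V) : initOf (snoc x z) = x := by
  funext k
  have hk := Finset.mem_Iic.1 k.2
  show (if h : k.1 ≤ n then x ⟨k.1, Finset.mem_Iic.2 h⟩ else z) = x k
  rw [dif_pos hk]

theorem cut_congr {rho rho' : ℕ → V} (h : ∀ k ≤ n, rho k = rho' k) :
    cut n rho = cut n rho' := by
  funext k
  exact h k.1 (Finset.mem_Iic.1 k.2)

theorem cut_eq_iff {rho rho' : ℕ → V} :
    cut n rho = cut n rho' ↔ ∀ k ≤ n, rho k = rho' k :=
  ⟨fun h k hk => congrFun h ⟨k, Finset.mem_Iic.2 hk⟩, cut_congr⟩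

/-- the play `rho` with the vertex at time `n + 1` replaced -/
theorem snoc_cut (rho : ℕ → V) (z : V) :
    snoc (cut n rho) z = cut (n + 1) (Function.update rho (n + 1) z) := by
  funext k
  have hk := Finset.mem_Iic.1 k.2
  show (if h : k.1 ≤ n then rho k.1 else z) = Function.update rho (n + 1) z k.1
  by_cases h : k.1 ≤ n
  · rw [dif_pos h, Function.update_of_ne (by omega)]
  · rw [dif_neg h]
    have : k.1 = n + 1 := by omega
    rw [this, Function.update_self]

end SPE
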