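import Pool.Agent.SPE.Game

/-!
# The interface between the combinatorial half and the strategy half  (MP_061e18_lc)

`SPE.Blueprint G r` collects what the viability theorem provides (outcomes, viable vertices, positional plans,
punishments, regions with potentials and leaks).  The combinatorial half constructs a blueprint for generic rewards; the
strategy half turns a blueprint into randomized eps-SPEs for every eps.
-/

open Filter

namespace SPE

/-- Data from which randomized eps-SPEs are built.  `O` is the (finite) set of outcomes, `u i C` the payoff of outcome `C`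
for player `i`, `via C` the set of vertices from which `C` is a viable outcome, `nxt C` the positional plan for `C`,
`base y` the viable outcome at `y` that is worst for the owner of `y`, `win i C` the region in which the others can punish
player `i` with commitment `C`. -/
structure Blueprint {V P : Type} (G : Arena V P) (r : P → V → V → ℝ) where
  /-- outcomes -/
  O : Type
  finO : Finite O
  /-- payoffs of outcomes -/
  u : P → O → ℝ
  /-- vertices with a viable plan of outcome `C` -/
  via : O → Set V
  /-- positional plan -/
  nxt : O → V → V
  nxt_adj : ∀ C y, y ∈ via C → G.adj y (nxt C y)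
  nxt_via : ∀ C y, y ∈ via C → nxt C y ∈ via C
  nxt_lim : ∀ i C y, y ∈ via C → Tendsto (fun n : ℕ =>
    (∑ k ∈ Finset.range n, r i ((nxt C)^[k] y) ((nxt C)^[k + 1] y)) / (n : ℝ)) atTop (nhds (u i C))
  /-- worst viable outcome for the owner -/
  base : V → O
  base_via : ∀ y, y ∈ via (base y)
  base_le : ∀ y C, y ∈ via C → u (G.owner y) (base y) ≤ u (G.owner y) C
  /-- punishment region against player `i` with commitment `C` -/
  win : P → O → Set V
  /-- potential on the region -/
  pot : P → O → V → ℝ
  /-- leak vertices -/
  leak : P → O → Set V
  /-- prescribed move in the region outside the leak vertices -/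
  mv : P → O → V → V
  /-- leak move -/
  lz : P → O → V → V
  /-- the move at a leak vertex if no leak happens -/
  lc : P → O → V → V
  /-- outcome after a leak -/
  lG : P → O → V → O
  win_via : ∀ i C y, y ∈ win i C → y ∈ via C
  leak_spec : ∀ i C y, y ∈ win i C → y ∈ leak i C →
    G.owner y ≠ i ∧ G.adj y (lz i C y) ∧ G.adj y (lc i C y) ∧ lz i C y ≠ lc i C y ∧
    lz i C y ∈ via (lG i C y) ∧ lc i C y ∈ via C ∧ u i (lG i C y) < u i C ∧
    u (G.owner y) (lG i C y) ≤ u (G.owner y) C
  mv_spec : ∀ i C y, y ∈ win i C → y ∉ leak i C →
    G.adj y (mv i C y) ∧ mv i C y ∈ win i C ∧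
    r i y (mv i C y) - u i C + pot i C (mv i C y) ≤ pot i C y
  own_spec : ∀ i C y z, y ∈ win i C → G.owner y = i → G.adj y z →
    (∃ F, z ∈ via F ∧ u i F < u i C) ∨
    (z ∈ win i C ∧ r i y z - u i C + pot i C z ≤ pot i C y)
  ok : ∀ y z, G.adj y z →
    (∃ F, z ∈ via F ∧ u (G.owner y) F < u (G.owner y) (base y)) ∨
    z ∈ win (G.owner y) (base y)

end SPE
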