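import Pool.Agent.SPE.Cases
import Pool.Agent.SPE.Avg

/-!
# The potential when nobody deviates (MP_061e18_lc)
-/

open Filter Topology
open scoped Classical

namespace SPE

namespace Blueprint

variable {V P : Type} {G : Arena V P} {r : P → V → V → ℝ} (B : Blueprint G r)

/-- wandering modes -/
def Wandering (md : Mode P B.O) : Prop := ∃ i C d, md = .wander i C d

/-- the potential when nobody deviates -/
noncomputable def PhiL (j : P) (M δ : ℝ) (md : Mode P B.O) : ℝ :=
  M - B.u j md.com + (if B.Wandering md then 2 * M * δ else 0)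

variable {B}

theorem not_wandering (C : B.O) : ¬ B.Wandering (.follow C) := by
  rintro ⟨i, C, d, h⟩
  cases h

theorem eventually_follow {a : ℕ} {rho : ℕ → V} {md : ℕ → Mode P B.O}
    (hg : ∀ n, a ≤ n → B.good n (md n) (rho n))
    (hk : ∀ n, a ≤ n → B.Kind0 (n + 1) (md n) (rho n) (rho (n + 1)) (md (n + 1))) :
    ∃ N C, a ≤ N ∧ ∀ n, N ≤ n → md n = .follow C ∧ rho (n + 1) = B.nxt C (rho n) := by
  by_cases h : ∃ N C, a ≤ N ∧ md N = .follow C
  · obtain ⟨N, C, hN, hC⟩ := h
    have hall : ∀ n, N ≤ n → md n = .follow C ∧ rho (n + 1) = B.nxt C (rho n) := by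
      have hone : ∀ n, N ≤ n → md n = .follow C →
          rho (n + 1) = B.nxt C (rho n) ∧ md (n + 1) = .follow C := by
        intro n hn hm
        rcases hk n (hN.trans hn) with ⟨C', h1, h2, h3⟩ | ⟨i, C', d, h1, -⟩ | ⟨i, C', d, h1, -⟩ |
          ⟨i, C', d, h1, -⟩
        · rw [hm] at h1
          cases h1
          exact ⟨h2, h3⟩
        · rw [hm] at h1; cases h1
        · rw [hm] at h1; cases h1
        · rw [hm] at h1; cases h1
      have hf : ∀ n, N ≤ n → md n = .follow C := by
        intro n hn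
        induction n, hn using Nat.le_induction with
        | base => exact hC
        | succ n hn ih => exact (hone n hn ih).2
      exact fun n hn => ⟨hf n hn, (hone n hn (hf n hn)).1⟩
    exact ⟨N, C, hN, hall⟩
  · exfalso
    push Not at h
    have h2 : ∀ k, md (a + k) = md a := by
      intro k
      induction k with
      | zero => rfl
      | succ k ih =>
        rw [← ih]
        rcases hk (a + k) (Nat.le_add_right _ _) with ⟨C', h1, -⟩ | ⟨i, C', d, h1, -, -, h3⟩ |
          ⟨i, C', d, h1, -, -, h3⟩ | ⟨i, C', d, h1, -, -, h3⟩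
        · exact absurd h1 (h _ _ (Nat.le_add_right _ _))
        · exact absurd h3 (h (a + k + 1) _ (by omega))
        · exact absurd h3 (h (a + k + 1) _ (by omega))
        · by_cases h4 : a + k + 1 < d
          · have h5 : B.cont i C' d (a + k + 1) = .wander i C' d := if_pos h4
            rw [h1, ← add_assoc, h3, h5]
          · have h5 : B.cont i C' d (a + k + 1) = .follow C' := if_neg h4
            rw [h5] at h3
            exact absurd h3 (h (a + k + 1) _ (by omega))
    cases hd : md a with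
    | follow C => exact h a C le_rfl hd
    | wander i C d =>
      have h4 := hg (a + d) (Nat.le_add_right _ _)
      rw [h2 d, hd] at h4
      have h5 : a + d < d := h4.2
      omega

theorem eventually_le_PhiL {a : ℕ} {rho : ℕ → V} {md : ℕ → Mode P B.O}
    (hg : ∀ n, a ≤ n → B.good n (md n) (rho n))
    (hk : ∀ n, a ≤ n → B.Kind0 (n + 1) (md n) (rho n) (rho (n + 1)) (md (n + 1)))
    (j : P) (M δ : ℝ) :
    ∀ᶠ n in atTop, M - meanPayoff (r j) rho ≤ B.PhiL j M δ (md n) := by
  obtain ⟨N, C, hN, hall⟩ := eventually_follow hg hk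
  have hv : rho N ∈ B.via C := by
    have h := hg N hN
    rw [(hall N le_rfl).1] at h
    exact h
  have hm := meanPayoff_of_follow B C rho N (fun n hn => (hall n hn).2) hv j
  filter_upwards [eventually_ge_atTop N] with n hn
  unfold PhiL
  rw [hm, (hall n hn).1, if_neg (not_wandering C), add_zero]
  exact le_rfl

/-- one step at a vertex with a deterministic rule -/
theorem PhiL_det {j : P} {M δ : ℝ} (h0 : 0 ≤ M) (hδ0 : 0 < δ) {n : ℕ}
    {md : Mode P B.O} {y z : V} (hs : B.supp md y z) (hg : B.good n md y)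
    (hl : ∀ i C d, md = .wander i C d → y ∉ B.leak i C) :
    B.PhiL j M δ (B.stepM (n + 1) md y z) ≤ B.PhiL j M δ md := by
  rcases B.step_kind0 hg hs with ⟨C, h1, h2, h3⟩ | ⟨i, C, d, h1, h2, h4, h3⟩ |
    ⟨i, C, d, h1, h2, h4, h3⟩ | ⟨i, C, d, h1, h2, h4, h3⟩
  · rw [h3, h1]
  · exact absurd h2 (hl i C d h1)
  · exact absurd h2 (hl i C d h1)
  · rw [h3, h1]
    unfold cont
    split_ifs with h5
    · exact le_rfl
    · unfold PhiL
      rw [if_neg (not_wandering C), if_pos ⟨i, C, d, rfl⟩]
      have : 0 ≤ 2 * M * δ := by positivity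
      show M - B.u j C + 0 ≤ M - B.u j C + 2 * M * δ
      linarith

/-- one step at a leak vertex -/
theorem PhiL_leak {j : P} {M δ : ℝ} (hu : ∀ C, |B.u j C| ≤ M) (hδ0 : 0 < δ) {n : ℕ}
    {i : P} {C : B.O} {d : ℕ} {y : V} (hg : B.good n (.wander i C d) y) (hl : y ∈ B.leak i C) :
    δ * B.PhiL j M δ (B.stepM (n + 1) (.wander i C d) y (B.lz i C y)) +
      (1 - δ) * B.PhiL j M δ (B.stepM (n + 1) (.wander i C d) y (B.lc i C y)) ≤
      B.PhiL j M δ (.wander i C d) := by
  obtain ⟨s1, s2, s3, s4, s5, s6, s7, s8⟩ := B.leak_spec i C y hg.1 hl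
  have e1 : B.stepM (n + 1) (.wander i C d) y (B.lz i C y) = .follow (B.lG i C y) := by
    simp only [stepM]
    rw [if_pos hl, if_pos trivial]
  have e2 : B.stepM (n + 1) (.wander i C d) y (B.lc i C y) = .follow C := by
    simp only [stepM]
    rw [if_pos hl, if_neg s4.symm, if_pos trivial]
  rw [e1, e2]
  unfold PhiL
  rw [if_neg (not_wandering _), if_neg (not_wandering _), if_pos ⟨i, C, d, rfl⟩]
  show δ * (M - B.u j (B.lG i C y) + 0) + (1 - δ) * (M - B.u j C + 0) ≤
    M - B.u j C + 2 * M * δ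
  have h8 := (abs_le.1 (hu (B.lG i C y))).1
  have h9 := (abs_le.1 (hu C)).2
  nlinarith [mul_le_mul_of_nonneg_left h8 hδ0.le, mul_le_mul_of_nonneg_left h9 hδ0.le]

end Blueprint

end SPE
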