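import Pool.Agent.SPE.Iface
import Pool.Agent.SPE.Hist

/-!
# Modes, transitions and the strategy profile (MP_061e18_lc)

The common finite description of the profile: in mode `follow C` everybody follows the positional plan of `C`; in mode
`wander i C d` (until time `d`) the others stay in the region `win i C` in which the mean payoff of player `i` is at most
`u i C`; at leak vertices the owner moves to `lz` with a small probability.
-/

open scoped Classical

namespace SPE

/-- modes -/
inductive Mode (P O : Type) where
  | follow (C : O) : Mode P O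
  | wander (i : P) (C : O) (d : ℕ) : Mode P O

/-- the committed outcome -/
def Mode.com {P O : Type} : Mode P O → O
  | .follow C => C
  | .wander _ C _ => C

namespace Blueprint

variable {V P : Type} {G : Arena V P} {r : P → V → V → ℝ} (B : Blueprint G r)

/-- `z` has a viable outcome of value `< c` for player `j` -/
def low (j : P) (c : ℝ) (z : V) : Prop := ∃ F, z ∈ B.via F ∧ B.u j F < c

/-- the new mode after the owner of `y` moved to `z` against the rules; `n` is the new time -/
noncomputable def punish (n : ℕ) (y z : V) : Mode P B.O :=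
  if h : B.low (G.owner y) (B.u (G.owner y) (B.base y)) z then .follow h.choose
  else .wander (G.owner y) (B.base y) (n ^ 2 + 1)

/-- continue to wander until the deadline -/
def cont (i : P) (C : B.O) (d n : ℕ) : Mode P B.O :=
  if n < d then .wander i C d else .follow C

/-- transitions: new mode after a move from `y` to `z`; `n` is the new time -/
noncomputable def stepM (n : ℕ) (md : Mode P B.O) (y z : V) : Mode P B.O :=
  match md with
  | .follow C => if z = B.nxt C y then .follow C else B.punish n y z
  | .wander i C d =>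
    if y ∈ B.leak i C then
      if z = B.lz i C y then .follow (B.lG i C y)
      else if z = B.lc i C y then .follow C
      else B.punish n y z
    else if z = B.mv i C y then B.cont i C d n
    else if G.owner y = i then
      if h : B.low i (B.u i C) z then .follow h.choose else B.cont i C d n
    else B.punish n y z

/-- invariant of the modes -/
def good (n : ℕ) (md : Mode P B.O) (y : V) : Prop :=
  match md with
  | .follow C => y ∈ B.via C
  | .wander i C d => y ∈ B.win i C ∧ n < d

/-- the moves that the rules allow -/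
def supp (md : Mode P B.O) (y z : V) : Prop :=
  match md with
  | .follow C => z = B.nxt C y
  | .wander i C _ =>
    (y ∈ B.leak i C ∧ (z = B.lz i C y ∨ z = B.lc i C y)) ∨ (y ∉ B.leak i C ∧ z = B.mv i C y)

theorem via_com {n : ℕ} {md : Mode P B.O} {y : V} (h : B.good n md y) : y ∈ B.via md.com := by
  cases md with
  | follow C => exact h
  | wander i C d => exact B.win_via i C y h.1

theorem good_punish {n : ℕ} {y z : V} (h : G.adj y z) : B.good n (B.punish n y z) z := by
  unfold punish
  split_ifs with h1
  · exact h1.choose_spec.1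
  · refine ⟨(B.ok y z h).resolve_left h1, ?_⟩
    nlinarith

theorem good_cont {n : ℕ} {i : P} {C : B.O} {d : ℕ} {z : V} (h : z ∈ B.win i C) :
    B.good n (B.cont i C d n) z := by
  unfold cont
  split_ifs with h1
  · exact ⟨h, h1⟩
  · exact B.win_via i C z h

theorem good_step {n : ℕ} {md : Mode P B.O} {y z : V} (hg : B.good n md y) (h : G.adj y z) :
    B.good (n + 1) (B.stepM (n + 1) md y z) z := by
  cases md with
  | follow C =>
    show B.good (n + 1) (if z = B.nxt C y then .follow C else B.punish (n + 1) y z) z
    split_ifs with h1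
    · rw [h1]
      exact B.nxt_via C y hg
    · exact B.good_punish h
  | wander i C d =>
    simp only [stepM]
    split_ifs with h1 h2 h3 h4 h5 h6
    · rw [h2]; exact (B.leak_spec i C y hg.1 h1).2.2.2.2.1
    · rw [h3]; exact (B.leak_spec i C y hg.1 h1).2.2.2.2.2.1
    · exact B.good_punish h
    · apply B.good_cont
      rw [h4]
      exact (B.mv_spec i C y hg.1 h1).2.1
    · exact h6.choose_spec.1
    · exact B.good_cont ((B.own_spec i C y z hg.1 h5 h).resolve_left h6).1
    · exact B.good_punish h

theorem adj_of_supp {n : ℕ} {md : Mode P B.O} {y z : V} (hg : B.good n md y)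
    (h : B.supp md y z) : G.adj y z := by
  cases md with
  | follow C =>
    have h' : z = B.nxt C y := h
    rw [h']
    exact B.nxt_adj C y hg
  | wander i C d =>
    rcases h with ⟨h1, h2 | h2⟩ | ⟨h1, h2⟩
    · rw [h2]; exact (B.leak_spec i C y hg.1 h1).2.1
    · rw [h2]; exact (B.leak_spec i C y hg.1 h1).2.2.1
    · rw [h2]; exact (B.mv_spec i C y hg.1 h1).1

/-- mode after a history -/
noncomputable def modeH (C0 : B.O) : (n : ℕ) → Hist V n → Mode P B.O
  | 0, _ => .follow C0
  | n + 1, x => B.stepM (n + 1) (modeH C0 n (initOf x)) (lastOf (initOf x)) (lastOf x)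

theorem modeH_succ (C0 : B.O) (n : ℕ) (rho : ℕ → V) :
    B.modeH C0 (n + 1) (cut (n + 1) rho) =
      B.stepM (n + 1) (B.modeH C0 n (cut n rho)) (rho n) (rho (n + 1)) := rfl

theorem modeH_snoc (C0 : B.O) (n : ℕ) (x : Hist V n) (z : V) :
    B.modeH C0 (n + 1) (snoc x z) = B.stepM (n + 1) (B.modeH C0 n x) (lastOf x) z := by
  show B.stepM (n + 1) (B.modeH C0 n (initOf (snoc x z))) (lastOf (initOf (snoc x z)))
    (lastOf (snoc x z)) = _
  rw [initOf_snoc, lastOf_snoc]

end Blueprint

theorem Arena.IsHist.init {V P : Type} {G : Arena V P} {v0 : V} {n : ℕ} {x : Hist V (n + 1)}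
    (h : G.IsHist v0 x) : G.IsHist v0 (initOf x) :=
  ⟨h.1, fun k hk => h.2 k (hk.trans (Nat.lt_succ_self n))⟩

theorem Arena.IsHist.adj_last {V P : Type} {G : Arena V P} {v0 : V} {n : ℕ} {x : Hist V (n + 1)}
    (h : G.IsHist v0 x) : G.adj (lastOf (initOf x)) (lastOf x) :=
  h.2 n (Nat.lt_succ_self n)

theorem Arena.IsHist.snoc {V P : Type} {G : Arena V P} {v0 : V} {n : ℕ} {x : Hist V n} {z : V}
    (h : G.IsHist v0 x) (hz : G.adj (lastOf x) z) : G.IsHist v0 (snoc x z) := by
  refine ⟨?_, fun k hk => ?_⟩
  · show (if h : 0 ≤ n then x ⟨0, Finset.mem_Iic.2 h⟩ else z) = v0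
    rw [dif_pos (Nat.zero_le n)]
    exact h.1
  · show G.adj (if h : k ≤ n then x ⟨k, Finset.mem_Iic.2 h⟩ else z)
      (if h : k + 1 ≤ n then x ⟨k + 1, Finset.mem_Iic.2 h⟩ else z)
    rw [dif_pos (Nat.lt_succ_iff.1 hk)]
    by_cases h1 : k + 1 ≤ n
    · rw [dif_pos h1]
      exact h.2 k h1
    · rw [dif_neg h1]
      have h2 : k = n := by omega
      subst h2
      exact hz

namespace Blueprint

variable {V P : Type} {G : Arena V P} {r : P → V → V → ℝ} (B : Blueprint G r)

theorem good_modeH {v0 : V} {n : ℕ} {x : Hist V n} (h : G.IsHist v0 x) :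
    B.good n (B.modeH (B.base v0) n x) (lastOf x) := by
  induction n with
  | zero =>
    have h1 : lastOf x = v0 := h.1
    rw [h1]
    exact B.base_via v0
  | succ n ih => exact B.good_step (ih h.init) h.adj_last

/-- the distribution of the next vertex -/
noncomputable def moveD (δ : NNReal) (hδ : δ ≤ 1) (md : Mode P B.O) (y : V) : PMF V :=
  match md with
  | .follow C => PMF.pure (B.nxt C y)
  | .wander i C _ =>
    if y ∈ B.leak i C then
      (PMF.bernoulli δ hδ).map (fun b => if b then B.lz i C y else B.lc i C y)
    else PMF.pure (B.mv i C y)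

theorem supp_of_moveD {δ : NNReal} {hδ : δ ≤ 1} {md : Mode P B.O} {y z : V}
    (h : B.moveD δ hδ md y z ≠ 0) : B.supp md y z := by
  cases md with
  | follow C =>
    have h1 : z ∈ (PMF.pure (B.nxt C y)).support := h
    rw [PMF.support_pure] at h1
    exact h1
  | wander i C d =>
    have h1 : z ∈ (B.moveD δ hδ (.wander i C d) y).support := h
    simp only [moveD] at h1
    by_cases h2 : y ∈ B.leak i C
    · rw [if_pos h2, PMF.support_map] at h1
      obtain ⟨b, -, hb⟩ := h1
      left
      refine ⟨h2, ?_⟩
      cases b with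
      | false => right; simpa using hb.symm
      | true => left; simpa using hb.symm
    · rw [if_neg h2, PMF.support_pure] at h1
      exact Or.inr ⟨h2, h1⟩

/-- the profile -/
noncomputable def prof (δ : NNReal) (hδ : δ ≤ 1) (v0 : V) : P → Beh V :=
  fun _ n x => B.moveD δ hδ (B.modeH (B.base v0) n x) (lastOf x)

theorem isStrategy_prof (δ : NNReal) (hδ : δ ≤ 1) (v0 : V) (i : P) :
    G.IsStrategy v0 i (B.prof δ hδ v0 i) := by
  intro n x hx _ w hw
  exact B.adj_of_supp (B.good_modeH hx) (B.supp_of_moveD hw)

end Blueprint

end SPE
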