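import Pool.Agent.SPE.Cases
import Pool.Agent.SPE.Avg

/-!
# Pathwise facts when only player `j` deviates (MP_061e18_lc)
-/

open Filter Topology
open scoped Classical

namespace SPE

namespace Blueprint

variable {V P : Type} {G : Arena V P} {r : P → V → V → ℝ} (B : Blueprint G r)

/-- the mode punishes somebody else -/
def Foreign (j : P) (md : Mode P B.O) : Prop := ∃ i C d, md = .wander i C d ∧ i ≠ j

/-- leak vertex of a punishment of `j` -/
def OwnLeak (j : P) (md : Mode P B.O) (y : V) : Prop := ∃ C d, md = .wander j C d ∧ y ∈ B.leak j C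

theorem kind_foreign {j : P} {n : ℕ} {md md' : Mode P B.O} {y z : V}
    (h : B.Kind j n md y z md') (hf : B.Foreign j md') : B.Foreign j md ∧ md' = md := by
  obtain ⟨i0, C0, d0, he, hi0⟩ := hf
  rcases h with ⟨C, h1, h2, h3⟩ | ⟨h1, F, h3, h2⟩ | ⟨h1, h3, h2, h4⟩ | ⟨i, C, d, h1, h2, h4, h3⟩ |
    ⟨i, C, d, h1, h2, h4, h3⟩ | ⟨i, C, d, h1, h2, h3, h4, h5⟩
  · rw [h3] at he; cases he
  · rw [h3] at he; cases he
  · rw [h3] at he; cases he; exact absurd rfl hi0
  · rw [h3] at he; cases he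
  · rw [h3] at he; cases he
  · have h6 : md' = .wander i C d := by
      rw [h3] at he ⊢
      unfold cont at he ⊢
      split_ifs at he ⊢ with h7
      rfl
    rw [h6] at he
    cases he
    exact ⟨⟨_, _, _, h1, hi0⟩, h6.trans h1.symm⟩

theorem com_cont (i : P) (C : B.O) (d n : ℕ) : (B.cont i C d n).com = C := by
  unfold cont
  split_ifs <;> rfl

theorem kind_level {j : P} {n m : ℕ} {md md' : Mode P B.O} {y z : V}
    (h : B.Kind j n md y z md') (hg : B.good m md y) (hf : ¬ B.Foreign j md) :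
    B.u j md'.com ≤ B.u j md.com := by
  rcases h with ⟨C, h1, h2, h3⟩ | ⟨h1, F, h3, h2⟩ | ⟨h1, h3, h2, h4⟩ | ⟨i, C, d, h1, h2, h4, h3⟩ |
    ⟨i, C, d, h1, h2, h4, h3⟩ | ⟨i, C, d, h1, h2, h3, h4, h5⟩
  · rw [h3, h1]
  · rw [h3]; exact h2.le
  · rw [h3]; exact h2
  · rw [h3]
    subst h1
    have hi : i = j := by
      by_contra h
      exact hf ⟨i, C, d, rfl, h⟩
    subst hi
    exact (B.leak_spec i C y hg.1 h2).2.2.2.2.2.2.1.le
  · rw [h3, h1]; exact le_rfl
  · rw [h3, com_cont, h1]; exact le_rfl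

/-- a play with modes, only `j` deviates -/
structure Run (a : ℕ) (j : P) where
  /-- the play -/
  rho : ℕ → V
  /-- its modes -/
  md : ℕ → Mode P B.O
  good : ∀ n, a ≤ n → B.good n (md n) (rho n)
  kind : ∀ n, a ≤ n → B.Kind j (n + 1) (md n) (rho n) (rho (n + 1)) (md (n + 1))

namespace Run

variable {B} {a : ℕ} {j : P} (R : B.Run a j)

/-- the level of player `j` -/
noncomputable def lev (n : ℕ) : ℝ := B.u j (R.md n).com

theorem exists_not_foreign : ∃ n1, a ≤ n1 ∧ ∀ n, n1 ≤ n → ¬ B.Foreign j (R.md n) := by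
  have h1 : ∃ n1, a ≤ n1 ∧ ¬ B.Foreign j (R.md n1) := by
    by_contra hcon
    push Not at hcon
    have h2 : ∀ k, R.md (a + k) = R.md a := by
      intro k
      induction k with
      | zero => rfl
      | succ k ih =>
        have h3 := (B.kind_foreign (R.kind (a + k) (Nat.le_add_right _ _))
          (hcon (a + k + 1) (by omega))).2
        rw [← add_assoc, h3, ih]
    obtain ⟨i, C, d, hd, -⟩ := hcon a le_rfl
    have h4 := R.good (a + d) (Nat.le_add_right _ _)
    rw [h2 d, hd] at h4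
    have h5 : a + d < d := h4.2
    omega
  obtain ⟨n1, ha, hn1⟩ := h1
  refine ⟨n1, ha, fun n hn => ?_⟩
  induction n, hn using Nat.le_induction with
  | base => exact hn1
  | succ n hn ih => exact fun hf => ih (B.kind_foreign (R.kind n (ha.trans hn)) hf).1

theorem exists_const : ∃ n2, a ≤ n2 ∧ (∀ n, n2 ≤ n → ¬ B.Foreign j (R.md n)) ∧
    ∀ n, n2 ≤ n → R.lev n = R.lev n2 := by
  obtain ⟨n1, ha, hn1⟩ := R.exists_not_foreign
  have hmono : ∀ n m, n1 ≤ n → n ≤ m → R.lev m ≤ R.lev n := by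
    intro n m hn hm
    induction m, hm using Nat.le_induction with
    | base => exact le_rfl
    | succ m hm ih =>
      exact (B.kind_level (R.kind m (by omega)) (R.good m (by omega)) (hn1 m (by omega))).trans ih
  have := B.finO
  have hfin : (R.lev '' {n | n1 ≤ n}).Finite := by
    refine (Set.finite_range (B.u j)).subset ?_
    rintro x ⟨n, -, rfl⟩
    exact ⟨_, rfl⟩
  obtain ⟨x, ⟨n2, hn2, rfl⟩, hmin⟩ := Set.exists_min_image _ id hfin ⟨_, n1, le_refl n1, rfl⟩
  have hn2' : n1 ≤ n2 := hn2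
  refine ⟨n2, ha.trans hn2', fun n hn => hn1 n (hn2'.trans hn), fun n hn => ?_⟩
  exact le_antisymm (hmono n2 n hn2' hn) (hmin _ ⟨n, hn2'.trans hn, rfl⟩)

/-- the simplified transitions: constant level, no foreign punishment, no own leak vertex -/
theorem simple_kind {n2 n : ℕ} (ha : a ≤ n2) (hn : n2 ≤ n)
    (hf : ∀ n, n2 ≤ n → ¬ B.Foreign j (R.md n))
    (hc : ∀ n, n2 ≤ n → R.lev n = R.lev n2) (ho : ¬ B.OwnLeak j (R.md n) (R.rho n)) :
    (∃ C, R.md n = .follow C ∧ R.md (n + 1) = .follow C ∧ R.rho (n + 1) = B.nxt C (R.rho n)) ∨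
    (∃ C C', R.md n = .follow C ∧ R.md (n + 1) = .wander j C' ((n + 1) ^ 2 + 1)) ∨
    (∃ C d, R.md n = .wander j C d ∧ R.md (n + 1) = B.cont j C d (n + 1) ∧
      r j (R.rho n) (R.rho (n + 1)) - B.u j C + B.pot j C (R.rho (n + 1)) ≤
        B.pot j C (R.rho n)) := by
  have hlev : R.lev (n + 1) = R.lev n := (hc (n + 1) (by omega)).trans (hc n hn).symm
  rcases R.kind n (ha.trans hn) with ⟨C, h1, h2, h3⟩ | ⟨h1, F, h3, h2⟩ | ⟨h1, h3, h2, h4⟩ |
    ⟨i, C, d, h1, h2, h4, h3⟩ | ⟨i, C, d, h1, h2, h4, h3⟩ | ⟨i, C, d, h1, h2, h3, h4, h5⟩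
  · exact Or.inl ⟨C, h1, h3, h2⟩
  · exfalso
    unfold lev at hlev
    rw [h3] at hlev
    exact absurd hlev (ne_of_lt h2)
  · right; left
    have h5 : ∃ C, R.md n = .follow C := by
      rcases h6 : R.md n with C | ⟨i, C, d⟩
      · exact ⟨C, rfl⟩
      · exfalso
        by_cases hi : i = j
        · subst hi; exact h4 C d h6
        · exact hf n hn ⟨i, C, d, h6, hi⟩
    obtain ⟨C, hC⟩ := h5
    exact ⟨C, _, hC, h3⟩
  · exfalso
    by_cases hi : i = j
    · subst hi; exact ho ⟨C, d, h1, h2⟩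
    · exact hf n hn ⟨i, C, d, h1, hi⟩
  · exfalso
    by_cases hi : i = j
    · subst hi; exact ho ⟨C, d, h1, h2⟩
    · exact hf n hn ⟨i, C, d, h1, hi⟩
  · by_cases hi : i = j
    · subst hi
      exact Or.inr (Or.inr ⟨C, d, h1, h3, h5⟩)
    · exact absurd ⟨i, C, d, h1, hi⟩ (hf n hn)

/-- the phases of wandering end -/
theorem wander_phase {n3 n : ℕ} {C : B.O} {d : ℕ}
    (hs : ∀ n, n3 ≤ n →
      (∃ C, R.md n = .follow C ∧ R.md (n + 1) = .follow C ∧ R.rho (n + 1) = B.nxt C (R.rho n)) ∨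
      (∃ C C', R.md n = .follow C ∧ R.md (n + 1) = .wander j C' ((n + 1) ^ 2 + 1)) ∨
      (∃ C d, R.md n = .wander j C d ∧ R.md (n + 1) = B.cont j C d (n + 1) ∧
        r j (R.rho n) (R.rho (n + 1)) - B.u j C + B.pot j C (R.rho (n + 1)) ≤
          B.pot j C (R.rho n)))
    (hn : n3 ≤ n) (hm : R.md n = .wander j C d) (k : ℕ) (hk : n + k ≤ d) (hnd : n < d) :
    (n + k < d → R.md (n + k) = .wander j C d) ∧ (n + k = d → R.md (n + k) = .follow C) ∧
    ∑ l ∈ Finset.range k, r j (R.rho (n + l)) (R.rho (n + (l + 1))) ≤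
      k * B.u j C + B.pot j C (R.rho n) - B.pot j C (R.rho (n + k)) := by
  induction k with
  | zero =>
    refine ⟨fun _ => hm, fun h => absurd h (by omega), ?_⟩
    simp
  | succ k ih =>
    obtain ⟨h1, -, h3⟩ := ih (by omega)
    have h4 := h1 (by omega)
    rcases hs (n + k) (by omega) with ⟨C', h5, -⟩ | ⟨C', C'', h5, -⟩ | ⟨C', d', h5, h6, h7⟩
    · rw [h4] at h5; cases h5
    · rw [h4] at h5; cases h5
    · rw [h4] at h5
      cases h5
      refine ⟨fun h => ?_, fun h => ?_, ?_⟩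
      · rw [← add_assoc, h6]
        exact if_pos (by omega)
      · rw [← add_assoc, h6]
        exact if_neg (by omega)
      · rw [Finset.sum_range_succ]
        push_cast
        have h8 : n + (k + 1) = n + k + 1 := rfl
        rw [h8]
        linarith

/-- **pathwise upper bound** -/
theorem meanPayoff_le {M K : ℝ} (h0 : 0 ≤ M) (hM : ∀ y z, |r j y z| ≤ M)
    (hu : ∀ C, |B.u j C| ≤ M) (hK : ∀ C y, |B.pot j C y| ≤ K) {n2 n3 : ℕ} (ha : a ≤ n2)
    (h23 : n2 ≤ n3) (hf : ∀ n, n2 ≤ n → ¬ B.Foreign j (R.md n))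
    (hc : ∀ n, n2 ≤ n → R.lev n = R.lev n2)
    (ho : ∀ n, n3 ≤ n → ¬ B.OwnLeak j (R.md n) (R.rho n)) :
    meanPayoff (r j) R.rho ≤ R.lev n2 := by
  have hs : ∀ n, n3 ≤ n → _ := fun n hn =>
    R.simple_kind ha (h23.trans hn) hf hc (ho n hn)
  by_cases hA : ∃ N, n3 ≤ N ∧ ∀ n, N ≤ n → ∃ C, R.md n = .follow C
  · obtain ⟨N, hN, hA⟩ := hA
    obtain ⟨C, hC⟩ := hA N le_rfl
    have hall : ∀ n, N ≤ n → R.md n = .follow C := by
      intro n hn
      induction n, hn using Nat.le_induction with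
      | base => exact hC
      | succ n hn ih =>
        rcases hs n (hN.trans hn) with ⟨C', h5, h6, -⟩ | ⟨C', C'', h5, h6⟩ | ⟨C', d', h5, -⟩
        · rw [ih] at h5; cases h5; exact h6
        · obtain ⟨C3, h7⟩ := hA (n + 1) (by omega)
          rw [h6] at h7; cases h7
        · rw [ih] at h5; cases h5
    have hnx : ∀ n, N ≤ n → R.rho (n + 1) = B.nxt C (R.rho n) := by
      intro n hn
      rcases hs n (hN.trans hn) with ⟨C', h5, h6, h7⟩ | ⟨C', C'', h5, h6⟩ | ⟨C', d', h5, -⟩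
      · rw [hall n hn] at h5; cases h5; exact h7
      · rw [hall (n + 1) (by omega)] at h6; cases h6
      · rw [hall n hn] at h5; cases h5
    have hv : R.rho N ∈ B.via C := by
      have h := R.good N (by omega)
      rw [hC] at h
      exact h
    rw [meanPayoff_of_follow B C R.rho N hnx hv j, ← hc N (by omega)]
    unfold lev
    rw [hC]
    exact le_rfl
  · push Not at hA
    -- entries into punishments of `j` happen at arbitrarily late times
    have hent : ∀ N, n3 ≤ N → ∃ q C', N < q ∧ R.md q = .wander j C' (q ^ 2 + 1) := by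
      intro N hN
      obtain ⟨n, hn, hnf⟩ := hA N hN
      have hw : ∀ n, n3 ≤ n → (∀ C, R.md n ≠ .follow C) → ∃ C d, R.md n = .wander j C d := by
        intro n hn hnf
        rcases hs n hn with ⟨C', h5, -⟩ | ⟨C', C'', h5, -⟩ | ⟨C', d', h5, -⟩
        · exact absurd h5 (hnf C')
        · exact absurd h5 (hnf C')
        · exact ⟨C', d', h5⟩
      obtain ⟨C, d, hd⟩ := hw n (hN.trans hn) hnf
      have hgd := R.good n (by omega)
      rw [hd] at hgd
      have hnd : n < d := hgd.2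
      have h6 := (R.wander_phase hs (hN.trans hn) hd (d - n) (by omega) hnd).2.1 (by omega)
      rw [show n + (d - n) = d by omega] at h6
      obtain ⟨q, hq, hqf⟩ := hA d (by omega)
      have hex : ∃ q, d ≤ q ∧ ∀ C, R.md q ≠ .follow C := ⟨q, hq, hqf⟩
      classical
      obtain ⟨hq1, hq2⟩ := Nat.find_spec hex
      have hq3 : Nat.find hex ≠ d := by
        intro h
        rw [h] at hq2
        exact hq2 C h6
      obtain ⟨p, hp⟩ : ∃ p, Nat.find hex = p + 1 := ⟨Nat.find hex - 1, by omega⟩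
      have hpf : ∃ C, R.md p = .follow C := by
        by_contra hcon
        push Not at hcon
        exact Nat.find_min hex (m := p) (by omega) ⟨by omega, hcon⟩
      obtain ⟨C1, hC1⟩ := hpf
      rw [hp] at hq2
      rcases hs p (by omega) with ⟨C', h5, h7, -⟩ | ⟨C', C'', h5, h7⟩ | ⟨C', d', h5, -⟩
      · exact absurd h7 (hq2 C')
      · exact ⟨p + 1, C'', by omega, h7⟩
      · rw [hC1] at h5; cases h5
    refine meanPayoff_le_of_freq h0 hM R.rho _ (fun η hη => ?_)
    rw [frequently_atTop]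
    intro N
    have hK0 : 0 ≤ K := (abs_nonneg _).trans (hK (R.md 0).com (R.rho 0))
    obtain ⟨N1, hN1⟩ := exists_nat_gt ((2 * M + 2 * K) / η)
    obtain ⟨q, C, hq, hqd⟩ := hent (max (max N N1) n3) (le_max_right _ _)
    have hqN : N < q := lt_of_le_of_lt ((le_max_left _ _).trans (le_max_left _ _)) hq
    have hqN1 : N1 < q := lt_of_le_of_lt ((le_max_right _ _).trans (le_max_left _ _)) hq
    have hq3 : n3 < q := lt_of_le_of_lt (le_max_right _ _) hq
    have hqq : q < q ^ 2 + 1 := by nlinarith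
    have hph := (R.wander_phase hs hq3.le hqd (q ^ 2 + 1 - q) (by omega) hqq).2.2
    rw [show q + (q ^ 2 + 1 - q) = q ^ 2 + 1 by omega] at hph
    have hlev : B.u j C = R.lev n2 := by
      rw [← hc q (by omega)]
      unfold lev
      rw [hqd]
      rfl
    refine ⟨q ^ 2 + 1, by nlinarith, ?_⟩
    have hsum : ∑ k ∈ Finset.range (q ^ 2 + 1), r j (R.rho k) (R.rho (k + 1)) =
        ∑ k ∈ Finset.range q, r j (R.rho k) (R.rho (k + 1)) +
        ∑ l ∈ Finset.range (q ^ 2 + 1 - q), r j (R.rho (q + l)) (R.rho (q + (l + 1))) := by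
      conv_lhs => rw [show q ^ 2 + 1 = q + (q ^ 2 + 1 - q) by omega]
      rw [Finset.sum_range_add]
      rfl
    have hq0 : (0 : ℝ) < q := by
      have : 0 < q := by omega
      exact_mod_cast this
    have hD : (0 : ℝ) < ((q ^ 2 + 1 : ℕ) : ℝ) := by positivity
    unfold avg
    rw [div_le_iff₀ hD, hsum]
    have hcast : (((q ^ 2 + 1 - q : ℕ) : ℝ)) = (q : ℝ) ^ 2 + 1 - q := by
      rw [Nat.cast_sub hqq.le]
      push_cast
      ring
    rw [hcast] at hph
    have h1 := (abs_le.1 (abs_sum_le hM R.rho q)).2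
    have h2 := (abs_le.1 (hK C (R.rho q))).2
    have h3 := (abs_le.1 (hK C (R.rho (q ^ 2 + 1)))).1
    have h4 := (abs_le.1 (hu C)).1
    rw [← hlev]
    push_cast
    have h5 : 2 * M + 2 * K ≤ η * q := by
      have h6 : (2 * M + 2 * K) / η < q := hN1.trans (by exact_mod_cast hqN1)
      rw [div_lt_iff₀ hη] at h6
      linarith
    have hq1 : (1 : ℝ) ≤ q := by
      have : 1 ≤ q := by omega
      exact_mod_cast this
    have h7 : (q : ℝ) * (2 * M + 2 * K) ≤ q * (η * q) := mul_le_mul_of_nonneg_left h5 hq0.le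
    have h8 : (q : ℝ) * (-M) ≤ q * B.u j C := mul_le_mul_of_nonneg_left h4 hq0.le
    have h9 : 2 * K ≤ q * (2 * K) := by nlinarith
    nlinarith

end Run

end Blueprint

end SPE
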