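import Mathlib

/-!
# Positional lemma (MP_061e18_lc)

A finite digraph `B` on the vertex set `Y`, every vertex has a successor; `I` is the set of vertices of the maximizer, `w` the weights. Either the coalition has
a nonempty region with a potential, or the maximizer can restrict his edges such that every closed walk has positive weight.
Proof: induction on the number of edges of the maximizer (splitting the edges at one vertex).
-/

namespace Pool.Agent.SPE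

open Finset

/-- region of the coalition with potential `φ` in the digraph `B`: sums of weights are bounded by differences of `φ` -/
def PotRegion {V : Type*} (B : V → V → Prop) (I : Set V) (w : V → V → ℝ) (W : Set V)
    (φ : V → ℝ) : Prop :=
  (∀ y ∈ W, y ∉ I → ∃ z ∈ W, B y z ∧ w y z + φ z ≤ φ y) ∧
  (∀ y ∈ W, y ∈ I → ∀ z, B y z → z ∈ W ∧ w y z + φ z ≤ φ y)

/-- every closed walk has positive weight -/
def PosCycles {V : Type*} (B : V → V → Prop) (w : V → V → ℝ) : Prop :=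
  ∀ (p : ℕ) (c : ℕ → V), 0 < p → (∀ k < p, B (c k) (c (k + 1))) → c p = c 0 →
    0 < ∑ k ∈ range p, w (c k) (c (k + 1))

section
variable {V : Type*} {I : Set V} {w : V → V → ℝ}

/-- a closed walk of nonpositive weight gives a region if the maximizer has no choice on it -/
theorem region_of_walk {B : V → V → Prop} (hu : ∀ x ∈ I, ∀ z z', B x z → B x z' → z = z')
    {p : ℕ} {c : ℕ → V} (hp : 0 < p) (hc : ∀ k < p, B (c k) (c (k + 1))) (hcp : c p = c 0)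
    (hs : ∑ k ∈ range p, w (c k) (c (k + 1)) ≤ 0) :
    ∃ φ : V → ℝ, PotRegion B I w {y | ∃ k < p, c k = y} φ := by
  obtain ⟨S, hS⟩ : ∃ S : ℕ → ℝ, S = fun k => ∑ j ∈ range k, w (c j) (c (j + 1)) := ⟨_, rfl⟩
  have hSs : ∀ k, S (k + 1) = S k + w (c k) (c (k + 1)) := by
    intro k
    rw [hS]
    exact Finset.sum_range_succ _ _
  have hS0 : S 0 = 0 := by rw [hS]; simp
  have hSp : S p ≤ 0 := by rw [hS]; exact hs
  let T : V → Set ℝ := fun y => {r | ∃ k < p, c k = y ∧ r = - S k}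
  have hfin : ∀ y, (T y).Finite := by
    intro y
    refine ((Set.finite_lt_nat p).image (fun k => - S k)).subset ?_
    rintro r ⟨k, hk, -, rfl⟩
    exact ⟨k, hk, rfl⟩
  have hle : ∀ k < p, sInf (T (c k)) ≤ - S k := fun k hk =>
    csInf_le (hfin _).bddBelow ⟨k, hk, rfl, rfl⟩
  have hmem : ∀ k < p, ∃ j < p, c j = c k ∧ sInf (T (c k)) = - S j := by
    intro k hk
    obtain ⟨j, h1, h2, h3⟩ := Set.Nonempty.csInf_mem (s := T (c k)) ⟨_, k, hk, rfl, rfl⟩ (hfin _)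
    exact ⟨j, h1, h2, h3⟩
  have hstep : ∀ k < p, (∃ j < p, c j = c (k + 1)) ∧
      w (c k) (c (k + 1)) + sInf (T (c (k + 1))) ≤ - S k := by
    intro k hk
    rcases Nat.lt_or_eq_of_le (show k + 1 ≤ p from hk) with h1 | h1
    · refine ⟨⟨k + 1, h1, rfl⟩, ?_⟩
      have h2 := hle (k + 1) h1
      rw [hSs] at h2
      linarith
    · have h3 : c (k + 1) = c 0 := by rw [h1, hcp]
      refine ⟨⟨0, hp, h3.symm⟩, ?_⟩
      have h2 := hle 0 hp
      rw [hS0] at h2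
      have h4 := hSs k
      rw [h1] at h4
      rw [h1] at h3 ⊢
      rw [h3] at h4 ⊢
      linarith
  refine ⟨fun y => sInf (T y), ?_, ?_⟩
  · rintro y ⟨k, hk, rfl⟩ -
    obtain ⟨j, hj, hjk, hj2⟩ := hmem k hk
    obtain ⟨h1, h2⟩ := hstep j hj
    refine ⟨c (j + 1), h1, hjk ▸ hc j hj, ?_⟩
    show w (c k) (c (j + 1)) + sInf (T (c (j + 1))) ≤ sInf (T (c k))
    rw [hj2, ← hjk]
    exact h2
  · rintro y ⟨k, hk, rfl⟩ hyI z hz
    obtain ⟨j, hj, hjk, hj2⟩ := hmem k hk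
    obtain ⟨h1, h2⟩ := hstep j hj
    have hzj : z = c (j + 1) := hu _ hyI _ _ hz (hjk ▸ hc j hj)
    subst hzj
    refine ⟨h1, ?_⟩
    show w (c k) (c (j + 1)) + sInf (T (c (j + 1))) ≤ sInf (T (c k))
    rw [hj2, ← hjk]
    exact h2

/-- union of two regions, normalised at a common vertex -/
theorem region_union {B B1 B2 : V → V → Prop} {x : V}
    {W1 W2 : Set V} {φ1 φ2 : V → ℝ} (h1 : PotRegion B1 I w W1 φ1) (h2 : PotRegion B2 I w W2 φ2)
    (hx1 : x ∈ W1) (hx2 : x ∈ W2) (hB1 : ∀ y z, B1 y z → B y z) (hB2 : ∀ y z, B2 y z → B y z)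
    (hne1 : ∀ y z, y ≠ x → B y z → B1 y z) (hne2 : ∀ y z, y ≠ x → B y z → B2 y z)
    (hx : ∀ z, B x z → B1 x z ∨ B2 x z) :
    ∃ φ : V → ℝ, PotRegion B I w (W1 ∪ W2) φ := by
  classical
  let ψ1 : V → ℝ := fun y => φ1 y - φ1 x
  let ψ2 : V → ℝ := fun y => φ2 y - φ2 x
  let φ : V → ℝ := fun y => if y ∈ W1 ∧ (y ∉ W2 ∨ ψ1 y ≤ ψ2 y) then ψ1 y else ψ2 y
  have hle1 : ∀ y ∈ W1, φ y ≤ ψ1 y := by
    intro y hy
    by_cases h : y ∈ W1 ∧ (y ∉ W2 ∨ ψ1 y ≤ ψ2 y)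
    · exact (if_pos h).le
    · have h3 : φ y = ψ2 y := if_neg h
      rw [h3]
      by_contra h4
      exact h ⟨hy, Or.inr (not_le.1 h4).le⟩
  have hle2 : ∀ y ∈ W2, φ y ≤ ψ2 y := by
    intro y hy
    by_cases h : y ∈ W1 ∧ (y ∉ W2 ∨ ψ1 y ≤ ψ2 y)
    · have h3 : φ y = ψ1 y := if_pos h
      rw [h3]
      exact h.2.resolve_left (fun h5 => h5 hy)
    · exact (if_neg h).le
  have hat : ∀ y ∈ W1 ∪ W2, (y ∈ W1 ∧ φ y = ψ1 y) ∨ (y ∈ W2 ∧ φ y = ψ2 y) := by
    intro y hy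
    by_cases h : y ∈ W1 ∧ (y ∉ W2 ∨ ψ1 y ≤ ψ2 y)
    · exact Or.inl ⟨h.1, if_pos h⟩
    · refine Or.inr ⟨?_, if_neg h⟩
      rcases hy with hy | hy
      · by_contra h4
        exact h ⟨hy, Or.inl h4⟩
      · exact hy
  have hφx : φ x = 0 := by
    rcases hat x (Or.inl hx1) with h | h
    · rw [h.2]; show φ1 x - φ1 x = 0; ring
    · rw [h.2]; show φ2 x - φ2 x = 0; ring
  refine ⟨φ, ?_, ?_⟩
  · intro y hy hyI
    rcases hat y hy with ⟨hy1, hy2⟩ | ⟨hy1, hy2⟩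
    · obtain ⟨z, hz, hz1, hz2⟩ := h1.1 y hy1 hyI
      refine ⟨z, Or.inl hz, hB1 _ _ hz1, ?_⟩
      have h5 := hle1 z hz
      rw [hy2]
      simp only [ψ1] at h5 ⊢
      linarith
    · obtain ⟨z, hz, hz1, hz2⟩ := h2.1 y hy1 hyI
      refine ⟨z, Or.inr hz, hB2 _ _ hz1, ?_⟩
      have h5 := hle2 z hz
      rw [hy2]
      simp only [ψ2] at h5 ⊢
      linarith
  · intro y hy hyI z hz
    by_cases hyx : y = x
    · subst hyx
      rw [hφx]
      rcases hx z hz with h | h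
      · obtain ⟨h3, h4⟩ := h1.2 y hx1 hyI z h
        have h5 := hle1 z h3
        refine ⟨Or.inl h3, ?_⟩
        simp only [ψ1] at h5
        linarith
      · obtain ⟨h3, h4⟩ := h2.2 y hx2 hyI z h
        have h5 := hle2 z h3
        refine ⟨Or.inr h3, ?_⟩
        simp only [ψ2] at h5
        linarith
    · rcases hat y hy with ⟨hy1, hy2⟩ | ⟨hy1, hy2⟩
      · obtain ⟨h3, h4⟩ := h1.2 y hy1 hyI z (hne1 y z hyx hz)
        have h5 := hle1 z h3
        refine ⟨Or.inl h3, ?_⟩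
        rw [hy2]
        simp only [ψ1] at h5 ⊢
        linarith
      · obtain ⟨h3, h4⟩ := h2.2 y hy1 hyI z (hne2 y z hyx hz)
        have h5 := hle2 z h3
        refine ⟨Or.inr h3, ?_⟩
        rw [hy2]
        simp only [ψ2] at h5 ⊢
        linarith

theorem positional_aux [Finite V] (Y : Set V) (n : ℕ) :
    ∀ B : V → V → Prop, (∀ y z, B y z → y ∈ Y ∧ z ∈ Y) → (∀ y ∈ Y, ∃ z, B y z) →
    {q : V × V | q.1 ∈ I ∧ B q.1 q.2}.ncard ≤ n →
    (∃ W ⊆ Y, W.Nonempty ∧ ∃ φ : V → ℝ, PotRegion B I w W φ) ∨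
    ∃ B' : V → V → Prop, (∀ y z, B' y z → B y z) ∧ (∀ y ∈ Y, ∃ z, B' y z) ∧
      (∀ y, y ∉ I → ∀ z, B y z → B' y z) ∧ PosCycles B' w := by
  induction n with
  | zero =>
    intro B hBY hB hn
    by_cases hpc : PosCycles B w
    · exact Or.inr ⟨B, fun _ _ h => h, hB, fun _ _ _ h => h, hpc⟩
    left
    have hem : {q : V × V | q.1 ∈ I ∧ B q.1 q.2} = ∅ :=
      (Set.ncard_eq_zero (Set.toFinite _)).1 (Nat.le_zero.1 hn)
    unfold PosCycles at hpc
    push Not at hpc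
    obtain ⟨p, c, hp, hc, hcp, hs⟩ := hpc
    obtain ⟨φ, hφ⟩ := region_of_walk (I := I) (w := w) (B := B) (fun x hx z z' hz _ => by
      exact absurd (show (x, z) ∈ {q : V × V | q.1 ∈ I ∧ B q.1 q.2} from ⟨hx, hz⟩)
        (by rw [hem]; exact Set.notMem_empty _)) hp hc hcp hs
    refine ⟨{y | ∃ k < p, c k = y}, ?_, ⟨c 0, 0, hp, rfl⟩, φ, hφ⟩
    rintro y ⟨k, hk, rfl⟩
    exact (hBY _ _ (hc k hk)).1
  | succ n ih =>
    intro B hBY hB hn
    by_cases hu : ∀ x ∈ I, ∀ z z', B x z → B x z' → z = z'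
    · by_cases hpc : PosCycles B w
      · exact Or.inr ⟨B, fun _ _ h => h, hB, fun _ _ _ h => h, hpc⟩
      left
      unfold PosCycles at hpc
      push Not at hpc
      obtain ⟨p, c, hp, hc, hcp, hs⟩ := hpc
      obtain ⟨φ, hφ⟩ := region_of_walk (I := I) (w := w) (B := B) hu hp hc hcp hs
      refine ⟨{y | ∃ k < p, c k = y}, ?_, ⟨c 0, 0, hp, rfl⟩, φ, hφ⟩
      rintro y ⟨k, hk, rfl⟩
      exact (hBY _ _ (hc k hk)).1
    push Not at hu
    obtain ⟨x, hxI, z1, z2, hz1, hz2, hne⟩ := hu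
    have hcard : ∀ (B1 : V → V → Prop) (z : V), (∀ y z, B1 y z → B y z) → B x z → ¬ B1 x z →
        {q : V × V | q.1 ∈ I ∧ B1 q.1 q.2}.ncard ≤ n := by
      intro B1 z hsub hxz hxz'
      have h1 : {q : V × V | q.1 ∈ I ∧ B1 q.1 q.2}.ncard <
          {q : V × V | q.1 ∈ I ∧ B q.1 q.2}.ncard := by
        refine Set.ncard_lt_ncard ⟨fun q hq => ⟨hq.1, hsub _ _ hq.2⟩, fun h => ?_⟩ (Set.toFinite _)
        exact hxz' (h (show (x, z) ∈ {q : V × V | q.1 ∈ I ∧ B q.1 q.2} from ⟨hxI, hxz⟩)).2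
      omega
    have IH1 := ih (fun y z => B y z ∧ (y = x → z = z1)) (fun y z h => hBY y z h.1)
      (fun y hy => by
        by_cases hyx : y = x
        · subst hyx
          exact ⟨z1, hz1, fun _ => rfl⟩
        · obtain ⟨z, hz⟩ := hB y hy
          exact ⟨z, hz, fun h => absurd h hyx⟩)
      (hcard (fun y z => B y z ∧ (y = x → z = z1)) z2 (fun _ _ h => h.1) hz2
        (fun h => hne (h.2 rfl).symm))
    have IH2 := ih (fun y z => B y z ∧ (y = x → z ≠ z1)) (fun y z h => hBY y z h.1)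
      (fun y hy => by
        by_cases hyx : y = x
        · subst hyx
          exact ⟨z2, hz2, fun _ h => hne h.symm⟩
        · obtain ⟨z, hz⟩ := hB y hy
          exact ⟨z, hz, fun h => absurd h hyx⟩)
      (hcard (fun y z => B y z ∧ (y = x → z ≠ z1)) z1 (fun _ _ h => h.1) hz1
        (fun h => h.2 rfl rfl))
    rcases IH1 with ⟨W1, hW1, hn1, φ1, h1⟩ | ⟨B', ha, hb, hc, hd⟩
    swap
    · refine Or.inr ⟨B', fun y z h => (ha y z h).1, hb, fun y hy z hz => hc y hy z ⟨hz, ?_⟩, hd⟩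
      rintro rfl
      exact absurd hxI hy
    rcases IH2 with ⟨W2, hW2, hn2, φ2, h2⟩ | ⟨B', ha, hb, hc, hd⟩
    swap
    · refine Or.inr ⟨B', fun y z h => (ha y z h).1, hb, fun y hy z hz => hc y hy z ⟨hz, ?_⟩, hd⟩
      rintro rfl
      exact absurd hxI hy
    left
    by_cases hx1 : x ∈ W1
    swap
    · refine ⟨W1, hW1, hn1, φ1, fun y hy hyI => ?_, fun y hy hyI z hz => ?_⟩
      · obtain ⟨z, hz, hz1, hz2⟩ := h1.1 y hy hyI
        exact ⟨z, hz, hz1.1, hz2⟩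
      · exact h1.2 y hy hyI z ⟨hz, fun h => absurd (h ▸ hy) hx1⟩
    by_cases hx2 : x ∈ W2
    swap
    · refine ⟨W2, hW2, hn2, φ2, fun y hy hyI => ?_, fun y hy hyI z hz => ?_⟩
      · obtain ⟨z, hz, hz1, hz2⟩ := h2.1 y hy hyI
        exact ⟨z, hz, hz1.1, hz2⟩
      · exact h2.2 y hy hyI z ⟨hz, fun h => absurd (h ▸ hy) hx2⟩
    obtain ⟨φ, hφ⟩ := region_union (B := B) h1 h2 hx1 hx2 (fun _ _ h => h.1) (fun _ _ h => h.1)
      (fun y z hyx h => ⟨h, fun h' => absurd h' hyx⟩)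
      (fun y z hyx h => ⟨h, fun h' => absurd h' hyx⟩)
      (fun z hz => by
        by_cases hzz : z = z1
        · exact Or.inl ⟨hz, fun _ => hzz⟩
        · exact Or.inr ⟨hz, fun _ => hzz⟩)
    exact ⟨W1 ∪ W2, Set.union_subset hW1 hW2, hn1.mono Set.subset_union_left, φ, hφ⟩

/-- **positional lemma** -/
theorem positional [Finite V] (Y : Set V) (I : Set V) (w : V → V → ℝ) (B : V → V → Prop)
    (hBY : ∀ y z, B y z → y ∈ Y ∧ z ∈ Y) (hB : ∀ y ∈ Y, ∃ z, B y z) :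
    (∃ W ⊆ Y, W.Nonempty ∧ ∃ φ : V → ℝ, PotRegion B I w W φ) ∨
    ∃ B' : V → V → Prop, (∀ y z, B' y z → B y z) ∧ (∀ y ∈ Y, ∃ z, B' y z) ∧
      (∀ y, y ∉ I → ∀ z, B y z → B' y z) ∧ PosCycles B' w :=
  positional_aux Y _ B hBY hB le_rfl

end

end Pool.Agent.SPE
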