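import Pool.Agent.SPE.Hist

/-!
# Probability lemmas for mean-payoff games (MP_061e18_lc)

* `lintegral_traj_le`: Fatou lemma for nonnegative supermartingales along the Ionescu-Tulcea process.
* measurability, bounds, integrability and Lipschitz dependence of the mean payoff.
* conversions between Lebesgue integrals of nonnegative functions and Bochner integrals.
* `Arena.IsEpsSPE.perturb`: perturbation of the rewards.
-/

open MeasureTheory ProbabilityTheory Filter
open scoped ENNReal

namespace SPE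

variable {V : Type} [Fintype V] [MeasurableSpace V] [MeasurableSingletonClass V]

instance histFinite (n : ℕ) : Finite (Hist V n) := inferInstanceAs (Finite (Finset.Iic n → V))

instance histMSC (n : ℕ) : MeasurableSingletonClass (Hist V n) :=
  inferInstanceAs (MeasurableSingletonClass (Finset.Iic n → V))

omit [Fintype V] [MeasurableSingletonClass V] in
theorem measurable_cut (n : ℕ) : Measurable (cut (V := V) n) :=
  measurable_pi_lambda _ fun k => measurable_pi_apply k.1

omit [Fintype V] [MeasurableSingletonClass V] in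
theorem map_cut (κ : (n : ℕ) → Kernel (Hist V n) V) [∀ n, IsMarkovKernel (κ n)]
    (a n : ℕ) (x0 : Hist V a) : (Kernel.traj (X := fun _ => V) κ a x0).map (cut n) =
        Kernel.partialTraj (X := fun _ => V) κ a n x0 := by
  have : (cut (V := V) n) = Preorder.frestrictLe n := rfl
  rw [this, Kernel.traj_map_frestrictLe_apply]

omit [Fintype V] in
theorem ae_cut (κ : (n : ℕ) → Kernel (Hist V n) V) [∀ n, IsMarkovKernel (κ n)]
    (a : ℕ) (x0 : Hist V a) :
    ∀ᵐ rho ∂(Kernel.traj (X := fun _ => V) κ a x0), cut a rho = x0 := by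
  have h1 := map_cut κ a a x0
  rw [Kernel.partialTraj_self, Kernel.id_apply] at h1
  have h2 : (Measure.dirac x0 : Measure (Hist V a)) {x0}ᶜ = 0 := by
    rw [Measure.dirac_apply' _ (measurableSet_singleton x0).compl]
    simp
  have h3 : (Kernel.traj (X := fun _ => V) κ a x0).map (cut a) {x0}ᶜ = 0 := by
    rw [h1]
    exact h2
  rw [Measure.map_apply (measurable_cut a) (measurableSet_singleton x0).compl] at h3
  rw [ae_iff]
  exact h3

theorem lintegral_traj_succ (κ : (n : ℕ) → Kernel (Hist V n) V) [∀ n, IsMarkovKernel (κ n)]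
    (n : ℕ) (y : Hist V n) (g : Hist V (n + 1) → ℝ≥0∞) :
    ∫⁻ rho, g (cut (n + 1) rho) ∂(Kernel.traj (X := fun _ => V) κ n y) =
      ∑ z, κ n y {z} * g (snoc y z) := by
  have h1 : ∫⁻ rho, g (cut (n + 1) rho) ∂(Kernel.traj (X := fun _ => V) κ n y) =
      ∫⁻ rho, g (snoc y (rho (n + 1))) ∂(Kernel.traj (X := fun _ => V) κ n y) := by
    refine lintegral_congr_ae ?_
    filter_upwards [ae_cut κ n y] with rho hrho
    congr 1
    rw [← hrho]
    funext k
    have hk := Finset.mem_Iic.1 k.2
    show rho k.1 = if h : k.1 ≤ n then rho k.1 else rho (n + 1)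
    by_cases h : k.1 ≤ n
    · rw [dif_pos h]
    · rw [dif_neg h]
      have : k.1 = n + 1 := by omega
      rw [this]
  have h2 : (Kernel.traj (X := fun _ => V) κ n y).map (fun x => x (n + 1)) = κ n y := by
    rw [← Kernel.map_apply _ (measurable_pi_apply (n + 1)), Kernel.map_traj_succ_self]
  rw [h1, ← lintegral_map (f := fun z => g (snoc y z)) (μ := Kernel.traj (X := fun _ => V) κ n y)
    (g := fun x : ℕ → V => x (n + 1)) (measurable_of_finite _) (measurable_pi_apply (n + 1)), h2,
    lintegral_fintype]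
  exact Finset.sum_congr rfl fun z _ => mul_comm _ _

/-- Fatou lemma for supermartingales -/
theorem lintegral_traj_le (κ : (n : ℕ) → Kernel (Hist V n) V) [∀ n, IsMarkovKernel (κ n)]
    (a : ℕ) (x0 : Hist V a) (Phi : (n : ℕ) → Hist V n → ℝ≥0∞)
    (hsup : ∀ (n : ℕ), a ≤ n → ∀ rho : ℕ → V, cut a rho = x0 →
      ∑ z, κ n (cut n rho) {z} * Phi (n + 1) (snoc (cut n rho) z) ≤ Phi n (cut n rho))
    (f : (ℕ → V) → ℝ≥0∞)
    (hle : ∀ rho, cut a rho = x0 → f rho ≤ liminf (fun n => Phi n (cut n rho)) atTop) :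
    ∫⁻ rho, f rho ∂(Kernel.traj (X := fun _ => V) κ a x0) ≤ Phi a x0 := by
  have hae := ae_cut κ a x0
  have step : ∀ n, a ≤ n →
      ∫⁻ rho, Phi (n + 1) (cut (n + 1) rho) ∂(Kernel.traj (X := fun _ => V) κ a x0) ≤
      ∫⁻ rho, Phi n (cut n rho) ∂(Kernel.traj (X := fun _ => V) κ a x0) := by
    intro n hn
    have hmap := map_cut κ a n x0
    have h1 : ∫⁻ rho, Phi (n + 1) (cut (n + 1) rho) ∂(Kernel.traj (X := fun _ => V) κ a x0) =
        ∫⁻ y, (∑ z, κ n y {z} * Phi (n + 1) (snoc y z))
          ∂(Kernel.partialTraj (X := fun _ => V) κ a n x0) := by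
      rw [← Kernel.traj_comp_partialTraj (X := fun _ => V) hn, Kernel.lintegral_comp]
      · exact lintegral_congr fun y => lintegral_traj_succ κ n y (Phi (n + 1))
      · exact (measurable_of_finite (Phi (n + 1))).comp (measurable_cut (n + 1))
    rw [h1, ← hmap, lintegral_map (measurable_of_finite _) (measurable_cut n)]
    refine lintegral_mono_ae ?_
    filter_upwards [hae] with rho hrho
    exact hsup n hn rho hrho
  have hall : ∀ n, a ≤ n →
      ∫⁻ rho, Phi n (cut n rho) ∂(Kernel.traj (X := fun _ => V) κ a x0) ≤ Phi a x0 := by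
    intro n hn
    induction n, hn using Nat.le_induction with
    | base =>
      have : ∫⁻ rho, Phi a (cut a rho) ∂(Kernel.traj (X := fun _ => V) κ a x0) =
          ∫⁻ _, Phi a x0 ∂(Kernel.traj (X := fun _ => V) κ a x0) := by
        refine lintegral_congr_ae ?_
        filter_upwards [hae] with rho hrho
        rw [hrho]
      rw [this, lintegral_const, measure_univ, mul_one]
    | succ n hn ih => exact (step n hn).trans ih
  calc ∫⁻ rho, f rho ∂(Kernel.traj (X := fun _ => V) κ a x0)
      ≤ ∫⁻ rho, liminf (fun n => Phi n (cut n rho)) atTop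
          ∂(Kernel.traj (X := fun _ => V) κ a x0) := by
        refine lintegral_mono_ae ?_
        filter_upwards [hae] with rho hrho
        exact hle rho hrho
    _ ≤ liminf (fun n => ∫⁻ rho, Phi n (cut n rho)
          ∂(Kernel.traj (X := fun _ => V) κ a x0)) atTop :=
        lintegral_liminf_le fun n => (measurable_of_finite (Phi n)).comp (measurable_cut n)
    _ ≤ Phi a x0 :=
        liminf_le_of_frequently_le' (eventually_atTop.2 ⟨a, fun n hn => hall n hn⟩).frequently

/-- partial averages -/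
theorem measurable_avg (r : V → V → ℝ) (n : ℕ) :
    Measurable fun rho : ℕ → V => (∑ k ∈ Finset.range n, r (rho k) (rho (k + 1))) / (n : ℝ) := by
  refine Measurable.div_const ?_ _
  refine Finset.measurable_sum _ fun k _ => ?_
  have h1 : Measurable fun p : V × V => r p.1 p.2 := measurable_of_finite _
  have h2 : Measurable fun rho : ℕ → V => (rho k, rho (k + 1)) :=
    (measurable_pi_apply k).prodMk (measurable_pi_apply (k + 1))
  exact h1.comp h2

/-- the mean payoff is measurable -/
theorem measurable_meanPayoff (r : V → V → ℝ) : Measurable (meanPayoff r) :=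
  Measurable.liminf fun n => measurable_avg r n

omit [Fintype V] [MeasurableSpace V] [MeasurableSingletonClass V] in
theorem abs_avg_le (r : V → V → ℝ) (M : ℝ) (hM : ∀ y z, |r y z| ≤ M) (rho : ℕ → V) (n : ℕ) :
    |(∑ k ∈ Finset.range n, r (rho k) (rho (k + 1))) / (n : ℝ)| ≤ M := by
  have hM0 : 0 ≤ M := (abs_nonneg _).trans (hM (rho 0) (rho 0))
  rw [abs_div, Nat.abs_cast]
  refine div_le_of_le_mul₀ (Nat.cast_nonneg n) hM0 ?_
  refine (Finset.abs_sum_le_sum_abs _ _).trans ?_
  refine (Finset.sum_le_sum fun k _ => hM (rho k) (rho (k + 1))).trans ?_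
  rw [Finset.sum_const, Finset.card_range, nsmul_eq_mul, mul_comm]

omit [Fintype V] [MeasurableSpace V] [MeasurableSingletonClass V] in
/-- bounds of the mean payoff -/
theorem abs_meanPayoff_le (r : V → V → ℝ) (M : ℝ) (hM : ∀ y z, |r y z| ≤ M) (rho : ℕ → V) :
    |meanPayoff r rho| ≤ M := by
  have h := abs_avg_le r M hM rho
  rw [abs_le]
  have hb : IsBoundedUnder (· ≤ ·) atTop
      (fun n : ℕ => (∑ k ∈ Finset.range n, r (rho k) (rho (k + 1))) / (n : ℝ)) :=
    isBoundedUnder_of ⟨M, fun n => (abs_le.1 (h n)).2⟩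
  have hb' : IsBoundedUnder (· ≥ ·) atTop
      (fun n : ℕ => (∑ k ∈ Finset.range n, r (rho k) (rho (k + 1))) / (n : ℝ)) :=
    isBoundedUnder_of ⟨-M, fun n => (abs_le.1 (h n)).1⟩
  constructor
  · exact le_liminf_of_le hb.isCoboundedUnder_ge (Eventually.of_forall fun n => (abs_le.1 (h n)).1)
  · exact liminf_le_of_frequently_le (Frequently.of_forall fun n => (abs_le.1 (h n)).2) hb'

omit [MeasurableSpace V] [MeasurableSingletonClass V] in
theorem exists_bound (r : V → V → ℝ) : ∃ M, ∀ y z, |r y z| ≤ M := by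
  refine ⟨∑ y, ∑ z, |r y z|, fun y z => ?_⟩
  refine (Finset.single_le_sum (f := fun z => |r y z|) (fun _ _ => abs_nonneg _)
    (Finset.mem_univ z)).trans ?_
  exact Finset.single_le_sum (f := fun y => ∑ z, |r y z|)
    (fun _ _ => Finset.sum_nonneg fun _ _ => abs_nonneg _) (Finset.mem_univ y)

theorem integrable_meanPayoff (r : V → V → ℝ) (mu : Measure (ℕ → V)) [IsProbabilityMeasure mu] :
    Integrable (meanPayoff r) mu := by
  obtain ⟨M, hM⟩ := exists_bound r
  refine Integrable.of_bound (measurable_meanPayoff r).aestronglyMeasurable M ?_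
  exact Eventually.of_forall fun rho => abs_meanPayoff_le r M hM rho

omit [MeasurableSpace V] [MeasurableSingletonClass V] in
/-- the mean payoff depends on the rewards in a 1-Lipschitz way -/
theorem meanPayoff_le_add (r r' : V → V → ℝ) (e : ℝ) (h : ∀ y z, r y z ≤ r' y z + e)
    (rho : ℕ → V) : meanPayoff r rho ≤ meanPayoff r' rho + e := by
  obtain ⟨M, hM⟩ := exists_bound r
  obtain ⟨M', hM'⟩ := exists_bound r'
  have hb : IsBoundedUnder (· ≥ ·) atTop
      (fun n : ℕ => (∑ k ∈ Finset.range n, r (rho k) (rho (k + 1))) / (n : ℝ)) :=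
    isBoundedUnder_of ⟨-M, fun n => (abs_le.1 (abs_avg_le r M hM rho n)).1⟩
  have hb1 : IsBoundedUnder (· ≤ ·) atTop
      (fun n : ℕ => (∑ k ∈ Finset.range n, r' (rho k) (rho (k + 1))) / (n : ℝ)) :=
    isBoundedUnder_of ⟨M', fun n => (abs_le.1 (abs_avg_le r' M' hM' rho n)).2⟩
  have hb2 : IsBoundedUnder (· ≥ ·) atTop
      (fun n : ℕ => (∑ k ∈ Finset.range n, r' (rho k) (rho (k + 1))) / (n : ℝ)) :=
    isBoundedUnder_of ⟨-M', fun n => (abs_le.1 (abs_avg_le r' M' hM' rho n)).1⟩
  have hb3 : IsBoundedUnder (· ≤ ·) atTop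
      (fun n : ℕ => (∑ k ∈ Finset.range n, r' (rho k) (rho (k + 1))) / (n : ℝ) + e) :=
    isBoundedUnder_of ⟨M' + e, fun n =>
      add_le_add_left (abs_le.1 (abs_avg_le r' M' hM' rho n)).2 e⟩
  unfold meanPayoff
  rw [← liminf_add_const atTop _ e hb1.isCoboundedUnder_ge hb2]
  refine liminf_le_liminf ?_ hb hb3.isCoboundedUnder_ge
  refine eventually_atTop.2 ⟨1, fun n hn => ?_⟩
  have hn0 : (0 : ℝ) < n := by exact_mod_cast hn
  rw [div_le_iff₀ hn0, add_mul, div_mul_cancel₀ _ hn0.ne']
  calc ∑ k ∈ Finset.range n, r (rho k) (rho (k + 1))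
      ≤ ∑ k ∈ Finset.range n, (r' (rho k) (rho (k + 1)) + e) :=
        Finset.sum_le_sum fun k _ => h _ _
    _ = _ := by
        rw [Finset.sum_add_distrib, Finset.sum_const, Finset.card_range, nsmul_eq_mul, mul_comm]

theorem integral_le_of_lintegral (r : V → V → ℝ) (mu : Measure (ℕ → V)) [IsProbabilityMeasure mu]
    (M c : ℝ) (hM : ∀ y z, |r y z| ≤ M)
    (h : ∫⁻ rho, ENNReal.ofReal (meanPayoff r rho + M) ∂mu ≤ ENNReal.ofReal (c + M)) (hc : 0 ≤ c + M) :
    ∫ rho, meanPayoff r rho ∂mu ≤ c := by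
  have hi := integrable_meanPayoff r mu
  have h1 : ∫ rho, (meanPayoff r rho + M) ∂mu = ∫ rho, meanPayoff r rho ∂mu + M := by
    rw [integral_add hi (integrable_const M)]
    simp
  have h2 : ∫ rho, (meanPayoff r rho + M) ∂mu ≤ c + M := by
    rw [integral_eq_lintegral_of_nonneg_ae
      (Eventually.of_forall fun rho => by
        have := (abs_le.1 (abs_meanPayoff_le r M hM rho)).1
        show 0 ≤ meanPayoff r rho + M
        linarith)
      (((measurable_meanPayoff r).add_const M).aestronglyMeasurable)]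
    exact ENNReal.toReal_le_of_le_ofReal hc h
  linarith

theorem le_integral_of_lintegral (r : V → V → ℝ) (mu : Measure (ℕ → V)) [IsProbabilityMeasure mu]
    (M c : ℝ) (hM : ∀ y z, |r y z| ≤ M)
    (h : ∫⁻ rho, ENNReal.ofReal (M - meanPayoff r rho) ∂mu ≤ ENNReal.ofReal (M - c)) (hc : 0 ≤ M - c) :
    c ≤ ∫ rho, meanPayoff r rho ∂mu := by
  have hi := integrable_meanPayoff r mu
  have h1 : ∫ rho, (M - meanPayoff r rho) ∂mu = M - ∫ rho, meanPayoff r rho ∂mu := by
    rw [integral_sub (integrable_const M) hi]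
    simp
  have h2 : ∫ rho, (M - meanPayoff r rho) ∂mu ≤ M - c := by
    rw [integral_eq_lintegral_of_nonneg_ae
      (Eventually.of_forall fun rho => by
        have := (abs_le.1 (abs_meanPayoff_le r M hM rho)).2
        show 0 ≤ M - meanPayoff r rho
        linarith)
      (((measurable_meanPayoff r).const_sub M).aestronglyMeasurable)]
    exact ENNReal.toReal_le_of_le_ofReal hc h
  linarith

variable {P : Type}

instance law_prob (G : Arena V P) (s : P → Beh V) {n : ℕ} (x : Hist V n) :
    IsProbabilityMeasure (G.law s x) := by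
  unfold Arena.law
  infer_instance

theorem integral_meanPayoff_le_add (r r' : V → V → ℝ) (e : ℝ) (h : ∀ y z, r y z ≤ r' y z + e)
    (mu : Measure (ℕ → V)) [IsProbabilityMeasure mu] :
    ∫ rho, meanPayoff r rho ∂mu ≤ ∫ rho, meanPayoff r' rho ∂mu + e := by
  have h1 : ∫ rho, (meanPayoff r' rho + e) ∂mu = ∫ rho, meanPayoff r' rho ∂mu + e := by
    rw [integral_add (integrable_meanPayoff r' mu) (integrable_const e)]
    simp
  rw [← h1]
  exact integral_mono (integrable_meanPayoff r mu)
    ((integrable_meanPayoff r' mu).add (integrable_const e)) fun rho => meanPayoff_le_add r r' e h rho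

variable [DecidableEq P]

/-- perturbation of the rewards -/
theorem Arena.IsEpsSPE.perturb (G : Arena V P) (r r' : P → V → V → ℝ) (v0 : V) (ε e : ℝ)
    (h : ∀ i y z, |r i y z - r' i y z| ≤ e) (s : P → Beh V) (hs : G.IsEpsSPE r' v0 ε s) :
    G.IsEpsSPE r v0 (ε + 2 * e) s := by
  refine ⟨hs.1, fun n x hx i t ht => ?_⟩
  have h0 := hs.2 n x hx i t ht
  have h1 := integral_meanPayoff_le_add (r i) (r' i) e
    (fun y z => by have := (abs_le.1 (h i y z)).2; linarith) (G.law (Function.update s i t) x)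
  have h2 := integral_meanPayoff_le_add (r' i) (r i) e
    (fun y z => by have := (abs_le.1 (h i y z)).1; linarith) (G.law s x)
  linarith

end SPE
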