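import Pool.Agent.SPE.Sys

/-!
# Region calculus, positional plans, Lemma A (MP_061e18_lc)
-/

namespace SPE

open Pool.Agent.SPE

variable {V P : Type} {G : Arena V P} {r : P → V → V → ℝ} {O : OutSys G r}

/-! ### Alive -/

section Alive
variable {N : Set V} {A : V → V → Prop} {Ex : V → V → O.Om → Prop} {a a' : V → WithBot ℝ}
  {C : O.Om} {y : V}

theorem Alive.lt (h : Alive O N A Ex a C y) : a y < (O.u (G.owner y) C : WithBot ℝ) := by
  cases h with
  | cyc _ hy h => exact (h y hy).2.1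
  | exit _ z hy ha h => exact ha
  | step _ z hy ha h hz => exact ha

theorem Alive.mem (h : Alive O N A Ex a C y) : y ∈ N := by
  cases h with
  | cyc _ hy h => exact (h y hy).1
  | exit _ z hy ha h => exact hy
  | step _ z hy ha h hz => exact hy

theorem Alive.mono (haa : ∀ x, a x ≤ a' x) (h : Alive O N A Ex a' C y) :
    Alive O N A Ex a C y := by
  induction h with
  | cyc y hy h => exact .cyc y hy fun x hx => ⟨(h x hx).1, (haa x).trans_lt (h x hx).2.1, (h x hx).2.2⟩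
  | exit y z hy ha h => exact .exit y z hy ((haa y).trans_lt ha) h
  | step y z hy ha h hz ih => exact .step y z hy ((haa y).trans_lt ha) h ih

theorem alive_of_sub {D : Set V} {AD : V → V → Prop} {ExD : V → V → O.Om → Prop}
    (hN : ∀ x ∈ D, x ∈ N) (hA : ∀ y z, AD y z → A y z)
    (hEx : ∀ y z, ExD y z C → Ex y z C ∨ (A y z ∧ Alive O N A Ex a C z))
    (h : Alive O D AD ExD a C y) : Alive O N A Ex a C y := by
  induction h with
  | cyc y hy h => exact .cyc y hy fun x hx => ⟨hN _ (h x hx).1, (h x hx).2.1, hA _ _ (h x hx).2.2⟩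
  | exit y z hy ha h =>
    rcases hEx y z h with h1 | ⟨h1, h2⟩
    · exact .exit y z (hN _ hy) ha h1
    · exact .step y z (hN _ hy) ha h1 h2
  | step y z hy ha h hz ih => exact .step y z (hN _ hy) ha (hA _ _ h) ih

theorem Alive.via (hA : ∀ y z, A y z → G.adj y z)
    (hEx : ∀ y z, Ex y z C → G.adj y z ∧ Via O a C z) (h : Alive O N A Ex a C y) :
    Via O a C y :=
  alive_of_sub (fun _ _ => Set.mem_univ _) hA (fun y z h => Or.inr (hEx y z h)) h

/-- an outcome which is available occurs at an exit or is a cycle -/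
theorem Alive.occurs (h : Alive O N A Ex a C y) :
    (∃ y z, Ex y z C) ∨ ∀ y ∈ O.cyc C, A y (O.nx C y) := by
  induction h with
  | cyc y hy h => exact Or.inr fun x hx => (h x hx).2.2
  | exit y z hy ha h => exact Or.inl ⟨y, z, h⟩
  | step y z hy ha h hz ih => exact ih

/-- what happens to an available outcome if the bounds are raised -/
theorem Alive.raise (h : Alive O N A Ex a C y) :
    Alive O N A Ex a' C y ∨ ∃ x ∈ N, Alive O N A Ex a C x ∧
      ¬ (a' x < (O.u (G.owner x) C : WithBot ℝ)) := by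
  induction h with
  | cyc y hy h =>
    by_cases h1 : ∀ x ∈ O.cyc C, a' x < (O.u (G.owner x) C : WithBot ℝ)
    · exact Or.inl (.cyc y hy fun x hx => ⟨(h x hx).1, h1 x hx, (h x hx).2.2⟩)
    · push Not at h1
      obtain ⟨x, hx, h2⟩ := h1
      exact Or.inr ⟨x, (h x hx).1, .cyc x hx h, not_lt.2 h2⟩
  | exit y z hy ha h =>
    by_cases h1 : a' y < (O.u (G.owner y) C : WithBot ℝ)
    · exact Or.inl (.exit y z hy h1 h)
    · exact Or.inr ⟨y, hy, .exit y z hy ha h, h1⟩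
  | step y z hy ha h hz ih =>
    rcases ih with ih | ih
    · by_cases h1 : a' y < (O.u (G.owner y) C : WithBot ℝ)
      · exact Or.inl (.step y z hy h1 h ih)
      · exact Or.inr ⟨y, hy, .step y z hy ha h hz, h1⟩
    · exact Or.inr ih

/-- the next vertex -/
theorem Alive.next (h : Alive O N A Ex a C y) :
    (∃ z, A y z ∧ z ∈ N) ∨ ∃ z, Ex y z C := by
  cases h with
  | cyc _ hy h => exact Or.inl ⟨O.nx C y, (h y hy).2.2, (h _ (O.nx_mem C y hy)).1⟩
  | exit _ z hy ha h => exact Or.inr ⟨z, h⟩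
  | step _ z hy ha h hz => exact Or.inl ⟨z, h, hz.mem⟩

end Alive

section Upd
variable {a : V → WithBot ℝ} {i : P} {C : O.Om}

theorem le_upd (x : V) : a x ≤ upd O a i C x := by
  unfold upd
  split_ifs
  · exact le_max_left _ _
  · exact le_rfl

theorem upd_of_notMem {x : V} (hx : x ∉ XX O a i C) : upd O a i C x = a x := by
  unfold upd
  rw [if_neg hx]

theorem upd_of_mem {x : V} (hx : x ∈ XX O a i C) :
    upd O a i C x = max (a x) (O.u i C : WithBot ℝ) := by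
  unfold upd
  rw [if_pos hx]

theorem Via.lt {a : V → WithBot ℝ} {C : O.Om} {y : V} (h : Via O a C y) :
    a y < (O.u (G.owner y) C : WithBot ℝ) := Alive.lt h

theorem Via.mono {a a' : V → WithBot ℝ} (haa : ∀ x, a x ≤ a' x) {C : O.Om} {y : V}
    (h : Via O a' C y) : Via O a C y := Alive.mono haa h

theorem Via.cons {a : V → WithBot ℝ} {C : O.Om} {y z : V} (h : Via O a C z)
    (hyz : G.adj y z) (hy : a y < (O.u (G.owner y) C : WithBot ℝ)) : Via O a C y :=
  .step y z (Set.mem_univ _) hy hyz h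

end Upd

/-! ### Regions -/

section Region
variable {a : V → WithBot ℝ} {i : P} {C : O.Om}

theorem RegAt.imp {W1 W W1' W' : Set V} {φ φ' : V → ℝ} {y : V} (h : RegAt O a i C W1 W φ y)
    (himp : ∀ z, G.adj y z → (z ∈ W1 ∨ (z ∈ W ∧ r i y z - O.u i C + φ z ≤ φ y)) →
      (z ∈ W1' ∨ (z ∈ W' ∧ r i y z - O.u i C + φ' z ≤ φ' y))) :
    RegAt O a i C W1' W' φ' y := by
  refine ⟨h.1, ?_⟩
  rcases h.2 with ⟨h1, h2 | ⟨z, h2, h3⟩⟩ | ⟨h1, ⟨z, h2, h3⟩, h4⟩
  · exact Or.inl ⟨h1, Or.inl h2⟩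
  · exact Or.inl ⟨h1, Or.inr ⟨z, h2, himp z h2 h3⟩⟩
  · refine Or.inr ⟨h1, ⟨z, h2, himp z h2 h3⟩, fun z hz => ?_⟩
    rcases h4 z hz with h5 | h5
    · exact Or.inl h5
    · exact Or.inr (himp z hz h5)

theorem region_ext [Finite V] {W1 W2 : Set V} {φ1 φ2 : V → ℝ} (h1 : Region O a i C W1 φ1)
    (h2 : ∀ y ∈ W2, RegAt O a i C W1 W2 φ2 y) : ∃ φ, Region O a i C (W1 ∪ W2) φ := by
  classical
  obtain ⟨B, hB⟩ : ∃ B : ℝ, ∀ y z, r i y z - O.u i C + φ1 z - φ2 y ≤ B := by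
    obtain ⟨B, hB⟩ := (Set.finite_range fun q : V × V =>
      r i q.1 q.2 - O.u i C + φ1 q.2 - φ2 q.1).bddAbove
    exact ⟨B, fun y z => hB ⟨(y, z), rfl⟩⟩
  let φ : V → ℝ := fun y => if y ∈ W1 then φ1 y else φ2 y + B
  have e1 : ∀ y ∈ W1, φ y = φ1 y := fun y hy => if_pos hy
  have e2 : ∀ y, y ∉ W1 → φ y = φ2 y + B := fun y hy => if_neg hy
  refine ⟨φ, fun y hy => ?_⟩
  by_cases hy1 : y ∈ W1
  · refine (h1 y hy1).imp fun z hz h3 => ?_
    rcases h3 with h3 | ⟨h3, h4⟩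
    · exact absurd h3 (Set.notMem_empty _)
    · right
      rw [e1 y hy1, e1 z h3]
      exact ⟨Or.inl h3, h4⟩
  · have hy2 : y ∈ W2 := hy.resolve_left hy1
    refine (h2 y hy2).imp fun z hz h3 => ?_
    right
    rw [e2 y hy1]
    by_cases hz1 : z ∈ W1
    · rw [e1 z hz1]
      refine ⟨Or.inl hz1, ?_⟩
      have := hB y z
      linarith
    · rcases h3 with h3 | ⟨h3, h4⟩
      · exact absurd h3 hz1
      · rw [e2 z hz1]
        refine ⟨Or.inr h3, ?_⟩
        linarith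

theorem region_union' [Finite V] {W1 W2 : Set V} {φ1 φ2 : V → ℝ}
    (h1 : Region O a i C W1 φ1) (h2 : Region O a i C W2 φ2) :
    ∃ φ, Region O a i C (W1 ∪ W2) φ :=
  region_ext h1 fun y hy => (h2 y hy).imp fun _ _ h3 =>
    h3.elim (fun h => absurd h (Set.notMem_empty _)) Or.inr

/-- the union of all regions is a region -/
theorem win_region [Finite V] (a : V → WithBot ℝ) (i : P) (C : O.Om) :
    ∃ φ, Region O a i C (Win O a i C) φ := by
  obtain ⟨W0, ⟨φ0, h0⟩, hmax⟩ := Set.exists_max_image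
    {W : Set V | ∃ φ, Region O a i C W φ} (fun W => W.ncard) (Set.toFinite _)
    ⟨∅, fun _ => 0, fun y hy => absurd hy (Set.notMem_empty _)⟩
  have hsub : ∀ W φ, Region O a i C W φ → W ⊆ W0 := by
    intro W φ hW
    have h1 : (W0 ∪ W).ncard ≤ W0.ncard := hmax _ (region_union' h0 hW)
    have h2 : W0 = W0 ∪ W :=
      Set.eq_of_subset_of_ncard_le Set.subset_union_left h1 (Set.toFinite _)
    rw [h2]
    exact Set.subset_union_right
  have h3 : Win O a i C = W0 := by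
    ext y
    constructor
    · rintro ⟨W, φ, hW, hy⟩
      exact hsub W φ hW hy
    · intro hy
      exact ⟨W0, φ0, h0, hy⟩
  rw [h3]
  exact ⟨φ0, h0⟩

theorem subset_win [Finite V] {W : Set V} {φ : V → ℝ}
    (h : ∀ y ∈ W, RegAt O a i C (Win O a i C) W φ y) : W ⊆ Win O a i C := by
  obtain ⟨φ0, h0⟩ := win_region (O := O) a i C
  obtain ⟨φ1, h1⟩ := region_ext h0 h
  intro y hy
  exact ⟨_, φ1, h1, Or.inr hy⟩

theorem win_via' [Finite V] {y : V} (h : y ∈ Win O a i C) : Via O a C y := by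
  obtain ⟨φ0, h0⟩ := win_region (O := O) a i C
  exact (h0 y h).1

/-- one vertex at a time -/
theorem mem_win [Finite V] {y : V} (hv : Via O a C y)
    (h : (G.owner y ≠ i ∧ (Leak O a i C y ∨ ∃ z, G.adj y z ∧ z ∈ Win O a i C)) ∨
      (G.owner y = i ∧ (∃ z, G.adj y z ∧ z ∈ Win O a i C) ∧
        ∀ z, G.adj y z → Low O a i C z ∨ z ∈ Win O a i C)) : y ∈ Win O a i C := by
  refine subset_win (W := {y}) (φ := fun _ => 0) ?_ (Set.mem_singleton _)
  rintro y' rfl
  refine ⟨hv, ?_⟩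
  rcases h with ⟨h1, h2 | ⟨z, h2, h3⟩⟩ | ⟨h1, ⟨z, h2, h3⟩, h4⟩
  · exact Or.inl ⟨h1, Or.inl h2⟩
  · exact Or.inl ⟨h1, Or.inr ⟨z, h2, Or.inl h3⟩⟩
  · exact Or.inr ⟨h1, ⟨z, h2, Or.inl h3⟩, fun z hz => (h4 z hz).imp id Or.inl⟩

theorem not_wit {w : V} (h : ¬ Wit O a i C w) : Low O a i C w ∨ w ∈ Win O a i C := by
  by_contra hc
  push Not at hc
  exact h ⟨hc.1, hc.2⟩

theorem low_or_win_of_notMem {y z : V} (hy : G.owner y = i) (hX : y ∉ XX O a i C)
    (hz : G.adj y z) : Low O a i C z ∨ z ∈ Win O a i C :=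
  not_wit fun hw => hX ⟨hy, z, hz, hw⟩

end Region

/-! ### Positional plans -/

/-- `y` reaches the cycle in `n` steps -/
inductive ViaN (O : OutSys G r) (a : V → WithBot ℝ) (C : O.Om) : ℕ → V → Prop
  | zero (y : V) (hy : y ∈ O.cyc C)
      (h : ∀ x ∈ O.cyc C, a x < (O.u (G.owner x) C : WithBot ℝ)) : ViaN O a C 0 y
  | succ (n : ℕ) (y z : V) (ha : a y < (O.u (G.owner y) C : WithBot ℝ)) (h : G.adj y z)
      (hz : ViaN O a C n z) : ViaN O a C (n + 1) y

section Plan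
variable {a : V → WithBot ℝ} {C : O.Om}

theorem ViaN.via {n : ℕ} {y : V} (h : ViaN O a C n y) : Via O a C y := by
  induction h with
  | zero y hy h => exact .cyc y hy fun x hx => ⟨Set.mem_univ _, h x hx, O.nx_adj C x hx⟩
  | succ n y z ha h hz ih => exact .step y z (Set.mem_univ _) ha h ih

theorem Via.exists_n {y : V} (h : Via O a C y) : ∃ n, ViaN O a C n y := by
  induction h with
  | cyc y hy h => exact ⟨0, .zero y hy fun x hx => (h x hx).2.1⟩
  | exit y z hy ha h => exact absurd h id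
  | step y z hy ha h hz ih =>
    obtain ⟨n, hn⟩ := ih
    exact ⟨n + 1, .succ n y z ha h hn⟩

theorem Via.cyc_lt {y : V} (h : Via O a C y) :
    ∀ x ∈ O.cyc C, a x < (O.u (G.owner x) C : WithBot ℝ) := by
  induction h with
  | cyc y hy h => exact fun x hx => (h x hx).2.1
  | exit y z hy ha h => exact absurd h id
  | step y z hy ha h hz ih => exact ih

theorem Via.of_cyc {y x : V} (h : Via O a C y) (hx : x ∈ O.cyc C) : Via O a C x :=
  .cyc x hx fun x' hx' => ⟨Set.mem_univ _, h.cyc_lt x' hx', O.nx_adj C x' hx'⟩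

/-- the positional plan: shortest path to the cycle, then around -/
theorem exists_plan (O : OutSys G r) (a : V → WithBot ℝ) (C : O.Om) :
    ∃ (nxt : V → V) (d : V → ℕ), ∀ y, Via O a C y → G.adj y (nxt y) ∧ Via O a C (nxt y) ∧
      ((y ∈ O.cyc C ∧ nxt y = O.nx C y) ∨ (y ∉ O.cyc C ∧ d (nxt y) < d y)) := by
  classical
  let d : V → ℕ := fun y => if h : ∃ n, ViaN O a C n y then Nat.find h else 0
  have hd : ∀ y (h : ∃ n, ViaN O a C n y), ViaN O a C (d y) y := by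
    intro y h
    have : d y = Nat.find h := dif_pos h
    rw [this]
    exact Nat.find_spec h
  have hd' : ∀ y n, ViaN O a C n y → d y ≤ n := by
    intro y n h
    have : d y = Nat.find ⟨n, h⟩ := dif_pos ⟨n, h⟩
    rw [this]
    exact Nat.find_min' _ h
  have key : ∀ y, ∃ z, Via O a C y → G.adj y z ∧ Via O a C z ∧
      ((y ∈ O.cyc C ∧ z = O.nx C y) ∨ (y ∉ O.cyc C ∧ d z < d y)) := by
    intro y
    by_cases hy : Via O a C y
    swap
    · exact ⟨y, fun h => absurd h hy⟩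
    by_cases hc : y ∈ O.cyc C
    · exact ⟨O.nx C y, fun _ => ⟨O.nx_adj C y hc, hy.of_cyc (O.nx_mem C y hc),
        Or.inl ⟨hc, rfl⟩⟩⟩
    · have h1 := hd y hy.exists_n
      obtain ⟨m, hm⟩ : ∃ m, m = d y := ⟨_, rfl⟩
      rw [← hm] at h1
      cases h1 with
      | zero _ hy h => exact absurd hy hc
      | succ n _ z ha h hz =>
        refine ⟨z, fun _ => ⟨h, hz.via, Or.inr ⟨hc, ?_⟩⟩⟩
        have := hd' z n hz
        omega
  choose nxt hnxt using key
  exact ⟨nxt, d, hnxt⟩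

/-- potential of a positional plan, for general weights `w` -/
theorem plan_pot_gen [Finite V] {nxt : V → V} {d : V → ℕ}
    (h : ∀ y, Via O a C y → G.adj y (nxt y) ∧ Via O a C (nxt y) ∧
      ((y ∈ O.cyc C ∧ nxt y = O.nx C y) ∨ (y ∉ O.cyc C ∧ d (nxt y) < d y)))
    (w : V → V → ℝ) (ψ0 : V → ℝ) (h0 : ∀ y ∈ O.cyc C, w y (O.nx C y) + ψ0 (O.nx C y) ≤ ψ0 y) :
    ∃ ψ : V → ℝ, ∀ y, Via O a C y → w y (nxt y) + ψ (nxt y) ≤ ψ y := by
  classical
  obtain ⟨M, hM⟩ : ∃ M : ℝ, ∀ y, ψ0 y ≤ M := by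
    obtain ⟨M, hM⟩ := (Set.finite_range ψ0).bddAbove
    exact ⟨M, fun y => hM ⟨y, rfl⟩⟩
  obtain ⟨K0, hK0⟩ : ∃ K : ℝ, ∀ y z, w y z ≤ K := by
    obtain ⟨K, hK⟩ := (Set.finite_range fun q : V × V => w q.1 q.2).bddAbove
    exact ⟨K, fun y z => hK ⟨(y, z), rfl⟩⟩
  obtain ⟨K, hK, hKpos⟩ : ∃ K : ℝ, (∀ y z, w y z ≤ K) ∧ 0 ≤ K :=
    ⟨max K0 0, fun y z => (hK0 y z).trans (le_max_left _ _), le_max_right _ _⟩
  let ψ : V → ℝ := fun y => if y ∈ O.cyc C then ψ0 y else M + K * d y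
  have e1 : ∀ y ∈ O.cyc C, ψ y = ψ0 y := fun y hy => if_pos hy
  have e2 : ∀ y, y ∉ O.cyc C → ψ y = M + K * d y := fun y hy => if_neg hy
  refine ⟨ψ, fun y hy => ?_⟩
  obtain ⟨h1, h2, h3⟩ := h y hy
  rcases h3 with ⟨h3, h4⟩ | ⟨h3, h4⟩
  · rw [h4, e1 y h3, e1 _ (O.nx_mem C y h3)]
    exact h0 y h3
  · rw [e2 y h3]
    have h5 := hK y (nxt y)
    have h6 : ((d (nxt y) : ℕ) : ℝ) + 1 ≤ d y := by exact_mod_cast h4
    by_cases hc : nxt y ∈ O.cyc C
    · rw [e1 _ hc]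
      have h7 := hM (nxt y)
      have h8 : (0 : ℝ) ≤ d (nxt y) := Nat.cast_nonneg _
      nlinarith
    · rw [e2 _ hc]
      nlinarith

/-- potential of a positional plan -/
theorem plan_pot [Finite V] {nxt : V → V} {d : V → ℕ}
    (h : ∀ y, Via O a C y → G.adj y (nxt y) ∧ Via O a C (nxt y) ∧
      ((y ∈ O.cyc C ∧ nxt y = O.nx C y) ∨ (y ∉ O.cyc C ∧ d (nxt y) < d y))) (i : P) :
    ∃ ψ : V → ℝ, ∀ y, Via O a C y → r i y (nxt y) - O.u i C + ψ (nxt y) ≤ ψ y := by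
  obtain ⟨ψ0, h0⟩ := O.pot i C
  exact plan_pot_gen h (fun y z => r i y z - O.u i C) ψ0 fun y hy => (h0 y hy).le

/-- lower potential of a positional plan -/
theorem plan_pot' [Finite V] {nxt : V → V} {d : V → ℕ}
    (h : ∀ y, Via O a C y → G.adj y (nxt y) ∧ Via O a C (nxt y) ∧
      ((y ∈ O.cyc C ∧ nxt y = O.nx C y) ∨ (y ∉ O.cyc C ∧ d (nxt y) < d y))) (i : P) :
    ∃ ψ : V → ℝ, ∀ y, Via O a C y → O.u i C - r i y (nxt y) + ψ (nxt y) ≤ ψ y := by
  obtain ⟨ψ0, h0⟩ := O.pot i C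
  refine plan_pot_gen h (fun y z => O.u i C - r i y z) (fun y => - ψ0 y) fun y hy => ?_
  have := h0 y hy
  linarith

end Plan

/-! ### Lemma A -/

section LemA
variable {a : V → WithBot ℝ} {i : P} {C : O.Om}

theorem notMem_XX_of_lt {y : V} (hy : G.owner y = i)
    (h : upd O a i C y < (O.u (G.owner y) C : WithBot ℝ)) : y ∉ XX O a i C := by
  intro hX
  rw [upd_of_mem hX, hy] at h
  exact absurd ((le_max_right _ _).trans_lt h) (lt_irrefl _)

variable [Finite V]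

theorem lemmaA {z : V} (h : Via O (upd O a i C) C z) : z ∈ Win O a i C := by
  obtain ⟨nxt, d, hp⟩ := exists_plan O (upd O a i C) C
  obtain ⟨ψ, hψ⟩ := plan_pot hp i
  have h1 : {z | Via O (upd O a i C) C z} ⊆ Win O a i C := by
    refine subset_win (φ := ψ) fun y hy => ?_
    have hy' : Via O (upd O a i C) C y := hy
    obtain ⟨h1, h2, -⟩ := hp y hy'
    refine ⟨hy'.mono le_upd, ?_⟩
    by_cases ho : G.owner y = i
    · refine Or.inr ⟨ho, ⟨nxt y, h1, Or.inr ⟨h2, hψ y hy'⟩⟩, fun z hz => ?_⟩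
      rcases low_or_win_of_notMem ho (notMem_XX_of_lt ho hy'.lt) hz with h5 | h5
      · exact Or.inl h5
      · exact Or.inr (Or.inl h5)
    · exact Or.inl ⟨ho, Or.inr ⟨nxt y, h1, Or.inr ⟨h2, hψ y hy'⟩⟩⟩
  exact h1 h

theorem wit_lt {w : V} {F : O.Om} (hw : Wit O a i C w) (hF : Via O (upd O a i C) F w) :
    O.u i C < O.u i F := by
  have h1 : Via O a F w := hF.mono le_upd
  have h2 : ¬ O.u i F < O.u i C := fun h => hw.1 ⟨F, h1, h⟩
  rcases lt_or_eq_of_le (not_lt.1 h2) with h3 | h3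
  · exact h3
  · have h4 : C = F := O.inj i h3
    subst h4
    exact absurd (lemmaA hF) hw.2

end LemA

end SPE
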