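import Pool.Agent.SPE.Upper
import Pool.Agent.SPE.Lower
import Pool.Agent.SPE.Prob

/-!
# A blueprint gives randomized eps-SPEs (MP_061e18_lc)
-/

open MeasureTheory ProbabilityTheory Filter Topology
open scoped Classical ENNReal

namespace SPE

theorem Arena.IsHist.of_init {V P : Type} {G : Arena V P} {v0 : V} {n : ℕ} {x : Hist V (n + 1)}
    (h : G.IsHist v0 (initOf x)) (ha : G.adj (lastOf (initOf x)) (lastOf x)) : G.IsHist v0 x := by
  refine ⟨h.1, fun k hk => ?_⟩
  rcases Nat.lt_succ_iff_lt_or_eq.1 hk with h1 | h1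
  · exact h.2 k h1
  · subst h1
    exact ha

theorem step_apply {V P : Type} [Fintype V] [MeasurableSpace V] [MeasurableSingletonClass V]
    (G : Arena V P) (s : P → Beh V) (n : ℕ) (x : Hist V n) (z : V) :
    G.step s n x {z} = s (G.owner (lastOf x)) n x z := by
  show (s (G.owner (lastOf x)) n x).toMeasure {z} = _
  exact PMF.toMeasure_apply_singleton _ _ (measurableSet_singleton z)

namespace Blueprint

variable {V P : Type} {G : Arena V P} {r : P → V → V → ℝ} (B : Blueprint G r)

/-- the history obeys the rules from time `a` on at the vertices not owned by players in `J` -/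
def okH (C0 : B.O) (J : Set P) (a : ℕ) : (n : ℕ) → Hist V n → Prop
  | 0, _ => True
  | n + 1, x => okH C0 J a n (initOf x) ∧ (a ≤ n → G.adj (lastOf (initOf x)) (lastOf x) ∧
      (G.owner (lastOf (initOf x)) ∉ J →
        B.supp (B.modeH C0 n (initOf x)) (lastOf (initOf x)) (lastOf x)))

/-- counter along a history, started at time `a` -/
noncomputable def cntH (C0 : B.O) (j : P) (a : ℕ) : (n : ℕ) → Hist V n → ℕ
  | 0, _ => 0
  | n + 1, x => if n < a then 0 else
      B.upd j (B.modeH C0 n (initOf x)) (lastOf (initOf x)) (B.modeH C0 (n + 1) x)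
        (cntH C0 j a n (initOf x))

variable {B}

theorem okH_snoc {C0 : B.O} {J : Set P} {a n : ℕ} {x : Hist V n} {z : V} :
    B.okH C0 J a (n + 1) (snoc x z) ↔ B.okH C0 J a n x ∧ (a ≤ n → G.adj (lastOf x) z ∧
      (G.owner (lastOf x) ∉ J → B.supp (B.modeH C0 n x) (lastOf x) z)) := by
  show (B.okH C0 J a n (initOf (snoc x z)) ∧ (a ≤ n →
    G.adj (lastOf (initOf (snoc x z))) (lastOf (snoc x z)) ∧
      (G.owner (lastOf (initOf (snoc x z))) ∉ J →
        B.supp (B.modeH C0 n (initOf (snoc x z))) (lastOf (initOf (snoc x z)))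
          (lastOf (snoc x z))))) ↔ _
  rw [initOf_snoc, lastOf_snoc]

theorem cntH_snoc {C0 : B.O} {j : P} {a n : ℕ} (ha : a ≤ n) {x : Hist V n} {z : V} :
    B.cntH C0 j a (n + 1) (snoc x z) =
      B.upd j (B.modeH C0 n x) (lastOf x) (B.stepM (n + 1) (B.modeH C0 n x) (lastOf x) z)
        (B.cntH C0 j a n x) := by
  show (if n < a then 0 else
      B.upd j (B.modeH C0 n (initOf (snoc x z))) (lastOf (initOf (snoc x z)))
        (B.modeH C0 (n + 1) (snoc x z))
        (B.cntH C0 j a n (initOf (snoc x z)))) = _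
  rw [if_neg (by omega), initOf_snoc, modeH_snoc]

theorem cntH_self (C0 : B.O) (j : P) (a : ℕ) (x : Hist V a) : B.cntH C0 j a a x = 0 := by
  cases a with
  | zero => rfl
  | succ a => exact if_pos (Nat.lt_succ_self a)

theorem isHist_of_ok {v0 : V} {C0 : B.O} {J : Set P} {a : ℕ} {rho : ℕ → V}
    (h0 : G.IsHist v0 (cut a rho)) {n : ℕ} (hn : a ≤ n) (hok : B.okH C0 J a n (cut n rho)) :
    G.IsHist v0 (cut n rho) := by
  induction n, hn using Nat.le_induction with
  | base => exact h0
  | succ n hn ih => exact (ih hok.1).of_init (hok.2 hn).1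

theorem okH_self (C0 : B.O) (J : Set P) (a : ℕ) (x : Hist V a) : B.okH C0 J a a x := by
  have h : ∀ n, n ≤ a → ∀ y : Hist V n, B.okH C0 J a n y := by
    intro n hn
    induction n with
    | zero => exact fun _ => trivial
    | succ n ih => exact fun y => ⟨ih (by omega) _, fun h => absurd h (by omega)⟩
  exact h a le_rfl x

variable [Fintype V]

theorem sum_moveD_le {δ : NNReal} {hδ : δ ≤ 1} {md : Mode P B.O} {y : V} {ψ : V → ℝ≥0∞}
    {c : ℝ≥0∞}
    (h1 : (∀ i C d, md = .wander i C d → y ∉ B.leak i C) → ∀ z, B.supp md y z → ψ z ≤ c)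
    (h2 : ∀ i C d, md = .wander i C d → y ∈ B.leak i C →
      (δ : ℝ≥0∞) * ψ (B.lz i C y) + ((1 - δ : NNReal) : ℝ≥0∞) * ψ (B.lc i C y) ≤ c) :
    ∑ z, B.moveD δ hδ md y z * ψ z ≤ c := by
  have hpure : ∀ a : V, ∑ z, PMF.pure a z * ψ z = ψ a := by
    intro a
    simp [PMF.pure_apply]
  cases md with
  | follow C =>
    show ∑ z, PMF.pure (B.nxt C y) z * ψ z ≤ c
    rw [hpure]
    exact h1 (fun i C d h => by cases h) _ rfl
  | wander i C d =>
    by_cases hl : y ∈ B.leak i C
    · have e1 : B.moveD δ hδ (.wander i C d) y =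
          (PMF.bernoulli δ hδ).map (fun b => if b then B.lz i C y else B.lc i C y) := by
        simp only [moveD]
        rw [if_pos hl]
      rw [e1]
      refine le_trans (le_of_eq ?_) (h2 i C d rfl hl)
      have e2 : ∀ z, ((PMF.bernoulli δ hδ).map
          (fun b => if b then B.lz i C y else B.lc i C y)) z * ψ z =
          (δ : ℝ≥0∞) * (if z = B.lz i C y then ψ z else 0) +
            ((1 - δ : NNReal) : ℝ≥0∞) * (if z = B.lc i C y then ψ z else 0) := by
        intro z
        rw [PMF.map_apply, tsum_bool]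
        simp only [PMF.bernoulli_apply, cond_true, cond_false, if_true]
        by_cases h3 : z = B.lz i C y <;> by_cases h4 : z = B.lc i C y <;>
          simp [h3, h4, add_mul, add_comm]
      rw [Finset.sum_congr rfl (fun z _ => e2 z), Finset.sum_add_distrib, ← Finset.mul_sum,
        ← Finset.mul_sum]
      simp
    · have e1 : B.moveD δ hδ (.wander i C d) y = PMF.pure (B.mv i C y) := by
        simp only [moveD]
        rw [if_neg hl]
      rw [e1, hpure]
      exact h1 (fun i' C' d' h => by cases h; exact hl) _ (Or.inr ⟨hl, rfl⟩)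

theorem sum_pmf_le {p : PMF V} {ψ : V → ℝ≥0∞} {c : ℝ≥0∞} (h : ∀ z, p z ≠ 0 → ψ z ≤ c) :
    ∑ z, p z * ψ z ≤ c := by
  have h1 : ∑ z, p z = 1 := by
    rw [← tsum_fintype (L := .unconditional _)]
    exact p.tsum_coe
  calc ∑ z, p z * ψ z ≤ ∑ z, p z * c := by
        refine Finset.sum_le_sum (fun z _ => ?_)
        by_cases hz : p z = 0
        · simp [hz]
        · exact mul_le_mul_right (h z hz) _
    _ = c := by rw [← Finset.sum_mul, h1, one_mul]

/-- the extended potential on histories -/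
noncomputable def PhiH (C0 : B.O) (J : Set P) (a : ℕ) (val : (n : ℕ) → Hist V n → ℝ) (n : ℕ)
    (x : Hist V n) : ℝ≥0∞ :=
  if B.okH C0 J a n x then ENNReal.ofReal (val n x) else ∞

variable [MeasurableSpace V] [MeasurableSingletonClass V]

theorem super_ok {v0 : V} {C0 : B.O} (hC0 : C0 = B.base v0) {J : Set P} {a : ℕ}
    {val : (n : ℕ) → Hist V n → ℝ} {δ : NNReal} (hδ : δ ≤ 1) (s : P → Beh V) {x0 : Hist V a}
    (hx0 : G.IsHist v0 x0)
    (hval : ∀ n (x : Hist V n), G.IsHist v0 x → 0 ≤ val n x)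
    (hJ : ∀ n (x : Hist V n), G.IsHist v0 x → G.owner (lastOf x) ∈ J →
      ∀ z, s (G.owner (lastOf x)) n x z ≠ 0 → G.adj (lastOf x) z)
    (hnJ : ∀ n (x : Hist V n), G.owner (lastOf x) ∉ J →
      s (G.owner (lastOf x)) n x = B.moveD δ hδ (B.modeH C0 n x) (lastOf x))
    (hdev : ∀ n, a ≤ n → ∀ x : Hist V n, G.IsHist v0 x → G.owner (lastOf x) ∈ J →
      ∀ z, G.adj (lastOf x) z → val (n + 1) (snoc x z) ≤ val n x)
    (hdet : ∀ n, a ≤ n → ∀ x : Hist V n, G.IsHist v0 x →
      (∀ i C d, B.modeH C0 n x = .wander i C d → lastOf x ∉ B.leak i C) →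
      ∀ z, B.supp (B.modeH C0 n x) (lastOf x) z → val (n + 1) (snoc x z) ≤ val n x)
    (hleak : ∀ n, a ≤ n → ∀ x : Hist V n, G.IsHist v0 x → ∀ i C d,
      B.modeH C0 n x = .wander i C d → lastOf x ∈ B.leak i C →
      (δ : ℝ) * val (n + 1) (snoc x (B.lz i C (lastOf x))) +
        (1 - (δ : ℝ)) * val (n + 1) (snoc x (B.lc i C (lastOf x))) ≤ val n x)
    (n : ℕ) (hn : a ≤ n) (rho : ℕ → V) (hrho : cut a rho = x0) :
    ∑ z, G.step s n (cut n rho) {z} * PhiH C0 J a val (n + 1) (snoc (cut n rho) z) ≤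
      PhiH C0 J a val n (cut n rho) := by
  by_cases hok : B.okH C0 J a n (cut n rho)
  swap
  · have h1 : PhiH C0 J a val n (cut n rho) = ∞ := if_neg hok
    rw [h1]
    exact le_top
  have hx : G.IsHist v0 (cut n rho) := isHist_of_ok (hrho ▸ hx0) hn hok
  obtain ⟨x, hxe⟩ : ∃ x : Hist V n, x = cut n rho := ⟨_, rfl⟩
  rw [← hxe] at hok hx ⊢
  have h1 : PhiH C0 J a val n x = ENNReal.ofReal (val n x) := if_pos hok
  rw [h1]
  have hg : B.good n (B.modeH C0 n x) (lastOf x) := by
    rw [hC0]
    exact B.good_modeH hx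
  simp only [step_apply]
  by_cases hy : G.owner (lastOf x) ∈ J
  · refine sum_pmf_le (fun z hz => ?_)
    have ha := hJ n x hx hy z hz
    have h2 : B.okH C0 J a (n + 1) (snoc x z) :=
      okH_snoc.2 ⟨hok, fun _ => ⟨ha, fun h => absurd hy h⟩⟩
    have h3 : PhiH C0 J a val (n + 1) (snoc x z) = ENNReal.ofReal (val (n + 1) (snoc x z)) :=
      if_pos h2
    rw [h3]
    exact ENNReal.ofReal_le_ofReal (hdev n hn x hx hy z ha)
  · have hsn : ∀ z, B.supp (B.modeH C0 n x) (lastOf x) z →
        PhiH C0 J a val (n + 1) (snoc x z) = ENNReal.ofReal (val (n + 1) (snoc x z)) := by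
      intro z hz
      exact if_pos (okH_snoc.2 ⟨hok, fun _ => ⟨B.adj_of_supp hg hz, fun _ => hz⟩⟩)
    rw [hnJ n x hy]
    refine sum_moveD_le (fun hl z hz => ?_) (fun i C d hm hl => ?_)
    · rw [hsn z hz]
      exact ENNReal.ofReal_le_ofReal (hdet n hn x hx hl z hz)
    · have z1 : B.supp (B.modeH C0 n x) (lastOf x) (B.lz i C (lastOf x)) := by
        rw [hm]; exact Or.inl ⟨hl, Or.inl rfl⟩
      have z2 : B.supp (B.modeH C0 n x) (lastOf x) (B.lc i C (lastOf x)) := by
        rw [hm]; exact Or.inl ⟨hl, Or.inr rfl⟩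
      have hδ' : (δ : ℝ) ≤ 1 := by exact_mod_cast hδ
      have v1 := hval (n + 1) _ (hx.snoc (B.adj_of_supp hg z1))
      have v2 := hval (n + 1) _ (hx.snoc (B.adj_of_supp hg z2))
      have c1 : (δ : ℝ≥0∞) = ENNReal.ofReal (δ : ℝ) := (ENNReal.ofReal_coe_nnreal).symm
      have c2 : ((1 - δ : NNReal) : ℝ≥0∞) = ENNReal.ofReal (1 - (δ : ℝ)) := by
        rw [← ENNReal.ofReal_coe_nnreal, NNReal.coe_sub hδ]
        rfl
      rw [hsn _ z1, hsn _ z2, c1, c2, ← ENNReal.ofReal_mul δ.coe_nonneg,
        ← ENNReal.ofReal_mul (by linarith), ← ENNReal.ofReal_add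
          (mul_nonneg δ.coe_nonneg v1) (mul_nonneg (by linarith) v2)]
      exact ENNReal.ofReal_le_ofReal (hleak n hn x hx i C d hm hl)

/-- upper bound for the deviations of `j` -/
theorem upper [DecidableEq P] {v0 : V} {j : P} {M K e : ℝ} {δ : NNReal} (h0 : 0 ≤ M)
    (hM : ∀ y z, |r j y z| ≤ M) (hu : ∀ C, |B.u j C| ≤ M) (hK : ∀ C y, |B.pot j C y| ≤ K)
    (hδ0 : 0 < δ) (hδ1 : δ < 1) (he : 0 < e)
    (hgap : ∀ C C', B.u j C < B.u j C' → B.u j C + e ≤ B.u j C')
    {t : Beh V} (ht : G.IsStrategy v0 j t) {a : ℕ} {x0 : Hist V a} (hx0 : G.IsHist v0 x0) :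
    ∫ rho, meanPayoff (r j) rho
      ∂(G.law (Function.update (B.prof δ hδ1.le v0) j t) x0) ≤
      B.u j (B.modeH (B.base v0) a x0).com + 2 * M * δ + e := by
  obtain ⟨C0, hC0⟩ : ∃ C0, C0 = B.base v0 := ⟨_, rfl⟩
  obtain ⟨s, hs⟩ : ∃ s, s = Function.update (B.prof δ hδ1.le v0) j t := ⟨_, rfl⟩
  have hδ0' : (0 : ℝ) < δ := by exact_mod_cast hδ0
  have hδ1' : (δ : ℝ) < 1 := by exact_mod_cast hδ1
  obtain ⟨val, hval⟩ : ∃ val : (n : ℕ) → Hist V n → ℝ, val = fun n x =>
    B.PhiU j M δ e (B.modeH C0 n x) (B.cntH C0 j a n x) := ⟨_, rfl⟩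
  have hval0 : ∀ n (x : Hist V n), 0 ≤ val n x := by
    intro n x
    rw [hval]
    have h1 := PhiU_ge' (j := j) (e := e) h0 hδ0'.le hδ1' he.le (B.modeH C0 n x)
      (B.cntH C0 j a n x)
    have h2 := (abs_le.1 (hu (B.modeH C0 n x).com)).1
    show 0 ≤ B.PhiU j M δ e (B.modeH C0 n x) (B.cntH C0 j a n x)
    linarith
  have hvs : ∀ n, a ≤ n → ∀ (x : Hist V n) z, val (n + 1) (snoc x z) =
      B.PhiU j M δ e (B.stepM (n + 1) (B.modeH C0 n x) (lastOf x) z)
        (B.upd j (B.modeH C0 n x) (lastOf x)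
          (B.stepM (n + 1) (B.modeH C0 n x) (lastOf x) z) (B.cntH C0 j a n x)) := by
    intro n hn x z
    rw [hval]
    show B.PhiU j M δ e (B.modeH C0 (n + 1) (snoc x z)) (B.cntH C0 j a (n + 1) (snoc x z)) = _
    rw [modeH_snoc, cntH_snoc hn]
  have hgood : ∀ n (x : Hist V n), G.IsHist v0 x → B.good n (B.modeH C0 n x) (lastOf x) := by
    intro n x hx
    rw [hC0]
    exact B.good_modeH hx
  have hfat := lintegral_traj_le (G.step s) a x0 (PhiH C0 {j} a val)
    (super_ok hC0 hδ1.le s hx0 (fun n x _ => hval0 n x)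
      (fun n x hx hy z hz => by
        have hy' : G.owner (lastOf x) = j := hy
        rw [hs, hy', Function.update_self] at hz
        exact ht n x hx hy' z hz)
      (fun n x hy => by
        have hy' : G.owner (lastOf x) ≠ j := hy
        rw [hs, Function.update_of_ne hy', hC0]
        rfl)
      (fun n hn x hx hy z hz => by
        rw [hvs n hn x z]
        have hy' : G.owner (lastOf x) = j := hy
        rw [hval]
        exact PhiU_dev h0 hδ0' hδ1' he (hgood n x hx) hz hy' _)
      (fun n hn x hx hl z hz => by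
        rw [hvs n hn x z, hval]
        exact PhiU_det h0 hδ0' hδ1' he hz (hgood n x hx) hl _)
      (fun n hn x hx i C d hm hl => by
        rw [hvs n hn x, hvs n hn x, hval]
        have hg := hgood n x hx
        show _ ≤ B.PhiU j M δ e (B.modeH C0 n x) (B.cntH C0 j a n x)
        rw [hm] at hg ⊢
        exact PhiU_leak h0 hu hδ0' hδ1' he hgap hg hl _))
    (fun rho => ENNReal.ofReal (meanPayoff (r j) rho + M))
    (fun rho hrho => by
      refine le_liminf_of_le (by isBoundedDefault) ?_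
      by_cases hall : ∀ n, B.okH C0 {j} a n (cut n rho)
      · have hist : ∀ n, a ≤ n → G.IsHist v0 (cut n rho) := fun n hn =>
          isHist_of_ok (hrho ▸ hx0) hn (hall n)
        let R : B.Run a j :=
          { rho := rho
            md := fun n => B.modeH C0 n (cut n rho)
            good := fun n hn => hgood n _ (hist n hn)
            kind := fun n hn => by
              have h1 := (hall (n + 1)).2 hn
              exact B.step_kind (hgood n _ (hist n hn)) h1.1 (fun h => h1.2 h) }
        have h2 := R.eventually_le_PhiU h0 hM hu hK hδ0' hδ1' he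
          (fun n => B.cntH C0 j a n (cut n rho)) (fun n hn => by
            show (if n < a then 0 else _) = _
            rw [if_neg (by omega)]
            rfl)
        filter_upwards [h2] with n hn
        have h3 : PhiH C0 {j} a val n (cut n rho) = ENNReal.ofReal (val n (cut n rho)) :=
          if_pos (hall n)
        rw [h3, hval]
        exact ENNReal.ofReal_le_ofReal hn
      · push Not at hall
        obtain ⟨n0, hn0⟩ := hall
        filter_upwards [eventually_ge_atTop n0] with n hn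
        have hbad : ¬ B.okH C0 {j} a n (cut n rho) := by
          induction n, hn using Nat.le_induction with
          | base => exact hn0
          | succ n hn ih => exact fun h => ih h.1
        have h3 : PhiH C0 {j} a val n (cut n rho) = ∞ := if_neg hbad
        rw [h3]
        exact le_top)
  have h4 : PhiH C0 {j} a val a x0 = ENNReal.ofReal (val a x0) := if_pos (okH_self C0 {j} a x0)
  rw [h4] at hfat
  have h5 : val a x0 ≤ (B.u j (B.modeH C0 a x0).com + 2 * M * δ + e) + M := by
    rw [hval]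
    show B.PhiU j M δ e (B.modeH C0 a x0) (B.cntH C0 j a a x0) ≤ _
    rw [cntH_self]
    unfold PhiU
    have h6 : (if B.Foreign j (B.modeH C0 a x0) then 2 * M * (δ : ℝ) else 0) ≤ 2 * M * δ := by
      split_ifs
      · exact le_rfl
      · positivity
    rw [pow_zero]
    linarith
  rw [← hC0, ← hs]
  exact integral_le_of_lintegral (r j) (G.law s x0) M _ hM
    (hfat.trans (ENNReal.ofReal_le_ofReal h5)) ((hval0 a x0).trans h5)

/-- lower bound without deviations -/
theorem lower {v0 : V} {j : P} {M : ℝ} {δ : NNReal} (h0 : 0 ≤ M)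
    (hM : ∀ y z, |r j y z| ≤ M) (hu : ∀ C, |B.u j C| ≤ M)
    (hδ0 : 0 < δ) (hδ1 : δ < 1) {a : ℕ} {x0 : Hist V a} (hx0 : G.IsHist v0 x0) :
    B.u j (B.modeH (B.base v0) a x0).com - 2 * M * δ ≤
      ∫ rho, meanPayoff (r j) rho ∂(G.law (B.prof δ hδ1.le v0) x0) := by
  obtain ⟨C0, hC0⟩ : ∃ C0, C0 = B.base v0 := ⟨_, rfl⟩
  obtain ⟨s, hs⟩ : ∃ s, s = B.prof δ hδ1.le v0 := ⟨_, rfl⟩
  have hδ0' : (0 : ℝ) < δ := by exact_mod_cast hδ0
  have hδ1' : (δ : ℝ) < 1 := by exact_mod_cast hδ1
  obtain ⟨val, hval⟩ : ∃ val : (n : ℕ) → Hist V n → ℝ, val = fun n x =>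
    B.PhiL j M δ (B.modeH C0 n x) := ⟨_, rfl⟩
  have hval0 : ∀ n (x : Hist V n), 0 ≤ val n x := by
    intro n x
    rw [hval]
    have h2 := (abs_le.1 (hu (B.modeH C0 n x).com)).2
    show 0 ≤ B.PhiL j M δ (B.modeH C0 n x)
    unfold PhiL
    have : 0 ≤ (if B.Wandering (B.modeH C0 n x) then 2 * M * (δ : ℝ) else 0) := by
      split_ifs
      · positivity
      · exact le_rfl
    linarith
  have hvs : ∀ n (x : Hist V n) z, val (n + 1) (snoc x z) =
      B.PhiL j M δ (B.stepM (n + 1) (B.modeH C0 n x) (lastOf x) z) := by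
    intro n x z
    rw [hval]
    show B.PhiL j M δ (B.modeH C0 (n + 1) (snoc x z)) = _
    rw [modeH_snoc]
  have hgood : ∀ n (x : Hist V n), G.IsHist v0 x → B.good n (B.modeH C0 n x) (lastOf x) := by
    intro n x hx
    rw [hC0]
    exact B.good_modeH hx
  have hfat := lintegral_traj_le (G.step s) a x0 (PhiH C0 ∅ a val)
    (super_ok hC0 hδ1.le s hx0 (fun n x _ => hval0 n x)
      (fun n x hx hy z hz => absurd hy (Set.notMem_empty _))
      (fun n x hy => by
        rw [hs, hC0]
        rfl)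
      (fun n hn x hx hy z hz => absurd hy (Set.notMem_empty _))
      (fun n hn x hx hl z hz => by
        rw [hvs n x z, hval]
        exact PhiL_det h0 hδ0' hz (hgood n x hx) hl)
      (fun n hn x hx i C d hm hl => by
        rw [hvs n x, hvs n x, hval]
        have hg := hgood n x hx
        show _ ≤ B.PhiL j M δ (B.modeH C0 n x)
        rw [hm] at hg ⊢
        exact PhiL_leak hu hδ0' hg hl))
    (fun rho => ENNReal.ofReal (M - meanPayoff (r j) rho))
    (fun rho hrho => by
      refine le_liminf_of_le (by isBoundedDefault) ?_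
      by_cases hall : ∀ n, B.okH C0 ∅ a n (cut n rho)
      · have hist : ∀ n, a ≤ n → G.IsHist v0 (cut n rho) := fun n hn =>
          isHist_of_ok (hrho ▸ hx0) hn (hall n)
        have h2 := eventually_le_PhiL (B := B) (a := a) (rho := rho)
          (md := fun n => B.modeH C0 n (cut n rho)) (fun n hn => hgood n _ (hist n hn))
          (fun n hn => by
            have h1 := (hall (n + 1)).2 hn
            exact B.step_kind0 (hgood n _ (hist n hn)) (h1.2 (Set.notMem_empty _))) j M δ
        filter_upwards [h2] with n hn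
        have h3 : PhiH C0 ∅ a val n (cut n rho) = ENNReal.ofReal (val n (cut n rho)) :=
          if_pos (hall n)
        rw [h3, hval]
        exact ENNReal.ofReal_le_ofReal hn
      · push Not at hall
        obtain ⟨n0, hn0⟩ := hall
        filter_upwards [eventually_ge_atTop n0] with n hn
        have hbad : ¬ B.okH C0 ∅ a n (cut n rho) := by
          induction n, hn using Nat.le_induction with
          | base => exact hn0
          | succ n hn ih => exact fun h => ih h.1
        have h3 : PhiH C0 ∅ a val n (cut n rho) = ∞ := if_neg hbad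
        rw [h3]
        exact le_top)
  have h4 : PhiH C0 ∅ a val a x0 = ENNReal.ofReal (val a x0) := if_pos (okH_self C0 ∅ a x0)
  rw [h4] at hfat
  have h5 : val a x0 ≤ M - (B.u j (B.modeH C0 a x0).com - 2 * M * δ) := by
    rw [hval]
    show B.PhiL j M δ (B.modeH C0 a x0) ≤ _
    unfold PhiL
    have h6 : (if B.Wandering (B.modeH C0 a x0) then 2 * M * (δ : ℝ) else 0) ≤ 2 * M * δ := by
      split_ifs
      · exact le_rfl
      · positivity
    linarith
  rw [← hC0, ← hs]
  exact le_integral_of_lintegral (r j) (G.law s x0) M _ hM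
    (hfat.trans (ENNReal.ofReal_le_ofReal h5)) ((hval0 a x0).trans h5)

end Blueprint

end SPE
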