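import Pool.Agent.SPE.Iface
import Pool.Agent.SPE.Pos

/-!
# Outcome systems, viable outcomes, regions, events (MP_061e18_lc)

`OutSys G r`: the abstract properties of the simple cycles of the graph (generic rewards: one outcome per level).
`Alive N A Ex a C y`: inside the set `N` there is a path along the allowed edges `A` from `y` which reaches the cycle `C` or an exit with outcome `C`, and
all vertices `x` on it satisfy `a x < u (owner x) C`.
-/

namespace SPE

open Pool.Agent.SPE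

/-- outcomes: the simple cycles of the graph -/
structure OutSys {V P : Type} (G : Arena V P) (r : P → V → V → ℝ) where
  Om : Type
  finO : Finite Om
  /-- payoff -/
  u : P → Om → ℝ
  inj : ∀ i, Function.Injective (u i)
  /-- vertices of the cycle -/
  cyc : Om → Set V
  /-- next vertex on the cycle -/
  nx : Om → V → V
  cyc_ne : ∀ C, (cyc C).Nonempty
  nx_adj : ∀ C, ∀ y ∈ cyc C, G.adj y (nx C y)
  nx_mem : ∀ C, ∀ y ∈ cyc C, nx C y ∈ cyc C
  exists_sub : ∀ (Y : Set V) (B : V → V → Prop), Y.Nonempty → (∀ y z, B y z → G.adj y z) →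
    (∀ y ∈ Y, ∃ z ∈ Y, B y z) → ∃ C, cyc C ⊆ Y ∧ ∀ y ∈ cyc C, B y (nx C y)
  pot : ∀ i C, ∃ ψ : V → ℝ, ∀ y ∈ cyc C, r i y (nx C y) - u i C + ψ (nx C y) = ψ y
  lt_of_pos : ∀ i C (c : ℝ) (B : V → V → Prop), PosCycles B (fun y z => r i y z - c) →
    (∀ y ∈ cyc C, B y (nx C y)) → c < u i C

variable {V P : Type} {G : Arena V P} {r : P → V → V → ℝ} (O : OutSys G r)

/-- `C` is available at `y` inside the system `(N, A, Ex)` with bounds `a` -/
inductive Alive (N : Set V) (A : V → V → Prop) (Ex : V → V → O.Om → Prop)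
    (a : V → WithBot ℝ) (C : O.Om) : V → Prop
  | cyc (y : V) (hy : y ∈ O.cyc C)
      (h : ∀ x ∈ O.cyc C, x ∈ N ∧ a x < (O.u (G.owner x) C : WithBot ℝ) ∧ A x (O.nx C x)) :
      Alive N A Ex a C y
  | exit (y z : V) (hy : y ∈ N) (ha : a y < (O.u (G.owner y) C : WithBot ℝ))
      (h : Ex y z C) : Alive N A Ex a C y
  | step (y z : V) (hy : y ∈ N) (ha : a y < (O.u (G.owner y) C : WithBot ℝ)) (h : A y z)
      (hz : Alive N A Ex a C z) : Alive N A Ex a C y

/-- `C` is a viable outcome at `y` -/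
def Via (a : V → WithBot ℝ) (C : O.Om) (y : V) : Prop :=
  Alive O Set.univ G.adj (fun _ _ _ => False) a C y

/-- at `z` there is a viable outcome worse than `C` for player `i` -/
def Low (a : V → WithBot ℝ) (i : P) (C : O.Om) (z : V) : Prop :=
  ∃ F, Via O a F z ∧ O.u i F < O.u i C

/-- leak vertex -/
def Leak (a : V → WithBot ℝ) (i : P) (C : O.Om) (y : V) : Prop :=
  ∃ (z' z1 : V) (F : O.Om), G.adj y z' ∧ G.adj y z1 ∧ z' ≠ z1 ∧ Via O a F z' ∧ Via O a C z1 ∧
    O.u i F < O.u i C ∧ O.u (G.owner y) F < O.u (G.owner y) C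

/-- conditions at the vertex `y` of a region relative to the sets `W1` (without inequality) and `W` (with potential inequality) -/
def RegAt (a : V → WithBot ℝ) (i : P) (C : O.Om) (W1 W : Set V) (φ : V → ℝ) (y : V) : Prop :=
  Via O a C y ∧
  ((G.owner y ≠ i ∧ (Leak O a i C y ∨ ∃ z, G.adj y z ∧
      (z ∈ W1 ∨ (z ∈ W ∧ r i y z - O.u i C + φ z ≤ φ y)))) ∨
    (G.owner y = i ∧ (∃ z, G.adj y z ∧ (z ∈ W1 ∨ (z ∈ W ∧ r i y z - O.u i C + φ z ≤ φ y))) ∧
      ∀ z, G.adj y z → Low O a i C z ∨ z ∈ W1 ∨ (z ∈ W ∧ r i y z - O.u i C + φ z ≤ φ y)))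

/-- region in which player `i` can be punished with commitment `C` -/
def Region (a : V → WithBot ℝ) (i : P) (C : O.Om) (W : Set V) (φ : V → ℝ) : Prop :=
  ∀ y ∈ W, RegAt O a i C ∅ W φ y

/-- the union of all regions -/
def Win (a : V → WithBot ℝ) (i : P) (C : O.Om) : Set V :=
  {y | ∃ W φ, Region O a i C W φ ∧ y ∈ W}

/-- witnesses: vertices where player `i` cannot be held at the level of `C` -/
def Wit (a : V → WithBot ℝ) (i : P) (C : O.Om) (w : V) : Prop :=
  ¬ Low O a i C w ∧ w ∉ Win O a i C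

/-- the vertices of player `i` with a witness as successor -/
def XX (a : V → WithBot ℝ) (i : P) (C : O.Om) : Set V :=
  {x | G.owner x = i ∧ ∃ w, G.adj x w ∧ Wit O a i C w}

/-- the new bounds after the event `(i, C)` -/
noncomputable def upd (a : V → WithBot ℝ) (i : P) (C : O.Om) (x : V) : WithBot ℝ :=
  open scoped Classical in if x ∈ XX O a i C then max (a x) (O.u i C : WithBot ℝ) else a x

/-- the event `(i, C)` is legal: the events of the same player at lower levels have no effect -/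
def Legal (a : V → WithBot ℝ) (i : P) (C : O.Om) : Prop :=
  ∀ F, O.u i F < O.u i C → ∀ x ∈ XX O a i F, (O.u i F : WithBot ℝ) ≤ a x

/-- reachable bounds together with the set of event pairs -/
inductive Reach : (V → WithBot ℝ) → (V → V → Prop) → Prop
  | base : Reach (fun _ => ⊥) (fun _ _ => False)
  | step (a : V → WithBot ℝ) (Ev : V → V → Prop) (i : P) (C : O.Om) (h : Reach a Ev)
      (hl : Legal O a i C) :
      Reach (upd O a i C) (fun x w => Ev x w ∨ (x ∈ XX O a i C ∧ G.adj x w ∧ Wit O a i C w))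

/-- closed systems -/
structure Closed (N : Set V) (A : V → V → Prop) (Ex : V → V → O.Om → Prop) (J : Set P)
    (a : V → WithBot ℝ) (Ev : V → V → Prop) : Prop where
  sub : ∀ y z, A y z → y ∈ N ∧ z ∈ N ∧ G.adj y z
  full : ∀ y z, y ∈ N → z ∈ N → G.owner y ∉ J → G.adj y z → A y z
  exm : ∀ y z C, Ex y z C → y ∈ N ∧ z ∉ N ∧ G.adj y z ∧ Via O a C z
  c1 : ∀ y w, Ev y w → y ∈ N → G.owner y ∉ J → w ∉ N → ∃ C, Ex y w C
  c2 : ∀ y ∈ N, (∃ z, A y z) ∨ ∃ z C, Ex y z C
  c3a : ∀ x ∈ N, G.owner x ∈ J → ∀ y z C, Ex y z C → a x < (O.u (G.owner x) C : WithBot ℝ)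
  c3b : ∀ x ∈ N, G.owner x ∈ J → ∀ C, (∀ y ∈ O.cyc C, A y (O.nx C y)) →
    a x < (O.u (G.owner x) C : WithBot ℝ)

end SPE
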