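import Pool.Agent.SPE.Region

/-!
# Theorem P: every closed system has a vertex with an available outcome (MP_061e18_lc)

Corollary: at all reachable bounds every vertex has a viable outcome.
-/

namespace SPE

open Pool.Agent.SPE

variable {V P : Type} {G : Arena V P} {r : P → V → V → ℝ} {O : OutSys G r}

theorem Reach.adj {a : V → WithBot ℝ} {Ev : V → V → Prop} (h : Reach O a Ev) :
    ∀ x w, Ev x w → G.adj x w := by
  induction h with
  | base => exact fun x w h => absurd h id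
  | step a Ev i C h hl ih =>
    rintro x w (h1 | ⟨-, h1, -⟩)
    · exact ih x w h1
    · exact h1

/-- Theorem P at the bounds `a` -/
def PP (O : OutSys G r) (a : V → WithBot ℝ) (Ev : V → V → Prop) : Prop :=
  ∀ (N : Set V) (A : V → V → Prop) (Ex : V → V → O.Om → Prop) (J : Set P), N.Nonempty →
    Closed O N A Ex J a Ev → ∃ y C, Alive O N A Ex a C y

theorem pp_base : PP O (fun _ => ⊥) (fun _ _ => False) := by
  intro N A Ex J hN hcl
  by_cases hex : ∃ y z C, Ex y z C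
  · obtain ⟨y, z, C, h⟩ := hex
    exact ⟨y, C, .exit y z (hcl.exm y z C h).1 (WithBot.bot_lt_coe _) h⟩
  · obtain ⟨C, h1, h2⟩ := O.exists_sub N A hN (fun y z h => (hcl.sub y z h).2.2) (fun y hy => by
      rcases hcl.c2 y hy with ⟨z, h⟩ | ⟨z, C, h⟩
      · exact ⟨z, (hcl.sub y z h).2.1, h⟩
      · exact absurd ⟨y, z, C, h⟩ hex)
    obtain ⟨y, hy⟩ := O.cyc_ne C
    exact ⟨y, C, .cyc y hy fun x hx => ⟨h1 hx, WithBot.bot_lt_coe _, h2 x hx⟩⟩

section
variable {a : V → WithBot ℝ} {Ev : V → V → Prop} {N : Set V} {A : V → V → Prop}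
  {Ex : V → V → O.Om → Prop} {J : Set P}

theorem Closed.alive_via (hcl : Closed O N A Ex J a Ev) {F : O.Om} {y : V}
    (h : Alive O N A Ex a F y) : Via O a F y :=
  h.via (fun y z h => (hcl.sub y z h).2.2)
    (fun y z h => ⟨(hcl.exm y z F h).2.2.1, (hcl.exm y z F h).2.2.2⟩)

/-- exempt vertices do not block available outcomes -/
theorem Closed.exempt (hcl : Closed O N A Ex J a Ev) {F : O.Om} {y x : V}
    (h : Alive O N A Ex a F y) (hx : x ∈ N) (hJ : G.owner x ∈ J) :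
    a x < (O.u (G.owner x) F : WithBot ℝ) := by
  rcases h.occurs with ⟨y, z, h1⟩ | h1
  · exact hcl.c3a x hx hJ y z F h1
  · exact hcl.c3b x hx hJ F h1

/-- Step 1 -/
theorem all_alive (hP : PP O a Ev) (hadj : ∀ x w, Ev x w → G.adj x w)
    (hcl : Closed O N A Ex J a Ev) : ∀ y ∈ N, ∃ F, Alive O N A Ex a F y := by
  by_contra hc
  push Not at hc
  obtain ⟨y0, hy0, hy0'⟩ := hc
  let D : Set V := {y | y ∈ N ∧ ∀ F, ¬ Alive O N A Ex a F y}
  have hDN : ∀ y, y ∉ D → y ∈ N → ∃ F, Alive O N A Ex a F y := by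
    intro y hy hyN
    by_contra h1
    push Not at h1
    exact hy ⟨hyN, h1⟩
  let AD : V → V → Prop := fun y z => A y z ∧ y ∈ D ∧ z ∈ D
  let ExD : V → V → O.Om → Prop := fun y z F =>
    y ∈ D ∧ z ∉ D ∧ (Ex y z F ∨ (A y z ∧ Alive O N A Ex a F z))
  have hclD : Closed O D AD ExD J a Ev := by
    refine ⟨?_, ?_, ?_, ?_, ?_, ?_, ?_⟩
    · rintro y z ⟨h1, h2, h3⟩
      exact ⟨h2, h3, (hcl.sub y z h1).2.2⟩
    · intro y z hy hz hJ h
      exact ⟨hcl.full y z hy.1 hz.1 hJ h, hy, hz⟩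
    · rintro y z F ⟨h1, h2, h3 | ⟨h3, h4⟩⟩
      · exact ⟨h1, h2, (hcl.exm y z F h3).2.2⟩
      · exact ⟨h1, h2, (hcl.sub y z h3).2.2, hcl.alive_via h4⟩
    · intro y w hEv hy hJ hw
      by_cases hwN : w ∈ N
      · obtain ⟨F, hF⟩ := hDN w hw hwN
        exact ⟨F, hy, hw, Or.inr ⟨hcl.full y w hy.1 hwN hJ (hadj y w hEv), hF⟩⟩
      · obtain ⟨F, hF⟩ := hcl.c1 y w hEv hy.1 hJ hwN
        exact ⟨F, hy, hw, Or.inl hF⟩
    · intro y hy
      rcases hcl.c2 y hy.1 with ⟨z, hz⟩ | ⟨z, F, hz⟩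
      · by_cases hzD : z ∈ D
        · exact Or.inl ⟨z, hz, hy, hzD⟩
        · obtain ⟨F, hF⟩ := hDN z hzD (hcl.sub y z hz).2.1
          exact Or.inr ⟨z, F, hy, hzD, Or.inr ⟨hz, hF⟩⟩
      · exact Or.inr ⟨z, F, hy, fun h => (hcl.exm y z F hz).2.1 h.1, Or.inl hz⟩
    · rintro x hx hJ y z F ⟨h1, h2, h3 | ⟨h3, h4⟩⟩
      · exact hcl.c3a x hx.1 hJ y z F h3
      · exact hcl.exempt h4 hx.1 hJ
    · intro x hx hJ F h
      exact hcl.c3b x hx.1 hJ F fun y hy => (h y hy).1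
  obtain ⟨y, F, h⟩ := hP D AD ExD J ⟨y0, hy0, hy0'⟩ hclD
  have h1 : Alive O N A Ex a F y := alive_of_sub (fun x hx => hx.1) (fun y z h => h.1)
    (fun y z h => h.2.2) h
  exact h.mem.2 F h1

end

theorem pp_step [Finite V] {a : V → WithBot ℝ} {Ev : V → V → Prop} {i : P} {C : O.Om}
    (hP : PP O a Ev) (hadj : ∀ x w, Ev x w → G.adj x w) (hl : Legal O a i C) :
    PP O (upd O a i C) (fun x w => Ev x w ∨ (x ∈ XX O a i C ∧ G.adj x w ∧ Wit O a i C w)) := by
  intro N A Ex J hN hcl'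
  by_contra hno
  push Not at hno
  -- the system is closed at `a`
  have hcl : Closed O N A Ex J a Ev := by
    refine ⟨hcl'.sub, hcl'.full, ?_, ?_, hcl'.c2, ?_, ?_⟩
    · intro y z F h
      obtain ⟨h1, h2, h3, h4⟩ := hcl'.exm y z F h
      exact ⟨h1, h2, h3, h4.mono le_upd⟩
    · intro y w h
      exact hcl'.c1 y w (Or.inl h)
    · intro x hx hJ y z F h
      exact (le_upd x).trans_lt (hcl'.c3a x hx hJ y z F h)
    · intro x hx hJ F h
      exact (le_upd x).trans_lt (hcl'.c3b x hx hJ F h)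
  have hall := all_alive hP hadj hcl
  -- every available outcome is `C`
  have hblk : ∀ y F, Alive O N A Ex a F y →
      ∃ x ∈ N, x ∈ XX O a i C ∧ i ∉ J ∧ F = C := by
    intro y F h
    rcases h.raise (a' := upd O a i C) with h1 | ⟨x, hx, h1, h2⟩
    · exact absurd h1 (hno y F)
    have hX : x ∈ XX O a i C := by
      by_contra hX
      rw [upd_of_notMem hX] at h2
      exact h2 h1.lt
    have ho : G.owner x = i := hX.1
    have hJ : i ∉ J := by
      intro hJ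
      apply h2
      rcases h1.occurs with ⟨y, z, h3⟩ | h3
      · exact hcl'.c3a x hx (ho ▸ hJ) y z F h3
      · exact hcl'.c3b x hx (ho ▸ hJ) F h3
    refine ⟨x, hx, hX, hJ, ?_⟩
    have h3 := h1.lt
    rw [upd_of_mem hX, ho] at h2
    rw [ho] at h3
    have h4 : O.u i F ≤ O.u i C := by
      by_contra h5
      push Not at h5
      exact h2 (max_lt h3 (WithBot.coe_lt_coe.2 h5))
    rcases lt_or_eq_of_le h4 with h5 | h5
    · exfalso
      obtain ⟨-, w, hw1, hw2⟩ := hX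
      have h6 : x ∉ XX O a i F := fun h7 => absurd ((hl F h5 x h7).trans_lt h3) (lt_irrefl _)
      rcases low_or_win_of_notMem ho h6 hw1 with ⟨F', h7, h8⟩ | h7
      · exact hw2.1 ⟨F', h7, h8.trans h5⟩
      · exact hw2.1 ⟨F, win_via' h7, h5⟩
    · exact O.inj i h5
  have hA1 : ∀ y F, Alive O N A Ex a F y → F = C := fun y F h => (hblk y F h).choose_spec.2.2.2
  have hA2 : ∀ y ∈ N, Alive O N A Ex a C y := by
    intro y hy
    obtain ⟨F, hF⟩ := hall y hy
    have := hA1 y F hF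
    rwa [this] at hF
  obtain ⟨x0, hx0N, hx0X, hiJ⟩ : ∃ x ∈ N, x ∈ XX O a i C ∧ i ∉ J := by
    obtain ⟨y, hy⟩ := hN
    obtain ⟨x, h1, h2, h3, -⟩ := hblk y C (hA2 y hy)
    exact ⟨x, h1, h2, h3⟩
  have hA5 : ∀ y ∈ N, a y < (O.u (G.owner y) C : WithBot ℝ) := fun y hy => (hA2 y hy).lt
  have hA6 : ∀ y ∈ N, Via O a C y := fun y hy => hcl.alive_via (hA2 y hy)
  -- Fact 0 and Fact 1
  have fact0 : ∀ y z F, Ex y z F → y ∉ XX O a i C →
      ¬ (a y < (O.u (G.owner y) F : WithBot ℝ)) := by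
    intro y z F h hX h1
    refine hno y F (.exit y z (hcl.exm y z F h).1 ?_ h)
    rw [upd_of_notMem hX]
    exact h1
  have fact1 : ∀ x z F, Ex x z F → x ∈ XX O a i C → O.u i F ≤ O.u i C := by
    intro x z F h hX
    by_contra h1
    push Not at h1
    refine hno x F (.exit x z (hcl.exm x z F h).1 ?_ h)
    rw [upd_of_mem hX]
    have h2 := hA5 x (hcl.exm x z F h).1
    rw [hX.1] at h2 ⊢
    exact max_lt (h2.trans (WithBot.coe_lt_coe.2 h1)) (WithBot.coe_lt_coe.2 h1)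
  obtain ⟨Y, hY⟩ : ∃ Y : Set V, Y = {y | y ∈ N ∧ y ∉ Win O a i C} := ⟨_, rfl⟩
  have hYN : ∀ y ∈ Y, y ∈ N := fun y hy => by rw [hY] at hy; exact hy.1
  have hYW : ∀ y ∈ Y, y ∉ Win O a i C := fun y hy => by rw [hY] at hy; exact hy.2
  have hYm : ∀ y ∈ N, y ∉ Win O a i C → y ∈ Y := fun y h1 h2 => by rw [hY]; exact ⟨h1, h2⟩
  -- (Y2)
  have hY2 : ∀ x ∈ N, x ∈ XX O a i C → ∀ w, G.adj x w → Wit O a i C w → w ∈ Y ∧ A x w := by
    intro x hx hX w hw hwit
    have hwN : w ∈ N := by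
      by_contra hwN
      obtain ⟨F, hF⟩ := hcl'.c1 x w (Or.inr ⟨hX, hw, hwit⟩) hx (by rw [hX.1]; exact hiJ) hwN
      have h1 := wit_lt hwit (hcl'.exm x w F hF).2.2.2
      exact absurd (fact1 x w F hF hX) (not_le.2 h1)
    exact ⟨hYm w hwN hwit.2, hcl.full x w hx hwN (by rw [hX.1]; exact hiJ) hw⟩
  -- (Y3)
  have hY3 : ∀ y ∈ Y, G.owner y = i → y ∉ XX O a i C → ∀ z, A y z → z ∈ Y := by
    intro y hy ho hX z hz
    obtain ⟨-, hzN, hadj1⟩ := hcl.sub y z hz
    refine hYm z hzN fun hzW => hYW y hy ?_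
    exact mem_win (hA6 y (hYN y hy)) (Or.inr ⟨ho, ⟨z, hadj1, hzW⟩,
      fun w hw => low_or_win_of_notMem ho hX hw⟩)
  -- (Y4)
  have hY4 : ∀ y ∈ Y, G.owner y ≠ i → ∀ z, A y z → z ∈ Y := by
    intro y hy ho z hz
    obtain ⟨-, hzN, hadj1⟩ := hcl.sub y z hz
    refine hYm z hzN fun hzW => hYW y hy ?_
    exact mem_win (hA6 y (hYN y hy)) (Or.inl ⟨ho, Or.inr ⟨z, hadj1, hzW⟩⟩)
  -- every vertex outside `X` has a successor in `N`
  have hnext : ∀ y ∈ N, y ∉ XX O a i C → ∃ z, A y z ∧ z ∈ N := by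
    intro y hy hX
    rcases (hA2 y hy).next with h | ⟨z, h⟩
    · exact h
    · exact absurd (hA5 y hy) (fact0 y z C h hX)
  -- (Y5)
  have hY5 : ∀ y ∈ Y, G.owner y ≠ i → ∀ z F, Ex y z F → O.u i C < O.u i F := by
    intro y hy ho z F h
    have hX : y ∉ XX O a i C := fun hX => ho hX.1
    have h1 := not_lt.1 (fact0 y z F h hX)
    have h2 : O.u (G.owner y) F < O.u (G.owner y) C :=
      WithBot.coe_lt_coe.1 (h1.trans_lt (hA5 y (hYN y hy)))
    rcases lt_trichotomy (O.u i F) (O.u i C) with h3 | h3 | h3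
    · exfalso
      obtain ⟨z1, hz1, hz1N⟩ := hnext y (hYN y hy) hX
      obtain ⟨-, hzN, hadj1, hvia⟩ := hcl.exm y z F h
      refine hYW y hy (mem_win (hA6 y (hYN y hy)) (Or.inl ⟨ho, Or.inl ?_⟩))
      refine ⟨z, z1, F, hadj1, (hcl.sub y z1 hz1).2.2, ?_, hvia, hA6 z1 hz1N, h3, h2⟩
      rintro rfl
      exact hzN hz1N
    · exfalso
      have h4 : F = C := O.inj i h3
      rw [h4] at h2
      exact lt_irrefl _ h2
    · exact h3
  have hYne : Y.Nonempty := by
    obtain ⟨-, w, hw1, hw2⟩ := id hx0X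
    exact ⟨w, (hY2 x0 hx0N hx0X w hw1 hw2).1⟩
  have hsuccY : ∀ y ∈ Y, ∃ z, A y z ∧ y ∈ Y ∧ z ∈ Y := by
    intro y hy
    by_cases hX : y ∈ XX O a i C
    · obtain ⟨-, w, hw1, hw2⟩ := id hX
      obtain ⟨h1, h2⟩ := hY2 y (hYN y hy) hX w hw1 hw2
      exact ⟨w, h2, hy, h1⟩
    · obtain ⟨z, h1, -⟩ := hnext y (hYN y hy) hX
      refine ⟨z, h1, hy, ?_⟩
      by_cases ho : G.owner y = i
      · exact hY3 y hy ho hX z h1
      · exact hY4 y hy ho z h1
  -- the positional lemma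
  rcases positional Y {y | G.owner y = i} (fun y z => r i y z - O.u i C)
    (fun y z => A y z ∧ y ∈ Y ∧ z ∈ Y) (fun y z h => h.2) hsuccY with
    ⟨W, hWY, hWne, φ, hφ1, hφ2⟩ | ⟨B', hB1, hB2, hB3, hB4⟩
  · -- a region: contradiction
    have hsub : W ⊆ Win O a i C := by
      refine subset_win (φ := φ) fun y hy => ?_
      have hyY := hWY hy
      have hyN := hYN y hyY
      refine ⟨hA6 y hyN, ?_⟩
      by_cases ho : G.owner y = i
      · refine Or.inr ⟨ho, ?_, ?_⟩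
        · obtain ⟨z, hz⟩ := hsuccY y hyY
          obtain ⟨h1, h2⟩ := hφ2 y hy ho z hz
          exact ⟨z, (hcl.sub y z hz.1).2.2, Or.inr ⟨h1, h2⟩⟩
        · intro z hz
          by_cases hzY : z ∈ Y
          · have h1 : A y z := hcl.full y z hyN (hYN z hzY) (by rw [ho]; exact hiJ) hz
            exact Or.inr (Or.inr (hφ2 y hy ho z ⟨h1, hyY, hzY⟩))
          · by_cases hzN : z ∈ N
            · right
              left
              by_contra h1
              exact hzY (hYm z hzN h1)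
            · by_cases hzw : Wit O a i C z
              · exact absurd (hY2 y hyN ⟨ho, z, hz, hzw⟩ z hz hzw).1 hzY
              · rcases not_wit hzw with h1 | h1
                · exact Or.inl h1
                · exact Or.inr (Or.inl h1)
      · obtain ⟨z, hz, hz1, hz2⟩ := hφ1 y hy ho
        exact Or.inl ⟨ho, Or.inr ⟨z, (hcl.sub y z hz1.1).2.2, Or.inr ⟨hz, hz2⟩⟩⟩
    obtain ⟨y, hy⟩ := hWne
    exact hYW y (hWY hy) (hsub hy)
  · -- the smaller system
    obtain ⟨ExY, hExY⟩ : ∃ ExY : V → V → O.Om → Prop,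
        ExY = fun y z F => Ex y z F ∧ y ∈ Y ∧ O.u i C < O.u i F := ⟨_, rfl⟩
    have hclY : Closed O Y B' ExY (J ∪ {i}) a Ev := by
      refine ⟨?_, ?_, ?_, ?_, ?_, ?_, ?_⟩
      · intro y z h
        have h1 := hB1 y z h
        exact ⟨h1.2.1, h1.2.2, (hcl.sub y z h1.1).2.2⟩
      · intro y z hy hz hJ h
        have hJ1 : G.owner y ∉ J := fun h1 => hJ (Or.inl h1)
        have hJ2 : G.owner y ≠ i := fun h1 => hJ (Or.inr h1)
        exact hB3 y hJ2 z ⟨hcl.full y z (hYN y hy) (hYN z hz) hJ1 h, hy, hz⟩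
      · intro y z F h
        rw [hExY] at h
        obtain ⟨h1, h2, h3⟩ := h
        obtain ⟨h4, h5, h6, h7⟩ := hcl.exm y z F h1
        exact ⟨h2, fun h8 => h5 (hYN z h8), h6, h7⟩
      · intro y w hEv hy hJ hw
        have hJ1 : G.owner y ∉ J := fun h1 => hJ (Or.inl h1)
        have hJ2 : G.owner y ≠ i := fun h1 => hJ (Or.inr h1)
        have hwN : w ∉ N := fun hwN =>
          hw (hY4 y hy hJ2 w (hcl.full y w (hYN y hy) hwN hJ1 (hadj y w hEv)))
        obtain ⟨F, hF⟩ := hcl.c1 y w hEv (hYN y hy) hJ1 hwN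
        refine ⟨F, ?_⟩
        rw [hExY]
        exact ⟨hF, hy, hY5 y hy hJ2 w F hF⟩
      · intro y hy
        exact Or.inl (hB2 y hy)
      · intro x hx hJ y z F h
        rw [hExY] at h
        rcases hJ with hJ | hJ
        · exact hcl.c3a x (hYN x hx) hJ y z F h.1
        · have h1 := hA5 x (hYN x hx)
          rw [show G.owner x = i from hJ] at h1 ⊢
          exact h1.trans (WithBot.coe_lt_coe.2 h.2.2)
      · intro x hx hJ F h
        rcases hJ with hJ | hJ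
        · exact hcl.c3b x (hYN x hx) hJ F fun y hy => (hB1 _ _ (h y hy)).1
        · have h1 := hA5 x (hYN x hx)
          rw [show G.owner x = i from hJ] at h1 ⊢
          exact h1.trans (WithBot.coe_lt_coe.2 (O.lt_of_pos i F _ B' hB4 h))
    obtain ⟨y, F, hF⟩ := hP Y B' ExY (J ∪ {i}) hYne hclY
    have h1 : Alive O N A Ex a F y := alive_of_sub hYN (fun y z h => (hB1 y z h).1)
      (fun y z h => by rw [hExY] at h; exact Or.inl h.1) hF
    have h2 : F = C := hA1 y F h1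
    have h3 : O.u i C < O.u i F := by
      rcases hF.occurs with ⟨y, z, h3⟩ | h3
      · rw [hExY] at h3
        exact h3.2.2
      · exact O.lt_of_pos i F _ B' hB4 h3
    rw [h2] at h3
    exact lt_irrefl _ h3

theorem pp_reach [Finite V] {a : V → WithBot ℝ} {Ev : V → V → Prop} (h : Reach O a Ev) :
    PP O a Ev := by
  induction h with
  | base => exact pp_base
  | step a Ev i C h hl ih => exact pp_step ih h.adj hl

/-- **viability**: at reachable bounds every vertex has a viable outcome -/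
theorem viable_all [Finite V] {a : V → WithBot ℝ} {Ev : V → V → Prop} (h : Reach O a Ev)
    (v : V) : ∃ F, Via O a F v := by
  by_contra hv
  push Not at hv
  let N : Set V := {v | ∀ F, ¬ Via O a F v}
  have hN : ∀ z, z ∉ N → ∃ F, Via O a F z := by
    intro z hz
    by_contra h1
    push Not at h1
    exact hz h1
  let A : V → V → Prop := fun y z => y ∈ N ∧ z ∈ N ∧ G.adj y z
  let Ex : V → V → O.Om → Prop := fun y z F => y ∈ N ∧ z ∉ N ∧ G.adj y z ∧ Via O a F z
  have hcl : Closed O N A Ex ∅ a Ev := by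
    refine ⟨fun y z h => h, fun y z hy hz _ h => ⟨hy, hz, h⟩, fun y z F h => h, ?_, ?_, ?_, ?_⟩
    · intro y w hEv hy _ hw
      obtain ⟨F, hF⟩ := hN w hw
      exact ⟨F, hy, hw, h.adj y w hEv, hF⟩
    · intro y hy
      obtain ⟨z, hz⟩ := G.total y
      by_cases hzN : z ∈ N
      · exact Or.inl ⟨z, hy, hzN, hz⟩
      · obtain ⟨F, hF⟩ := hN z hzN
        exact Or.inr ⟨z, F, hy, hzN, hz, hF⟩
    · intro x _ hJ
      exact absurd hJ (Set.notMem_empty _)
    · intro x _ hJ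
      exact absurd hJ (Set.notMem_empty _)
  obtain ⟨y, F, hF⟩ := pp_reach h N A Ex ∅ ⟨v, hv⟩ hcl
  exact hF.mem F (hcl.alive_via hF)

end SPE
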