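import Pool.Agent.SPE.Path

/-!
# The potential for deviations: pathwise domination and one-step inequalities (MP_061e18_lc)
-/

open Filter Topology
open scoped Classical

namespace SPE

namespace Blueprint

variable {V P : Type} {G : Arena V P} {r : P → V → V → ℝ} (B : Blueprint G r)

/-- number of survived leak vertices since the last change of the level -/
noncomputable def upd (j : P) (md : Mode P B.O) (y : V) (md' : Mode P B.O) (m : ℕ) : ℕ :=
  if B.u j md'.com ≠ B.u j md.com then 0 else if B.OwnLeak j md y then m + 1 else m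

/-- the potential for a deviation of `j` -/
noncomputable def PhiU (j : P) (M δ e : ℝ) (md : Mode P B.O) (m : ℕ) : ℝ :=
  B.u j md.com + M + (if B.Foreign j md then 2 * M * δ else 0) + e * ((1 - δ)⁻¹) ^ m

section
variable {B} {j : P} {M δ e : ℝ}

theorem PhiU_ge (h0 : 0 ≤ M) (hδ0 : 0 ≤ δ) (md : Mode P B.O) (m : ℕ) :
    B.u j md.com + M + e * ((1 - δ)⁻¹) ^ m ≤ B.PhiU j M δ e md m := by
  unfold PhiU
  have : 0 ≤ (if B.Foreign j md then 2 * M * δ else 0) := by
    split_ifs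
    · positivity
    · exact le_rfl
  linarith

theorem PhiU_ge' (h0 : 0 ≤ M) (hδ0 : 0 ≤ δ) (hδ1 : δ < 1) (he : 0 ≤ e) (md : Mode P B.O) (m : ℕ) :
    B.u j md.com + M ≤ B.PhiU j M δ e md m := by
  have h1 := PhiU_ge (e := e) (j := j) (M := M) h0 hδ0 md m
  have h2 : 0 ≤ e * ((1 - δ)⁻¹) ^ m := by
    have : 0 < 1 - δ := by linarith
    positivity
  linarith

end

namespace Run

variable {B} {a : ℕ} {j : P} (R : B.Run a j)

theorem eventually_le_PhiU {M K δ e : ℝ} (h0 : 0 ≤ M) (hM : ∀ y z, |r j y z| ≤ M)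
    (hu : ∀ C, |B.u j C| ≤ M) (hK : ∀ C y, |B.pot j C y| ≤ K)
    (hδ0 : 0 < δ) (hδ1 : δ < 1) (he : 0 < e) (m : ℕ → ℕ)
    (hm : ∀ n, a ≤ n → m (n + 1) = B.upd j (R.md n) (R.rho n) (R.md (n + 1)) (m n)) :
    ∀ᶠ n in atTop, meanPayoff (r j) R.rho + M ≤ B.PhiU j M δ e (R.md n) (m n) := by
  obtain ⟨n2, ha, hf, hc⟩ := R.exists_const
  by_cases h : ∃ n3, n2 ≤ n3 ∧ ∀ n, n3 ≤ n → ¬ B.OwnLeak j (R.md n) (R.rho n)
  · obtain ⟨n3, h23, ho⟩ := h
    have h1 := R.meanPayoff_le h0 hM hu hK ha h23 hf hc ho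
    filter_upwards [eventually_ge_atTop n2] with n hn
    have h2 := PhiU_ge' (j := j) (e := e) h0 hδ0.le hδ1 he.le (R.md n) (m n)
    have h3 := hc n hn
    unfold lev at h3 h1
    linarith
  · push Not at h
    have hstep : ∀ n, n2 ≤ n → m n ≤ m (n + 1) ∧
        (B.OwnLeak j (R.md n) (R.rho n) → m (n + 1) = m n + 1) := by
      intro n hn
      have h1 : B.u j (R.md (n + 1)).com = B.u j (R.md n).com :=
        (hc (n + 1) (by omega)).trans (hc n hn).symm
      have h2 := hm n (by omega)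
      unfold upd at h2
      rw [if_neg (not_not.2 h1)] at h2
      split_ifs at h2 with h3
      · exact ⟨by omega, fun _ => h2⟩
      · exact ⟨by omega, fun h4 => absurd h4 h3⟩
    have hmono : ∀ n k, n2 ≤ n → n ≤ k → m n ≤ m k := by
      intro n k hn hk
      induction k, hk using Nat.le_induction with
      | base => exact le_rfl
      | succ k hk ih => exact ih.trans (hstep k (by omega)).1
    have hbig : ∀ L, ∃ N, n2 ≤ N ∧ L ≤ m N := by
      intro L
      induction L with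
      | zero => exact ⟨n2, le_rfl, Nat.zero_le _⟩
      | succ L ih =>
        obtain ⟨N, hN, hL⟩ := ih
        obtain ⟨n, hn, hl⟩ := h N hN
        refine ⟨n + 1, by omega, ?_⟩
        rw [(hstep n (by omega)).2 hl]
        have := hmono N n hN hn
        omega
    have h1d : 0 < 1 - δ := by linarith
    have hx : 1 < (1 - δ)⁻¹ := (one_lt_inv₀ h1d).2 (by linarith)
    obtain ⟨L, hL⟩ := pow_unbounded_of_one_lt (2 * M / e) hx
    obtain ⟨N, hN, hLN⟩ := hbig L
    have hmp : meanPayoff (r j) R.rho ≤ M := by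
      refine meanPayoff_le_of_freq h0 hM R.rho M (fun η hη => ?_)
      refine Eventually.frequently (Eventually.of_forall (fun n => ?_))
      have := (abs_le.1 (abs_avg_le2 h0 hM R.rho n)).2
      linarith
    filter_upwards [eventually_ge_atTop N] with n hn
    have h2 := PhiU_ge (j := j) (e := e) h0 hδ0.le (R.md n) (m n)
    have h3 : (1 - δ)⁻¹ ^ L ≤ (1 - δ)⁻¹ ^ (m n) :=
      pow_le_pow_right₀ hx.le (hLN.trans (hmono N n hN hn))
    have h4 : 2 * M < e * (1 - δ)⁻¹ ^ L := by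
      rw [div_lt_iff₀ he] at hL
      linarith
    have h5 : e * (1 - δ)⁻¹ ^ L ≤ e * (1 - δ)⁻¹ ^ (m n) := mul_le_mul_of_nonneg_left h3 he.le
    have h6 := (abs_le.1 (hu (R.md n).com)).1
    linarith

end Run

section onestep

variable {B} {j : P} {M δ e : ℝ}

/-- the owner deviates, or the move is deterministic -/
theorem PhiU_le_of (h0 : 0 ≤ M) (hδ0 : 0 < δ) (hδ1 : δ < 1) (he : 0 < e) {md md' : Mode P B.O}
    {m m' : ℕ} (h1 : B.u j md'.com ≤ B.u j md.com) (h2 : B.Foreign j md' → B.Foreign j md)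
    (h3 : m' ≤ m) : B.PhiU j M δ e md' m' ≤ B.PhiU j M δ e md m := by
  unfold PhiU
  have h1d : 0 < 1 - δ := by linarith
  have hx : 1 ≤ (1 - δ)⁻¹ := ((one_lt_inv₀ h1d).2 (by linarith)).le
  have h4 : e * (1 - δ)⁻¹ ^ m' ≤ e * (1 - δ)⁻¹ ^ m :=
    mul_le_mul_of_nonneg_left (pow_le_pow_right₀ hx h3) he.le
  have h5 : (if B.Foreign j md' then 2 * M * δ else 0) ≤
      (if B.Foreign j md then 2 * M * δ else 0) := by
    split_ifs with h6 h7 h7
    · exact le_rfl
    · exact absurd (h2 h6) h7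
    · positivity
    · exact le_rfl
  linarith

/-- one step at a vertex of the deviator -/
theorem PhiU_dev (h0 : 0 ≤ M) (hδ0 : 0 < δ) (hδ1 : δ < 1) (he : 0 < e) {n : ℕ}
    {md : Mode P B.O} {y z : V} (hg : B.good n md y) (ha : G.adj y z) (hy : G.owner y = j)
    (m : ℕ) :
    B.PhiU j M δ e (B.stepM (n + 1) md y z) (B.upd j md y (B.stepM (n + 1) md y z) m) ≤
      B.PhiU j M δ e md m := by
  have hk := B.step_kind (j := j) hg ha (fun h => absurd hy h)
  refine PhiU_le_of h0 hδ0 hδ1 he ?_ (fun hf => (B.kind_foreign hk hf).1) ?_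
  · rcases hk with ⟨C, h1, h2, h3⟩ | ⟨h1, F, h3, h2⟩ | ⟨h1, h3, h2, h4⟩ |
      ⟨i, C, d, h1, h2, h4, h3⟩ | ⟨i, C, d, h1, h2, h4, h3⟩ | ⟨i, C, d, h1, h2, h3, h4, h5⟩
    · rw [h3, h1]
    · rw [h3]; exact h2.le
    · rw [h3]; exact h2
    · rw [h3]
      subst h1
      have h6 := (B.leak_spec i C y hg.1 h2).2.2.2.2.2.2.2
      rw [hy] at h6
      exact h6
    · rw [h3, h1]; exact le_rfl
    · rw [h3, com_cont, h1]; exact le_rfl
  · unfold upd
    split_ifs with h6 h7
    · exact Nat.zero_le _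
    · exfalso
      obtain ⟨C, d, h8, h9⟩ := h7
      subst h8
      exact (B.leak_spec j C y hg.1 h9).1 hy
    · exact le_rfl

/-- one step at a vertex with a deterministic rule -/
theorem PhiU_det (h0 : 0 ≤ M) (hδ0 : 0 < δ) (hδ1 : δ < 1) (he : 0 < e) {n : ℕ}
    {md : Mode P B.O} {y z : V} (hs : B.supp md y z) (hg : B.good n md y)
    (hl : ∀ i C d, md = .wander i C d → y ∉ B.leak i C) (m : ℕ) :
    B.PhiU j M δ e (B.stepM (n + 1) md y z) (B.upd j md y (B.stepM (n + 1) md y z) m) ≤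
      B.PhiU j M δ e md m := by
  have hk := B.step_kind0 hg hs
  have hcom : (B.stepM (n + 1) md y z).com = md.com := by
    rcases hk with ⟨C, h1, h2, h3⟩ | ⟨i, C, d, h1, h2, h4, h3⟩ | ⟨i, C, d, h1, h2, h4, h3⟩ |
      ⟨i, C, d, h1, h2, h4, h3⟩
    · rw [h3, h1]
    · exact absurd h2 (hl i C d h1)
    · exact absurd h2 (hl i C d h1)
    · rw [h3, com_cont, h1]; rfl
  refine PhiU_le_of h0 hδ0 hδ1 he ?_ (fun hf => ?_) ?_
  · rw [hcom]
  · rcases hk with ⟨C, h1, h2, h3⟩ | ⟨i, C, d, h1, h2, h4, h3⟩ | ⟨i, C, d, h1, h2, h4, h3⟩ |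
      ⟨i, C, d, h1, h2, h4, h3⟩
    · rw [h3] at hf
      obtain ⟨i', C', d', h5, -⟩ := hf
      cases h5
    · exact absurd h2 (hl i C d h1)
    · exact absurd h2 (hl i C d h1)
    · rw [h3] at hf
      unfold cont at hf
      split_ifs at hf with h6
      · rw [h1]; exact hf
      · obtain ⟨i', C', d', h5, -⟩ := hf
        cases h5
  · unfold upd
    rw [hcom, if_neg (not_not.2 rfl)]
    split_ifs with h7
    · obtain ⟨C, d, h8, h9⟩ := h7
      exact absurd h9 (hl j C d h8)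
    · exact le_rfl

/-- one step at a leak vertex that is not owned by the deviator -/
theorem PhiU_leak (h0 : 0 ≤ M) (hu : ∀ C, |B.u j C| ≤ M) (hδ0 : 0 < δ) (hδ1 : δ < 1)
    (he : 0 < e) (hgap : ∀ C C', B.u j C < B.u j C' → B.u j C + e ≤ B.u j C') {n : ℕ}
    {i : P} {C : B.O} {d : ℕ} {y : V} (hg : B.good n (.wander i C d) y) (hl : y ∈ B.leak i C)
    (m : ℕ) :
    δ * B.PhiU j M δ e (B.stepM (n + 1) (.wander i C d) y (B.lz i C y))
        (B.upd j (.wander i C d) y (B.stepM (n + 1) (.wander i C d) y (B.lz i C y)) m) +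
      (1 - δ) * B.PhiU j M δ e (B.stepM (n + 1) (.wander i C d) y (B.lc i C y))
        (B.upd j (.wander i C d) y (B.stepM (n + 1) (.wander i C d) y (B.lc i C y)) m) ≤
      B.PhiU j M δ e (.wander i C d) m := by
  obtain ⟨s1, s2, s3, s4, s5, s6, s7, s8⟩ := B.leak_spec i C y hg.1 hl
  have e1 : B.stepM (n + 1) (.wander i C d) y (B.lz i C y) = .follow (B.lG i C y) := by
    simp only [stepM]
    rw [if_pos hl, if_pos trivial]
  have e2 : B.stepM (n + 1) (.wander i C d) y (B.lc i C y) = .follow C := by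
    simp only [stepM]
    rw [if_pos hl, if_neg s4.symm, if_pos trivial]
  rw [e1, e2]
  have h1d : 0 < 1 - δ := by linarith
  have hx : 1 ≤ (1 - δ)⁻¹ := ((one_lt_inv₀ h1d).2 (by linarith)).le
  have hnf : ∀ F : B.O, ¬ B.Foreign j (.follow F) := by
    rintro F ⟨i', C', d', h5, -⟩
    cases h5
  have hpow : ∀ k : ℕ, 0 < e * (1 - δ)⁻¹ ^ k := fun k => by positivity
  by_cases hi : i = j
  · subst hi
    have hown : B.OwnLeak i (.wander i C d) y := ⟨C, d, rfl, hl⟩
    have u1 : B.upd i (.wander i C d) y (.follow (B.lG i C y)) m = 0 := by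
      unfold upd
      exact if_pos (ne_of_lt s7)
    have u2 : B.upd i (.wander i C d) y (.follow C) m = m + 1 := by
      unfold upd
      rw [if_neg (fun h : B.u i (Mode.follow C).com ≠ B.u i (Mode.wander i C d).com => h rfl),
        if_pos hown]
    rw [u1, u2]
    unfold PhiU
    rw [if_neg (hnf _), if_neg (hnf _), if_neg (by
      rintro ⟨i', C', d', h5, h6⟩
      cases h5
      exact h6 rfl)]
    have h7 := hgap _ _ s7
    have h8 : (1 - δ) * (e * (1 - δ)⁻¹ ^ (m + 1)) = e * (1 - δ)⁻¹ ^ m := by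
      rw [pow_succ]
      field_simp
    have h9 : δ * (B.u i (B.lG i C y) + e) ≤ δ * B.u i C := mul_le_mul_of_nonneg_left h7 hδ0.le
    show δ * (B.u i (B.lG i C y) + M + 0 + e * (1 - δ)⁻¹ ^ 0) +
      (1 - δ) * (B.u i C + M + 0 + e * (1 - δ)⁻¹ ^ (m + 1)) ≤
      B.u i C + M + 0 + e * (1 - δ)⁻¹ ^ m
    rw [pow_zero, mul_one]
    have h10 : (1 - δ) * (B.u i C + M + 0 + e * (1 - δ)⁻¹ ^ (m + 1)) =
        (1 - δ) * (B.u i C + M) + e * (1 - δ)⁻¹ ^ m := by
      rw [← h8]; ring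
    rw [h10]
    nlinarith
  · have hown : ¬ B.OwnLeak j (.wander i C d) y := by
      rintro ⟨C', d', h5, -⟩
      cases h5
      exact hi rfl
    have u1 : B.upd j (.wander i C d) y (.follow (B.lG i C y)) m ≤ m := by
      unfold upd
      split_ifs
      · exact Nat.zero_le _
      · exact le_rfl
    have u2 : B.upd j (.wander i C d) y (.follow C) m = m := by
      unfold upd
      rw [if_neg (fun h : B.u j (Mode.follow C).com ≠ B.u j (Mode.wander i C d).com => h rfl),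
        if_neg hown]
    rw [u2]
    have hfor : B.Foreign j (.wander i C d) := ⟨i, C, d, rfl, hi⟩
    unfold PhiU
    rw [if_neg (hnf _), if_neg (hnf _), if_pos hfor]
    show δ * (B.u j (B.lG i C y) + M + 0 + e * (1 - δ)⁻¹ ^
        (B.upd j (.wander i C d) y (.follow (B.lG i C y)) m)) +
      (1 - δ) * (B.u j C + M + 0 + e * (1 - δ)⁻¹ ^ m) ≤
      B.u j C + M + 2 * M * δ + e * (1 - δ)⁻¹ ^ m
    have h7 : e * (1 - δ)⁻¹ ^ (B.upd j (.wander i C d) y (.follow (B.lG i C y)) m) ≤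
        e * (1 - δ)⁻¹ ^ m :=
      mul_le_mul_of_nonneg_left (pow_le_pow_right₀ hx u1) he.le
    have h8 := (abs_le.1 (hu (B.lG i C y))).2
    have h9 := (abs_le.1 (hu C)).1
    nlinarith [mul_le_mul_of_nonneg_left h7 hδ0.le, mul_le_mul_of_nonneg_left h8 hδ0.le,
      mul_le_mul_of_nonneg_left h9 hδ0.le]

end onestep

end Blueprint

end SPE
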